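import Pool.Agent.HS37.BL.BMain

/-!
# The canonical Chow-Kunneth decomposition
-/

open CategoryTheory AlgebraicGeometry

set_option autoImplicit false

universe u v w

namespace Pool.Agent.HS37.BL

open Pool.Agent.H914 Pool.Agent.H914.VarClass Pool.Agent.H914.VarClass.Obj Pool.Agent.W492.BB
  Pool.Agent.W550.Corr Pool.Agent.TH133 Pool.Agent.Y107

set_option linter.unusedSectionVars false

variable {k : Type u} [Field k] {𝒱 : VarClass k} {C : TheoryData.{u, v, 0} 𝒱 ℚ}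
  [hC : IsChowProj C] {K : Type w} [Field K] {H : WeilTheoryData.{u, v, w} C K}
  [hH : IsWeilProj H] {X Y : 𝒱.Obj}

include hC hH

omit hH in
lemma plus_eq (D' : C.A Y) (D : C.A X) (x : C.A (Y.prod X)) :
    C.comp x (C.mulCorr D) + C.comp (C.mulCorr D') x = C.mul (C.ext D' 1 + C.ext 1 D) x := by
  change _ = (C.ext D' 1 + C.ext 1 D) * x
  rw [comp_mulCorr, mulCorr_comp, ext_one_right, ext_one_left, add_mul, add_comm]

/-- The middle surjectivity in the ring of correspondences. -/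
lemma cor_surj {D : C.A X} (hs : MiddleSurjective H (C.ext D 1 + C.ext 1 D)) :
    ∀ y ∈ crg C X 1, actH C X H y = 0 → ∃ x ∈ crg C X 0, actH C X H x = 0 ∧
      corD X D * x + x * corD X D = y := by
  intro y hy hy0
  obtain ⟨x, ⟨hx1, hx2⟩, hx3⟩ := hs X.dim (by rw [dim_prod]; ring) y ⟨hy, actH_zero_iff.1 hy0⟩
  refine ⟨x, crg_zero_iff.2 hx1, actH_zero_iff.2 hx2, ?_⟩
  exact (plus_eq D D x).trans hx3

/-- The middle injectivity in the ring of correspondences. -/
lemma cor_inj {D : C.A X} (hs : MiddleBijective H (C.ext D 1 + C.ext 1 D)) :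
    ∀ x ∈ crg C X 0, actH C X H x = 0 → corD X D * x + x * corD X D = 0 → x = 0 := by
  intro x hx hx0 h0
  refine hs.2 X.dim (by rw [dim_prod]; ring) x ⟨crg_zero_iff.1 hx, actH_zero_iff.1 hx0⟩ ?_
  exact (plus_eq D D x).symm.trans h0

/-- The grading operator of a decomposition. -/
noncomputable def gop (P : ℕ → Cor C X) : Cor C X :=
  ∑ n ∈ Finset.range (2 * X.dim + 1), ((n : ℚ) - X.dim) • P n

lemma gop_mul {P : ℕ → Cor C X} (hP : IsCK H X P) (j : ℕ) :
    gop P * P j = ((j : ℚ) - X.dim) • P j := by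
  unfold gop
  rw [Finset.sum_mul]
  simp_rw [smul_mul_assoc, hP.mul_eq]
  by_cases hj : 2 * X.dim < j
  · have h0 : P j = 0 := hP.out j hj
    rw [h0, smul_zero]
    refine Finset.sum_eq_zero fun n hn => ?_
    rw [Finset.mem_range] at hn
    rw [if_neg (by omega), smul_zero]
  · rw [Finset.sum_eq_single j]
    · rw [if_pos rfl]
    · intro n _ hn
      rw [if_neg hn, smul_zero]
    · intro h1
      exact absurd (Finset.mem_range.2 (by omega)) h1

lemma mul_gop {P : ℕ → Cor C X} (hP : IsCK H X P) (j : ℕ) :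
    P j * gop P = ((j : ℚ) - X.dim) • P j := by
  unfold gop
  rw [Finset.mul_sum]
  simp_rw [mul_smul_comm, hP.mul_eq]
  by_cases hj : 2 * X.dim < j
  · have h0 : P j = 0 := hP.out j hj
    rw [h0, smul_zero]
    refine Finset.sum_eq_zero fun n hn => ?_
    split_ifs <;> rw [smul_zero]
  · rw [Finset.sum_eq_single j]
    · rw [if_pos rfl]
    · intro n _ hn
      rw [if_neg (Ne.symm hn), smul_zero]
    · intro h1
      exact absurd (Finset.mem_range.2 (by omega)) h1

lemma gop_mem {P : ℕ → Cor C X} (hP : IsCK H X P) : gop P ∈ crg C X 0 :=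
  Submodule.sum_mem _ fun n _ => Submodule.smul_mem _ _ (crg_zero_iff.2 (hP.deg n))

/-- Two decompositions have homologically equivalent grading operators. -/
lemma gop_hom {P Q : ℕ → Cor C X} (hP : IsCK H X P) (hQ : IsCK H X Q) :
    actH C X H (gop P - gop Q) = 0 := by
  have h1 : ∀ n, actH C X H (P n - Q n) = 0 := by
    intro n
    apply ext_gr H
    intro m a ha
    rw [map_sub, LinearMap.sub_apply, hP.actH_eq' n m ha, hQ.actH_eq' n m ha, sub_self,
      LinearMap.zero_apply]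
  have h2 : gop P - gop Q =
      ∑ n ∈ Finset.range (2 * X.dim + 1), algebraMap ℚ (Cor C X) ((n : ℚ) - X.dim) *
        (P n - Q n) := by
    unfold gop
    rw [← Finset.sum_sub_distrib]
    refine Finset.sum_congr rfl fun n _ => ?_
    rw [← smul_sub, Algebra.smul_def]
  rw [h2, map_sum]
  refine Finset.sum_eq_zero fun n _ => ?_
  rw [map_mul, h1, mul_zero]

/-- Homogeneity in terms of the grading operator. -/
lemma gop_comm {P : ℕ → Cor C X} (hP : IsCK H X P) {e : Cor C X}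
    (hom : ∀ n, e * P n = P (n + 2) * e) : gop P * e - e * gop P = 2 * e := by
  have h1 : ∀ j, (gop P * e - e * gop P) * P j = (2 * e) * P j := by
    intro j
    have k1 : gop P * e * P j = (((j + 2 : ℕ) : ℚ) - X.dim) • (e * P j) := by
      rw [mul_assoc, hom, ← mul_assoc, gop_mul hP, smul_mul_assoc]
    have k2 : e * gop P * P j = ((j : ℚ) - X.dim) • (e * P j) := by
      rw [mul_assoc, gop_mul hP, mul_smul_comm]
    rw [sub_mul, k1, k2, ← sub_smul, mul_assoc, two_mul, ← two_smul ℚ]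
    congr 1
    push_cast
    ring
  calc gop P * e - e * gop P
      = (gop P * e - e * gop P) * ∑ n ∈ Finset.range (2 * X.dim + 1), P n := by
        rw [hP.sum_eq, mul_one]
    _ = (2 * e) * ∑ n ∈ Finset.range (2 * X.dim + 1), P n := by
        rw [Finset.mul_sum, Finset.mul_sum]
        exact Finset.sum_congr rfl fun n _ => h1 n
    _ = 2 * e := by rw [hP.sum_eq, mul_one]

/-- A decomposition is determined by its grading operator. -/
lemma eq_of_gop {P Q : ℕ → Cor C X} (hP : IsCK H X P) (hQ : IsCK H X Q) (h : gop P = gop Q) :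
    P = Q := by
  have h1 : ∀ m n, m ≠ n → P m * Q n = 0 := by
    intro m n hmn
    have k1 : P m * gop P * Q n = ((m : ℚ) - X.dim) • (P m * Q n) := by
      rw [mul_gop hP, smul_mul_assoc]
    have k2 : P m * gop P * Q n = ((n : ℚ) - X.dim) • (P m * Q n) := by
      rw [h, mul_assoc, gop_mul hQ, mul_smul_comm]
    rw [k1, ← sub_eq_zero, ← sub_smul, smul_eq_zero] at k2
    rcases k2 with k2 | k2
    · exfalso
      apply hmn
      have : (m : ℚ) = n := by linarith
      exact_mod_cast this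
    · exact k2
  funext m
  by_cases hm : 2 * X.dim < m
  · have e1 : P m = 0 := hP.out m hm
    have e2 : Q m = 0 := hQ.out m hm
    rw [e1, e2]
  have hmr : m ∈ Finset.range (2 * X.dim + 1) := Finset.mem_range.2 (by omega)
  calc P m = P m * ∑ n ∈ Finset.range (2 * X.dim + 1), Q n := by rw [hQ.sum_eq, mul_one]
    _ = P m * Q m := by
      rw [Finset.mul_sum, Finset.sum_eq_single m (fun n _ hn => h1 m n (Ne.symm hn))
        (fun h2 => absurd hmr h2)]
    _ = (∑ n ∈ Finset.range (2 * X.dim + 1), P n) * Q m := by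
      rw [Finset.sum_mul, Finset.sum_eq_single m (fun n _ hn => h1 n m hn)
        (fun h2 => absurd hmr h2)]
    _ = Q m := by rw [hP.sum_eq, one_mul]

/-- **The canonical Chow-Kunneth decomposition.** -/
theorem canonical_ck {D : C.A X} (hD : LefschetzB H D) (hnil : HomNilpotent H X)
    (hs : MiddleBijective H (C.ext D 1 + C.ext 1 D)) :
    ∃ π : ℕ → C.A (X.prod X), IsCK H X π ∧ IsSelfDual C π ∧
      MotivicLefschetz C (C.mulCorr D) π ∧
      ∀ π' : ℕ → C.A (X.prod X), IsCK H X π' → LHomogeneous C D π' → π' = π := by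
  obtain ⟨-, π, hπ, hM⟩ := isLefschetzClass_of_middle hD hnil hs.1
  obtain ⟨f, h₀, B⟩ := exists_bData hD
  obtain ⟨τ, hτ, hτ1, hτ2⟩ := B.exists_sign
  have hinj := (nilSys (H := H) hnil).minus_inj B.em hτ hτ1 hτ2 (cor_surj hs.1) (cor_inj hs)
  have huniq : ∀ P Q : ℕ → Cor C X, IsCK H X P → IsCK H X Q →
      (∀ n, corD X D * P n = P (n + 2) * corD X D) →
      (∀ n, corD X D * Q n = Q (n + 2) * corD X D) → P = Q := by
    intro P Q hP hQ homP homQ
    refine eq_of_gop hP hQ (sub_eq_zero.1 (hinj _ (sub_mem (gop_mem hP) (gop_mem hQ))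
      (gop_hom hP hQ) ?_))
    have k1 := gop_comm hP homP
    have k2 := gop_comm hQ homQ
    have k3 : (gop P - gop Q) * corD X D - corD X D * (gop P - gop Q) =
        (gop P * corD X D - corD X D * gop P) - (gop Q * corD X D - corD X D * gop Q) := by
      noncomm_ring
    rw [k1, k2, sub_self] at k3
    exact sub_eq_zero.1 k3
  let P : ℕ → Cor C X := π
  have hP : IsCK H X P := hπ
  have hM' : MotivicLefschetz C (X := X) (corD X D) P := hM
  have hQ : IsCK H X (dualCK (X := X) C P) := hP.dual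
  have hMQ := motivic_dual hP hM'
  have hdual : dualCK (X := X) C P = P := huniq _ _ hQ hP hMQ.homogeneous hM'.homogeneous
  refine ⟨π, hπ, ?_, hM, fun π' hπ' hom' => huniq π' π hπ' hπ hom' hM'.homogeneous⟩
  intro i hi
  have h1 := congrFun hdual (2 * X.dim - i)
  have h2 : dualCK (X := X) C P (2 * X.dim - i) = tp C (π (2 * X.dim - (2 * X.dim - i))) :=
    if_pos (by omega)
  rw [h2, show 2 * X.dim - (2 * X.dim - i) = i by omega] at h1
  exact h1

/-- **Unique lifting of commuting correspondences.** -/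
theorem unique_lift {D : C.A X} (hD : LefschetzB H D) (hnil : HomNilpotent H X)
    (hs : MiddleSurjective H (C.ext D 1 + C.ext 1 D)) {D' : C.A Y} (hD' : C.Deg 1 D')
    (hYX : MiddleBijective H (C.ext D' 1 + C.ext 1 D)) {i : ℕ} (hi : 2 * i = (Y.prod X).dim)
    {Γ : C.A (Y.prod X)} (hΓ : C.Deg i Γ)
    (hc : H.cl (C.comp Γ (C.mulCorr D)) = H.cl (C.comp (C.mulCorr D') Γ)) :
    ∃! Γ' : C.A (Y.prod X), C.Deg i Γ' ∧ H.cl Γ' = H.cl Γ ∧ LCommutes C D' D Γ' := by
  obtain ⟨f, h₀, B⟩ := exists_bData hD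
  obtain ⟨τ₀, hτ₀, h1, h2⟩ := B.exists_sign
  obtain ⟨τ', hτ', σ', hσ', k1', k2', k3', k4'⟩ := (nilSys (H := H) hnil).exists_tau B.em hτ₀ h1 h2
    (cor_surj hs)
  obtain ⟨τ, rfl⟩ : ∃ τ : C.A (X.prod X), τ = τ' := ⟨τ', rfl⟩
  obtain ⟨σ, rfl⟩ : ∃ σ : C.A (X.prod X), σ = σ' := ⟨σ', rfl⟩
  have k1 : C.comp τ σ = dg C X := k1'
  have k2 : C.comp σ τ = dg C X := k2'
  have k3 : C.comp (C.mulCorr D) τ = -C.comp τ (C.mulCorr D) := k3'
  have k4 : C.comp σ (C.mulCorr D) = -C.comp (C.mulCorr D) σ := k4'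
  have hdeg : ∀ {j : ℤ} {y : C.A (Y.prod X)} {ρ : C.A (X.prod X)}, C.Deg j y →
      C.Deg (X.dim + 0) ρ → C.Deg j (C.comp y ρ) := by
    intro j y ρ hy hρ
    have hy' : C.Deg ((Y.dim : ℤ) + (j - Y.dim)) y := by
      rwa [show (Y.dim : ℤ) + (j - Y.dim) = j by ring]
    have := comp_mem C hy' hρ
    rwa [show (Y.dim : ℤ) + (j - Y.dim + 0) = j by ring] at this
  have hcl : ∀ {y : C.A (Y.prod X)} {ρ : C.A (X.prod X)}, H.cl y = 0 →
      H.cl (C.comp y ρ) = 0 := by
    intro y ρ hy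
    rw [cl_comp H, hy]
    exact zero_comp H.toTheoryData _
  have hneg : ∀ {a b c : 𝒱.Obj} (x : C.A (a.prod b)) (y : C.A (b.prod c)),
      C.comp x (-y) = -C.comp x y := fun x y => map_neg (compL C x) y
  obtain ⟨y, hy⟩ : ∃ y, y = C.comp (C.mulCorr D') Γ - C.comp Γ (C.mulCorr D) := ⟨_, rfl⟩
  have hy0 : H.cl y = 0 := by rw [hy, map_sub, hc, sub_self]
  have hy1 : C.Deg ((i : ℤ) + 1) y := by
    rw [hy]
    refine Submodule.sub_mem _ ?_ ?_
    · rw [mulCorr_comp]
      have := C.mul_mem (C.pull_mem (fst Y X) hD') hΓ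
      rwa [add_comm] at this
    · rw [comp_mulCorr]
      have := C.mul_mem (C.pull_mem (snd Y X) hD.1) hΓ
      rwa [add_comm] at this
  obtain ⟨x₀, ⟨hx1, hx2⟩, hx3⟩ := hYX.1 i hi (C.comp y τ) ⟨hdeg hy1 hτ', hcl hy0⟩
  rw [← plus_eq] at hx3
  -- existence
  obtain ⟨Γ₁, hΓ1, hΓ2, hΓ3⟩ : ∃ Γ₁ : C.A (Y.prod X), C.Deg i Γ₁ ∧ H.cl Γ₁ = H.cl Γ ∧
      C.comp Γ₁ (C.mulCorr D) = C.comp (C.mulCorr D') Γ₁ := by
    refine ⟨Γ - C.comp x₀ σ, Submodule.sub_mem _ hΓ (hdeg hx1 hσ'), ?_, ?_⟩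
    · rw [map_sub, hcl hx2, sub_zero]
    · have e1 : C.comp (C.comp x₀ σ) (C.mulCorr D) = -C.comp (C.comp x₀ (C.mulCorr D)) σ := by
        rw [comp_assoc, k4, hneg, comp_assoc]
      have e2 : C.comp (C.mulCorr D') (C.comp x₀ σ) = C.comp (C.comp (C.mulCorr D') x₀) σ := by
        rw [comp_assoc]
      have e3 : C.comp (C.comp x₀ (C.mulCorr D)) σ + C.comp (C.comp (C.mulCorr D') x₀) σ = y := by
        rw [← add_comp, hx3, comp_assoc, k1, comp_dg]
      rw [sub_comp, comp_sub, e1, e2, ← sub_eq_zero]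
      calc C.comp Γ (C.mulCorr D) - -C.comp (C.comp x₀ (C.mulCorr D)) σ -
            (C.comp (C.mulCorr D') Γ - C.comp (C.comp (C.mulCorr D') x₀) σ)
          = (C.comp (C.comp x₀ (C.mulCorr D)) σ + C.comp (C.comp (C.mulCorr D') x₀) σ) -
            (C.comp (C.mulCorr D') Γ - C.comp Γ (C.mulCorr D)) := by abel
        _ = 0 := by rw [e3, hy, sub_self]
  refine ⟨Γ₁, ⟨hΓ1, hΓ2, hΓ3⟩, ?_⟩
  -- uniqueness
  rintro Γ' ⟨hΓ', hcl', hcomm'⟩
  obtain ⟨z, hz⟩ : ∃ z, z = Γ' - Γ₁ := ⟨_, rfl⟩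
  have hz1 : C.Deg i z := hz ▸ Submodule.sub_mem _ hΓ' hΓ1
  have hz2 : H.cl z = 0 := by rw [hz, map_sub, hcl', hΓ2, sub_self]
  have hz3 : C.comp z (C.mulCorr D) = C.comp (C.mulCorr D') z := by
    have h9 : C.comp Γ' (C.mulCorr D) = C.comp (C.mulCorr D') Γ' := hcomm'
    rw [hz, sub_comp, comp_sub, h9, hΓ3]
  have hz4 : C.comp z τ = 0 := by
    refine hYX.2 i hi _ ⟨hdeg hz1 hτ', hcl hz2⟩ ?_
    rw [← plus_eq, comp_assoc, ← comp_assoc C (C.mulCorr D') z τ, ← hz3, comp_assoc, k3, hneg,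
      add_neg_cancel]
  have hz5 : z = 0 := by
    calc z = C.comp (C.comp z τ) σ := by rw [comp_assoc, k1, comp_dg]
      _ = 0 := by rw [hz4, zero_comp]
  exact sub_eq_zero.1 (hz ▸ hz5)

end Pool.Agent.HS37.BL
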