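import Pool.Agent.HS37.BL.BMain

/-!
# The standard conjecture `B`, nilpotence and two-step filtrations
-/

open CategoryTheory AlgebraicGeometry

set_option autoImplicit false

universe u v w

namespace Pool.Agent.HS37.BL

open Pool.Agent.H914 Pool.Agent.H914.VarClass Pool.Agent.H914.VarClass.Obj Pool.Agent.W492.BB
  Pool.Agent.W550.Corr Pool.Agent.TH133 Pool.Agent.Y107

set_option linter.unusedSectionVars false

variable {k : Type u} [Field k] {𝒱 : VarClass k} {C : TheoryData.{u, v, 0} 𝒱 ℚ}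
  [hC : IsChowProj C] {K : Type w} [Field K] {H : WeilTheoryData.{u, v, w} C K}
  [hH : IsWeilProj H] {X Y : 𝒱.Obj}

include hC hH

lemma actH_bx {h : Cor C X} {h' : Cor C Y} (hh : ∀ (m : ℤ) (a : H.A X), a ∈ H.gr X m →
    actH C X H h a = ((m : K) - X.dim) • a) (hh' : ∀ (m : ℤ) (a : H.A Y), a ∈ H.gr Y m →
    actH C Y H h' a = ((m : K) - Y.dim) • a) (m : ℤ) (c : H.A (X.prod Y))
    (hc : c ∈ H.gr (X.prod Y) m) :
    actH C (X.prod Y) H (bx h h') c = ((m : K) - (X.prod Y).dim) • c := by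
  have h1 := H.kunneth X Y m hc
  clear hc
  induction h1 using Submodule.span_induction with
  | mem x hx =>
    obtain ⟨l, a, b, ha, hb, rfl⟩ := hx
    have e0 : H.pull (fst X Y) a * H.pull (snd X Y) b = H.ext a b := rfl
    have e1 : actH C (X.prod Y) H (tt h 1) (H.ext a b) = ((l : K) - X.dim) • H.ext a b := by
      have k1 : actH C (X.prod Y) H (tt h 1) (H.ext a b) =
        H.ext (actH C X H h a) (H.act (H.cl (dg C Y)) b) := actH_tens_ext H _ _ a b
      rw [k1, hh l a ha, actH_dg, ← e0, TheoryData.ext, map_smul, smul_mul_assoc]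
    have e2 : actH C (X.prod Y) H (tt 1 h') (H.ext a b) =
        (((m - l : ℤ) : K) - Y.dim) • H.ext a b := by
      have k1 : actH C (X.prod Y) H (tt 1 h') (H.ext a b) =
        H.ext (H.act (H.cl (dg C X)) a) (actH C Y H h' b) := actH_tens_ext H _ _ a b
      rw [k1, hh' _ b hb, actH_dg, ← e0, TheoryData.ext, map_smul, mul_smul_comm]
    rw [e0, bx, map_add, LinearMap.add_apply, e1, e2, ← add_smul, dim_prod]
    congr 1
    push_cast
    ring
  | zero => rw [map_zero, smul_zero]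
  | add x y _ _ h1 h2 => rw [map_add, h1, h2, smul_add]
  | smul c x _ h1 => rw [map_smul, h1, smul_comm]

/-- `B` for products. -/
theorem lefschetzB_prod {D : C.A X} {D' : C.A Y} (hD : LefschetzB H D)
    (hD' : LefschetzB H D') : LefschetzB H (C.ext D 1 + C.ext 1 D') := by
  obtain ⟨f, h, B⟩ := exists_bData hD
  obtain ⟨f', h', B'⟩ := exists_bData hD'
  have h0 : bx f f' ∈ crg C (X.prod Y) (-1) := bx_mem B.fm B'.fm
  refine ⟨deg_prod hD.1 hD'.1, bx f f', h0, ?_⟩
  intro m a ha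
  have e1 : corD (X.prod Y) (C.ext D 1 + C.ext 1 D') * bx f f' -
      bx f f' * corD (X.prod Y) (C.ext D 1 + C.ext 1 D') = bx h h' := by
    rw [corD_prod, bx_comm, B.ef, B'.ef]
  have e2 := congrArg (fun x => actH C (X.prod Y) H x a) e1
  simp only [map_sub, map_mul, LinearMap.sub_apply, Module.End.mul_apply, actH_corD] at e2
  rw [actH_bx B.act B'.act m a ha] at e2
  exact e2

/-- If correspondences act through the cohomology, homologically trivial ones are nilpotent. -/
lemma nil_of_acts (hA : ActsByCohomology H (X.prod X) (X.prod X)) : HomNilpotent H X := by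
  rintro γ ⟨hγ, hγ0⟩
  refine ⟨2, ?_⟩
  have h0 : H.cl (tens C (dg C X) γ) = 0 := by
    rw [cl_tens, hγ0, tens, map_zero, mul_zero]
  have h1 : C.act (tens C (dg C X) γ) γ = 0 := by
    refine hA _ X.dim _ (tens_mem C (dg_mem C X) hγ) (fun a _ => ?_) γ ⟨hγ, hγ0⟩
    rw [h0, TheoryData.act_zero]
  rw [act_tens C (ch_comm C), tp_dg, dg_comp] at h1
  change C.comp (C.comp (dg C X) γ) γ = 0
  rw [dg_comp]
  exact h1

/-- If correspondences act through the cohomology, hard Lefschetz for homologically trivial cycles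
holds for all divisor classes satisfying `B`. -/
lemma hardLefschetz_of_acts' (hA : ActsByCohomology H X X) {D : C.A X} (hD : LefschetzB H D) :
    HardLefschetzHom H D := by
  obtain ⟨f, h, B⟩ := exists_bData hD
  have hpow : ∀ (r : ℕ) (x : C.A X), actC C X (corD X D ^ r) x = D ^ r * x := by
    intro r x
    rw [map_pow, actC_corD_pow]
  intro i hi
  rcases Nat.eq_zero_or_pos i with hi0 | hi0
  · subst hi0
    refine ⟨fun x hx _ => eq_zero_of_deg_zero (H := H) hx.1 hx.2, fun y hy => ?_⟩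
    have hy0 : y = 0 := hC.gr_top X _ y hy.1 (by push_cast; omega)
    refine ⟨0, ⟨Submodule.zero_mem _, map_zero _⟩, ?_⟩
    rw [hy0]
    exact mul_zero _
  obtain ⟨r, hr⟩ : ∃ r, r = X.dim + 1 - 2 * i := ⟨_, rfl⟩
  rw [← hr]
  obtain ⟨g, hg, g1, g2⟩ := B.exists_inverse r (by omega)
  have m1 : g * corD X D ^ r - 1 ∈ crg C X 0 := by
    refine sub_mem ?_ crg_one
    have := crg_mul hg (B.epm r)
    rwa [neg_add_cancel] at this
  have m2 : corD X D ^ r * g - 1 ∈ crg C X 0 := by
    refine sub_mem ?_ crg_one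
    have := crg_mul (B.epm r) hg
    rwa [add_neg_cancel] at this
  constructor
  · intro x hx h0
    have k1 : actC C X (g * corD X D ^ r - 1) x = 0 := by
      refine hA X.dim i (g * corD X D ^ r - 1 : Cor C X) (crg_zero_iff.1 m1) (fun a ha => ?_) x hx
      have ha' : a ∈ H.gr X ((X.dim : ℤ) - r) := by
        rwa [show (X.dim : ℤ) - r = 2 * i - 1 by omega]
      change actH C X H (g * corD X D ^ r - 1) a = 0
      rw [map_sub, map_one, LinearMap.sub_apply, g1 a ha', Module.End.one_apply, sub_self]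
    have h0' : D ^ r * x = 0 := h0
    rw [map_sub, map_one, map_mul, LinearMap.sub_apply, Module.End.mul_apply, hpow, h0', map_zero,
      zero_sub, Module.End.one_apply, neg_eq_zero] at k1
    exact k1
  · intro y hy
    obtain ⟨j, hj⟩ : ∃ j : ℕ, (j : ℤ) = (X.dim : ℤ) + 1 - i := ⟨X.dim + 1 - i, by omega⟩
    rw [← hj] at hy
    have k1 : actC C X (corD X D ^ r * g - 1) y = 0 := by
      refine hA X.dim j (corD X D ^ r * g - 1 : Cor C X) (crg_zero_iff.1 m2) (fun a ha => ?_) y hy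
      have ha' : a ∈ H.gr X ((X.dim : ℤ) + r) := by
        rwa [show (X.dim : ℤ) + r = 2 * j - 1 by omega]
      change actH C X H (corD X D ^ r * g - 1) a = 0
      rw [map_sub, map_one, LinearMap.sub_apply, g2 a ha', Module.End.one_apply, sub_self]
    rw [map_sub, map_one, map_mul, LinearMap.sub_apply, Module.End.mul_apply, hpow,
      Module.End.one_apply, sub_eq_zero] at k1
    refine ⟨actC C X g y, ⟨?_, act_homT (H := H) hy.2⟩, k1⟩
    have hg' : (g : C.A (X.prod X)) ∈ C.gr (X.prod X) (X.dim + -(r : ℤ)) := hg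
    have := act_mem' C hg' hy.1
    rwa [show (j : ℤ) + -(r : ℤ) = i by omega] at this

/-- If there is a two-step filtration, homologically trivial correspondences are nilpotent. -/
lemma nil_of_twoStep (hF : TwoStepBB H) (X : 𝒱.Obj) : HomNilpotent H X := by
  obtain ⟨F, hBB, h2⟩ := hF
  rintro γ ⟨hγ, hγ0⟩
  refine ⟨2, ?_⟩
  have h1 : F.Mem X.dim 1 γ := (hBB.bounded.one _ _ γ).2 ⟨hγ, hγ0⟩
  have h3 := hBB.multiplicative.mul (hBB.multiplicative.pull (t23 X X X) h1)
    (hBB.multiplicative.pull (fst (X.prod X) X) h1)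
  have h4 : C.pull (t23 X X X) γ * C.pull (fst (X.prod X) X) γ = 0 := h2 _ _ _ h3
  change C.comp (C.comp (dg C X) γ) γ = 0
  rw [dg_comp, TheoryData.comp, h4, map_zero]

lemma ck_of_nil {D : C.A X} (hD : LefschetzB H D) (hnil : HomNilpotent H X) :
    ∃ π, IsCK H X π := by
  obtain ⟨f, h, B⟩ := exists_bData hD
  obtain ⟨P, hP, -⟩ := exists_ck (H := H) hnil (cor0 C X) le_rfl (crg_zero_iff.1 B.hm) B.act
  exact ⟨P, hP⟩

omit hC hH in
lemma middle_of_hard {Z : 𝒱.Obj} {E : C.A Z} (h : HardLefschetzHom H E) :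
    MiddleBijective H E := by
  constructor
  · intro i hi y hy
    obtain ⟨x, hx, h1⟩ := (h i (by omega)).2 y (by
      rwa [show (Z.dim : ℤ) + 1 - i = (i : ℤ) + 1 by omega])
    refine ⟨x, hx, ?_⟩
    rw [show Z.dim + 1 - 2 * i = 1 by omega, pow_one] at h1
    exact h1
  · intro i hi x hx h0
    refine (h i (by omega)).1 x hx ?_
    rw [show Z.dim + 1 - 2 * i = 1 by omega, pow_one]
    exact h0

/-- **The square.** -/
theorem square_of_B {D : C.A X} (hD : LefschetzB H D) (hnil : HomNilpotent H X)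
    (h : HardLefschetzHom H (C.ext D 1 + C.ext 1 D)) :
    IsLefschetzClass H D ∧ HardLefschetzHom H D ∧ ActsByCohomology H X X ∧ ProductsZero H X ∧
      CompositionsZero H X := by
  have h1 := isLefschetzClass_of_middle hD hnil (middle_of_hard h).1
  obtain ⟨h2, -, -, h3⟩ := pair_main h1 h1 h
  exact ⟨h1, h2, h3, productsZero_of_acts h3, square_main h1 h⟩

/-- **Classes of varieties.** -/
theorem class_of_B (hB : ∀ X : 𝒱.Obj, ∃ D : C.A X, LefschetzB H D) :
    (((∀ X : 𝒱.Obj, HomNilpotent H X) ∧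
      ∀ (X : 𝒱.Obj) (D : C.A X), LefschetzB H D → HardLefschetzHom H D) ↔ TwoStepBB H) ∧
    (TwoStepBB H ↔ ∀ X Y : 𝒱.Obj, ActsByCohomology H X Y) ∧
    (TwoStepBB H → ∀ (X : 𝒱.Obj) (D : C.A X), LefschetzB H D → IsLefschetzClass H D) := by
  have k1 : TwoStepBB H → ∀ X Y : 𝒱.Obj, ActsByCohomology H X Y := by
    intro hF
    refine acts_of_twoStep (fun X => ?_) hF
    obtain ⟨D, hD⟩ := hB X
    exact ck_of_nil hD (nil_of_twoStep hF X)
  have k2 : (∀ X Y : 𝒱.Obj, ActsByCohomology H X Y) → ((∀ X : 𝒱.Obj, HomNilpotent H X) ∧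
      ∀ (X : 𝒱.Obj) (D : C.A X), LefschetzB H D → HardLefschetzHom H D) := fun hA =>
    ⟨fun X => nil_of_acts (hA _ _), fun X D hD => hardLefschetz_of_acts' (hA X X) hD⟩
  have k3 : ((∀ X : 𝒱.Obj, HomNilpotent H X) ∧
      ∀ (X : 𝒱.Obj) (D : C.A X), LefschetzB H D → HardLefschetzHom H D) →
      ∀ (X : 𝒱.Obj) (D : C.A X), LefschetzB H D → IsLefschetzClass H D := fun h X D hD =>
    isLefschetzClass_of_middle hD (h.1 X) (middle_of_hard (h.2 _ _ (lefschetzB_prod hD hD))).1
  have k4 : ((∀ X : 𝒱.Obj, HomNilpotent H X) ∧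
      ∀ (X : 𝒱.Obj) (D : C.A X), LefschetzB H D → HardLefschetzHom H D) →
      ∀ X Y : 𝒱.Obj, ActsByCohomology H X Y := by
    intro h X Y
    obtain ⟨D, hD⟩ := hB X
    obtain ⟨D', hD'⟩ := hB Y
    exact (pair_main (k3 h X D hD) (k3 h Y D' hD') (h.2 _ _ (lefschetzB_prod hD hD'))).2.2.2
  exact ⟨⟨fun h => twoStep_of_acts (k4 h), fun h => k2 (k1 h)⟩,
    ⟨k1, fun h => twoStep_of_acts h⟩, fun h => k3 (k2 (k1 h))⟩

end Pool.Agent.HS37.BL
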