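import Pool.Agent.HS37.BL.ClassDefs

/-!
# The standard conjecture `B(X)` and the nilpotence conjecture: definitions
-/

open CategoryTheory AlgebraicGeometry

set_option autoImplicit false

universe u v w

namespace Pool.Agent.HS37.BL

open Pool.Agent.H914 Pool.Agent.W492.BB Pool.Agent.TH133 Pool.Agent.Y107

variable {k : Type u} [Field k] {𝒱 : VarClass k} {C : TheoryData.{u, v, 0} 𝒱 ℚ}
  {K : Type w} [Field K] (H : WeilTheoryData.{u, v, w} C K)

/-- `D ∈ CH^1(X)` satisfies the Lefschetz standard conjecture `B(X)`: the operator `Λ` is algebraic,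
that is, there is a correspondence `Λ ∈ CH^(d-1)(X × X)`, `d = dim X`, with `[D, Λ_*] = m - d` on
`H^m(X)` for all `m`. -/
def LefschetzB {X : 𝒱.Obj} (D : C.A X) : Prop :=
  C.Deg 1 D ∧ ∃ Λ : C.A (X.prod X), C.Deg ((X.dim : ℤ) - 1) Λ ∧
    ∀ (m : ℤ) (a : H.A X), H.Deg m a →
      H.mul (H.cl D) (H.act (H.cl Λ) a) - H.act (H.cl Λ) (H.mul (H.cl D) a) =
        ((m : K) - X.dim) • a

/-- The homologically trivial self-correspondences of degree zero of `X` are nilpotent. -/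
def HomNilpotent (X : 𝒱.Obj) : Prop :=
  ∀ γ : C.A (X.prod X), HomTriv H X.dim γ → ∃ n : ℕ, corPow C γ n = 0

/-- The surjectivity in the case `2 i = dim Z` of hard Lefschetz for homologically trivial cycles:
the multiplication by `E` maps `CH^i(Z)_hom` onto `CH^(i+1)(Z)_hom`. -/
def MiddleSurjective {Z : 𝒱.Obj} (E : C.A Z) : Prop :=
  ∀ i : ℕ, 2 * i = Z.dim → ∀ y : C.A Z, HomTriv H ((i : ℤ) + 1) y → ∃ x : C.A Z,
    HomTriv H i x ∧ C.mul E x = y

/-- The case `2 i = dim Z` of hard Lefschetz for homologically trivial cycles: the multiplication by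
`E` is a bijection of `CH^i(Z)_hom` onto `CH^(i+1)(Z)_hom`. -/
def MiddleBijective {Z : 𝒱.Obj} (E : C.A Z) : Prop :=
  MiddleSurjective H E ∧
    ∀ i : ℕ, 2 * i = Z.dim → ∀ x : C.A Z, HomTriv H i x → C.mul E x = 0 → x = 0

/-- `D · π_n = π_(n+2) · D` for all `n`, as operators. -/
def LHomogeneous (C : TheoryData.{u, v, 0} 𝒱 ℚ) {X : 𝒱.Obj} (D : C.A X)
    (π : ℕ → C.A (X.prod X)) : Prop :=
  ∀ n, C.comp (π n) (C.mulCorr D) = C.comp (C.mulCorr D) (π (n + 2))

/-- The correspondence `Γ` on `Y × X` commutes with `D'` on `Y` and `D` on `X`: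
`D · Γ_*(y) = Γ_*(D' · y)`, as correspondences. -/
def LCommutes (C : TheoryData.{u, v, 0} 𝒱 ℚ) {Y X : 𝒱.Obj} (D' : C.A Y) (D : C.A X)
    (Γ : C.A (Y.prod X)) : Prop :=
  C.comp Γ (C.mulCorr D) = C.comp (C.mulCorr D') Γ

end Pool.Agent.HS37.BL
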