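import Pool.Agent.HS37.BL.BMod

/-!
# From one case of hard Lefschetz for homologically trivial cycles to motivic hard Lefschetz
-/

open CategoryTheory AlgebraicGeometry

set_option autoImplicit false

universe u v w

namespace Pool.Agent.HS37.BL

open Pool.Agent.H914 Pool.Agent.H914.VarClass Pool.Agent.H914.VarClass.Obj Pool.Agent.W492.BB
  Pool.Agent.W550.Corr Pool.Agent.TH133 Pool.Agent.Y107

set_option linter.unusedSectionVars false

variable {k : Type u} [Field k] {𝒱 : VarClass k} {C : TheoryData.{u, v, 0} 𝒱 ℚ}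
  [hC : IsChowProj C] {K : Type w} [Field K] {H : WeilTheoryData.{u, v, w} C K}
  [hH : IsWeilProj H] {X Y : 𝒱.Obj}

include hC hH

lemma actH_corD (D : C.A X) (a : H.A X) : actH C X H (corD X D) a = H.cl D * a := by
  have h1 : H.cl (C.mulCorr D) = H.mulCorr (H.cl D) := H.cl_push _ _
  change H.act (H.cl (C.mulCorr D)) a = _
  rw [h1, H.act_mulCorr]

variable (H) in
/-- The consequences of `B(X)` modulo homological equivalence. -/
structure BData {X : 𝒱.Obj} (e f h : Cor C X) : Prop where
  em : e ∈ crg C X 1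
  fm : f ∈ crg C X (-1)
  hm : h ∈ crg C X 0
  ef : e * f - f * e = h
  act : ∀ (m : ℤ) (a : H.A X), a ∈ H.gr X m → actH C X H h a = ((m : K) - X.dim) • a

lemma exists_bData {D : C.A X} (hD : LefschetzB H D) : ∃ f h, BData H (corD X D) f h := by
  obtain ⟨hD1, Λ, hΛ, hact⟩ := hD
  have em := corD_mem hD1
  obtain ⟨f, rfl⟩ : ∃ f : Cor C X, f = Λ := ⟨Λ, rfl⟩
  have fm : f ∈ crg C X (-1) := hΛ
  refine ⟨f, corD X D * f - f * corD X D, em, fm, ?_, rfl, ?_⟩
  · refine sub_mem ?_ ?_
    · have := crg_mul em fm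
      rwa [show (1 : ℤ) + -1 = 0 by norm_num] at this
    · have := crg_mul fm em
      rwa [show (-1 : ℤ) + 1 = 0 by norm_num] at this
  · intro m a ha
    rw [map_sub, map_mul, map_mul, LinearMap.sub_apply, Module.End.mul_apply,
      Module.End.mul_apply, actH_corD, actH_corD]
    exact hact m a ha

namespace BData

variable {e f h : Cor C X} (B : BData H e f h)

include B

lemma he : actH C X H (h * e - e * h) = actH C X H (2 * e) := by
  apply ext_gr H
  intro m a ha
  have h1 := actH_crg (H := H) B.em ha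
  rw [map_sub, map_mul, map_mul, LinearMap.sub_apply, Module.End.mul_apply,
    Module.End.mul_apply, B.act m a ha, B.act _ _ h1, map_smul, ← sub_smul, two_mul e, map_add,
    LinearMap.add_apply, ← two_smul K]
  congr 1
  push_cast
  ring

lemma hf : actH C X H (h * f - f * h) = actH C X H (-(2 * f)) := by
  apply ext_gr H
  intro m a ha
  have h1 := actH_crg (H := H) B.fm ha
  rw [map_sub, map_mul, map_mul, LinearMap.sub_apply, Module.End.mul_apply,
    Module.End.mul_apply, B.act m a ha, B.act _ _ h1, map_smul, ← sub_smul, map_neg, two_mul f,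
    map_add, LinearMap.neg_apply, LinearMap.add_apply, ← two_smul K, ← neg_smul]
  congr 1
  push_cast
  ring

lemma hE : e ^ (X.dim + 1) = 0 := crg_top (crg_pow B.em (X.dim + 1)) (by push_cast; omega)

lemma hF : f ^ (X.dim + 1) = 0 := crg_bot (crg_pow B.fm (X.dim + 1)) (by push_cast; omega)

lemma epm (r : ℕ) : e ^ r ∈ crg C X r := by
  have := crg_pow B.em r
  rwa [mul_one] at this

/-- The inverses of the powers of `e` modulo homological equivalence. -/
lemma exists_inverse (r : ℕ) (hr : r ≤ X.dim) : ∃ g ∈ crg C X (-(r : ℤ)),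
    (∀ a ∈ H.gr X ((X.dim : ℤ) - r), actH C X H (g * e ^ r) a = a) ∧
    ∀ a ∈ H.gr X ((X.dim : ℤ) + r), actH C X H (e ^ r * g) a = a := by
  obtain ⟨g, h1, h2⟩ := sl2_mod (actH C X H) (by rw [B.ef]) B.he B.hf B.hE B.hF r
  have hw0 : wp h (X.dim + 1) (-(r : ℤ)) = wproj h (X.dim - r) := by
    unfold wproj
    congr 1
    omega
  have hw1 : wp h (X.dim + 1) (r : ℤ) = wproj h (X.dim + r) := by
    unfold wproj
    congr 1
    push_cast
    ring
  rw [hw0] at h1
  rw [hw1] at h2
  have hhc : h ∈ cor0 C X := crg_zero_iff.1 B.hm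
  have hw : ∀ n, wproj h n ∈ crg C X 0 := by
    intro n
    rw [crg_zero_iff]
    unfold wproj wp
    split_ifs
    · exact (Algebra.adjoin_le (Set.singleton_subset_iff.2 hhc) :
        Algebra.adjoin ℚ {h} ≤ cor0 C X) (Polynomial.aeval_mem_adjoin_singleton ℚ h)
    · exact (cor0 C X).zero_mem
  let φ : Cor C X →ₗ[ℚ] Cor C X := LinearMap.mulRight ℚ (e ^ r * wproj h (X.dim - r))
  let ψ : Cor C X →ₗ[ℚ] Cor C X := LinearMap.mulLeft ℚ (e ^ r)
  have hφ : ∀ i, ∀ x ∈ crg C X i, φ x ∈ crg C X (i + r) := by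
    intro i x hx
    have := crg_mul hx (crg_mul (B.epm r) (hw (X.dim - r)))
    rwa [add_zero] at this
  have hψ : ∀ i, ∀ x ∈ crg C X i, ψ x ∈ crg C X (i + r) := by
    intro i x hx
    have := crg_mul (B.epm r) hx
    rwa [add_comm] at this
  have k1 := cmpc_map φ r hφ (-r) g
  have k2 := cmpc_map ψ r hψ (-r) g
  rw [neg_add_cancel] at k1 k2
  have z1 : actH C X H (φ g - wproj h (X.dim - r)) = 0 := by
    rw [map_sub, sub_eq_zero, ← h1]
    congr 1
    change g * (e ^ r * wproj h (X.dim - r)) = _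
    rw [mul_assoc]
  have z2 : actH C X H (ψ g - wproj h (X.dim + r)) = 0 := by
    rw [map_sub, sub_eq_zero, ← h2]
    rfl
  have y1 := actH_cmpc z1 0
  have y2 := actH_cmpc z2 0
  rw [map_sub, k1, cmpc_of_mem (hw _), map_sub, sub_eq_zero] at y1
  rw [map_sub, k2, cmpc_of_mem (hw _), map_sub, sub_eq_zero] at y2
  refine ⟨cmpc C X (-(r : ℤ)) g, cmpc_mem _ _, fun a ha => ?_, fun a ha => ?_⟩
  · have k3 := LinearMap.congr_fun y1 a
    rw [wproj_act B.act _ _ a ha, if_pos (by omega)] at k3
    have k4 : φ (cmpc C X (-(r : ℤ)) g) =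
      cmpc C X (-(r : ℤ)) g * e ^ r * wproj h (X.dim - r) := by
      change cmpc C X (-(r : ℤ)) g * (e ^ r * wproj h (X.dim - r)) = _
      rw [mul_assoc]
    rw [k4, map_mul, Module.End.mul_apply, wproj_act B.act _ _ a ha, if_pos (by omega)] at k3
    exact k3
  · have k3 := LinearMap.congr_fun y2 a
    rw [wproj_act B.act _ _ a ha, if_pos (by push_cast; ring)] at k3
    exact k3

/-- The sign operator. -/
lemma exists_sign : ∃ τ ∈ crg C X 0, actH C X H (τ * τ) = 1 ∧
    actH C X H (τ * e + e * τ) = 0 := by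
  have hhc : h ∈ cor0 C X := crg_zero_iff.1 B.hm
  have hw : ∀ n, wproj h n ∈ cor0 C X := by
    intro n
    unfold wproj wp
    split_ifs
    · exact (Algebra.adjoin_le (Set.singleton_subset_iff.2 hhc) :
        Algebra.adjoin ℚ {h} ≤ cor0 C X) (Polynomial.aeval_mem_adjoin_singleton ℚ h)
    · exact (cor0 C X).zero_mem
  obtain ⟨τ, hτ⟩ : ∃ τ : Cor C X, τ = ∑ n ∈ Finset.range (2 * X.dim + 1),
    (-1) ^ (n / 2) * wproj h n := ⟨_, rfl⟩
  have hτm : τ ∈ cor0 C X := by
    rw [hτ]
    exact sum_mem fun n _ => mul_mem (pow_mem (neg_mem (one_mem _)) _) (hw n)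
  have hτa : ∀ (m : ℕ) (a : H.A X), a ∈ H.gr X m →
      actH C X H τ a = ((-1 : K) ^ (m / 2)) • a := by
    intro m a ha
    by_cases ha0 : a = 0
    · rw [ha0, map_zero, smul_zero]
    have hm1 : m ≤ 2 * X.dim := by
      by_contra hcon
      rw [gr_top H (by omega)] at ha
      exact ha0 ((Submodule.mem_bot _).1 ha)
    rw [hτ, map_sum, LinearMap.sum_apply, Finset.sum_eq_single m]
    · rw [map_mul, Module.End.mul_apply, wproj_act B.act m m a ha, if_pos rfl, map_pow, map_neg,
        map_one]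
      rcases neg_one_pow_eq_or K (m / 2) with h1 | h1 <;>
        rcases neg_one_pow_eq_or ℤ (m / 2) with h2 | h2
      all_goals
        have h3 : ((-1 : Module.End K (H.A X)) ^ (m / 2)) = (((-1 : ℤ) ^ (m / 2) : ℤ) :
          Module.End K (H.A X)) := by push_cast; rfl
        have h4 : ((-1 : K) ^ (m / 2)) = (((-1 : ℤ) ^ (m / 2) : ℤ) : K) := by push_cast; rfl
        rw [h3, h4, h2]
        simp
    · intro j _ hj
      rw [map_mul, Module.End.mul_apply, wproj_act B.act j m a ha, if_neg (by omega), map_zero]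
    · intro h1
      exact absurd (Finset.mem_range.2 (by omega)) h1
  refine ⟨τ, crg_zero_iff.2 hτm, ?_, ?_⟩
  · rw [← map_one (actH C X H)]
    apply actH_ext
    intro m a ha
    rw [map_mul, Module.End.mul_apply, hτa m a ha, map_smul, hτa m a ha, smul_smul,
      ← pow_add, ← two_mul, pow_mul, neg_one_sq, one_pow, one_smul, map_one, Module.End.one_apply]
  · rw [← map_zero (actH C X H)]
    apply actH_ext
    intro m a ha
    have h1 : actH C X H e a ∈ H.gr X ((m + 2 : ℕ) : ℤ) := by
      have := actH_crg (H := H) B.em ha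
      rwa [show (m : ℤ) + 2 * 1 = ((m + 2 : ℕ) : ℤ) by push_cast; ring] at this
    rw [map_add, map_mul, map_mul, LinearMap.add_apply, Module.End.mul_apply,
      Module.End.mul_apply, hτa m a ha, hτa _ _ h1, map_smul, ← add_smul, map_zero,
      LinearMap.zero_apply, show (m + 2) / 2 = m / 2 + 1 by omega, pow_succ]
    simp

end BData

/-- **Motivic hard Lefschetz from one surjectivity on the square.** -/
theorem isLefschetzClass_of_middle {D : C.A X} (hD : LefschetzB H D) (hnil : HomNilpotent H X)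
    (hs : MiddleSurjective H (C.ext D 1 + C.ext 1 D)) : IsLefschetzClass H D := by
  obtain ⟨f, h₀, B⟩ := exists_bData hD
  have S := nilSys (H := H) hnil
  obtain ⟨e, he⟩ : ∃ e, e = corD X D := ⟨_, rfl⟩
  rw [← he] at B
  have hsurj : ∀ y ∈ crg C X 1, actH C X H y = 0 →
      ∃ x ∈ crg C X 0, actH C X H x = 0 ∧ e * x + x * e = y := by
    intro y hy hy0
    obtain ⟨x, ⟨hx1, hx2⟩, hx3⟩ := hs X.dim (by rw [dim_prod]; ring) y ⟨hy, actH_zero_iff.1 hy0⟩
    have h9 : C.comp x (C.mulCorr D) + C.comp (C.mulCorr D) x =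
        C.mul (C.ext D 1 + C.ext 1 D) x := by
      change _ = (C.ext D 1 + C.ext 1 D) * x
      rw [comp_mulCorr, mulCorr_comp, ext_one_right, ext_one_left, add_mul, add_comm]
    refine ⟨x, crg_zero_iff.2 hx1, actH_zero_iff.2 hx2, ?_⟩
    rw [he]
    exact h9.trans hx3
  obtain ⟨τ, hτ, hτ1, hτ2⟩ := B.exists_sign
  obtain ⟨h, hhm, hh0, hhe⟩ := S.exists_h B.em B.hm hτ B.he hτ1 hτ2 hsurj
  have hact : ∀ (m : ℤ) (a : H.A X), a ∈ H.gr X m →
      actH C X H h a = ((m : K) - X.dim) • a := by
    intro m a ha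
    rw [hh0]
    exact B.act m a ha
  obtain ⟨P, hP, hPR, hPw⟩ := exists_ck (H := H) hnil (Algebra.adjoin ℚ {h})
    (Algebra.adjoin_le (Set.singleton_subset_iff.2 (crg_zero_iff.1 hhm)))
    (Algebra.subset_adjoin rfl) hact
  have hPa : ∀ (i : ℕ) (m : ℤ) (a : H.A X), a ∈ H.gr X m →
      actH C X H (P i) a = if m = i then a else 0 := by
    intro i m a ha
    rw [hPw, wproj_act hact i m a ha]
  have hom : ∀ n, e * P n = P (n + 2) * e := by
    refine S.homog (c := X.dim) hhm hhe hPR (N := 2 * X.dim + 1) (fun i hi => hP.out i (by omega))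
      (fun i j => hP.mul_eq i j) hP.sum_eq ?_
    intro i
    apply ext_gr H
    intro m a ha
    rw [map_mul, Module.End.mul_apply, hPa i m a ha]
    split_ifs with h1
    · rw [map_sub, LinearMap.sub_apply, hact m a ha, map_intCast, Module.End.intCast_apply,
        ← Int.cast_smul_eq_zsmul K, h1, ← sub_smul]
      push_cast
      rw [sub_self, zero_smul, LinearMap.zero_apply]
    · rw [map_zero, LinearMap.zero_apply]
  have hompow : ∀ r n, e ^ r * P n = P (n + 2 * r) * e ^ r := by
    intro r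
    induction r with
    | zero => intro n; simp
    | succ r ih =>
      intro n
      rw [pow_succ', mul_assoc, ih, ← mul_assoc, hom, mul_assoc,
        show n + 2 * r + 2 = n + 2 * (r + 1) by ring]
  have hP0 : ∀ n, P n ∈ crg C X 0 := fun n => crg_zero_iff.2 (hP.deg n)
  refine ⟨hD.1, P, hP, ?_, ?_⟩
  · intro n
    have := hom n
    rw [he] at this
    exact this
  · intro n hn
    obtain ⟨g₀, hg₀, h1, h2⟩ := B.exists_inverse (X.dim - n) (by omega)
    have hm : n + 2 * (X.dim - n) = 2 * X.dim - n := by omega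
    obtain ⟨g, hg, h3, h4⟩ := S.lift_iso (L := e ^ (X.dim - n)) (P := P n)
      (Q := P (2 * X.dim - n)) (g₀ := g₀) (r := ((X.dim - n : ℕ) : ℤ)) (B.epm _) (hP0 _) (hP0 _)
      (by rw [hP.mul_eq, if_pos rfl]) (by rw [hP.mul_eq, if_pos rfl])
      (by rw [hompow, hm]) hg₀ (by
        apply ext_gr H
        intro m a ha
        rw [map_mul, Module.End.mul_apply, hPa n m a ha]
        split_ifs with h5
        · exact h1 a (by rwa [show (X.dim : ℤ) - ((X.dim - n : ℕ) : ℤ) = m by omega])
        · exact map_zero _) (by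
        apply ext_gr H
        intro m a ha
        rw [map_mul, Module.End.mul_apply, hPa _ m a ha]
        split_ifs with h5
        · exact h2 a (by rwa [show (X.dim : ℤ) + ((X.dim - n : ℕ) : ℤ) = m by omega])
        · exact map_zero _)
    refine ⟨g, ?_, ?_, ?_⟩
    · rw [mem_crg, show (X.dim : ℤ) + -((X.dim - n : ℕ) : ℤ) = n by omega] at hg
      exact hg
    · have k1 := corPow_eq (corD X D) (X.dim - n)
      rw [he] at h3
      rw [show corPow C (C.mulCorr D) (X.dim - n) = (corD X D ^ (X.dim - n) : Cor C X) from k1]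
      exact h3
    · have k1 := corPow_eq (corD X D) (X.dim - n)
      rw [he] at h4
      rw [show corPow C (C.mulCorr D) (X.dim - n) = (corD X D ^ (X.dim - n) : Cor C X) from k1]
      exact h4

end Pool.Agent.HS37.BL
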