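import Pool.Agent.HS37.BL.BClass

/-!
# Reduction to the middle case
-/

open CategoryTheory AlgebraicGeometry

set_option autoImplicit false

universe u v w

namespace Pool.Agent.HS37.BL

open Pool.Agent.H914 Pool.Agent.H914.VarClass Pool.Agent.H914.VarClass.Obj Pool.Agent.W492.BB
  Pool.Agent.W550.Corr Pool.Agent.TH133 Pool.Agent.Y107

set_option linter.unusedSectionVars false

variable {k : Type u} [Field k] {𝒱 : VarClass k} {C : TheoryData.{u, v, 0} 𝒱 ℚ}
  [hC : IsChowProj C] {K : Type w} [Field K] {H : WeilTheoryData.{u, v, w} C K}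
  [hH : IsWeilProj H] {X Y : 𝒱.Obj}

include hC hH

/-- Zero-cycles of degree zero are homologically trivial. -/
lemma cl_of_hasDegree_zero {x : C.A X} (hx : x ∈ C.gr X X.dim) (h : HasDegree C x 0) :
    H.cl x = 0 := by
  obtain ⟨z, hz, hz1, -⟩ := exists_deg_one C X
  have h1 : H.tr X (H.cl x) = 0 := by
    have k1 : H.push (fst X X) (H.pull (snd X X) (H.cl z)) = 1 := by
      rw [← H.cl_pull, ← H.cl_push, hz1, map_one]
    have k2 : H.push (snd X X) (H.pull (fst X X) (H.cl x)) = 0 := by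
      rw [← H.cl_pull, ← H.cl_push, (h X).1, zero_smul, map_zero]
    calc H.tr X (H.cl x) = H.tr X (H.cl x * H.push (fst X X) (H.pull (snd X X) (H.cl z))) := by
          rw [k1, mul_one]
      _ = H.tr X (H.push (snd X X) (H.pull (fst X X) (H.cl x) * H.pull (snd X X) (H.cl z))) := by
          rw [← H.proj_left, H.tr_push, H.tr_push]
      _ = 0 := by rw [H.proj_right, k2, zero_mul, map_zero]
  apply H.nondeg
  have h2 : (H.tr X ∘ₗ LinearMap.mulLeft K (H.cl x)) = 0 := by
    apply ext_gr H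
    intro m b hb
    rw [LinearMap.comp_apply, LinearMap.mulLeft_apply, LinearMap.zero_apply]
    by_cases hm : m = 0
    · subst hm
      obtain ⟨c, rfl⟩ := hH.gr_zero X b hb
      rw [mul_smul_comm, mul_one, map_smul, h1, smul_zero]
    · exact tr_zero H (H.mul_mem (H.cl_mem hx) hb) (by omega)
  intro b
  exact LinearMap.congr_fun h2 b

lemma pow_mem_gr {D : C.A X} (hD : C.Deg 1 D) (n : ℕ) : D ^ n ∈ C.gr X n := by
  induction n with
  | zero => rw [pow_zero]; exact C.one_mem X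
  | succ n ih =>
    have := C.mul_mem ih hD
    rw [pow_succ]
    push_cast
    exact this

lemma pow_eq_zero_gr {D : C.A X} (hD : C.Deg 1 D) {n : ℕ} (hn : X.dim < n) : D ^ n = 0 :=
  hC.gr_top X n _ (pow_mem_gr (H := H) hD n) (by exact_mod_cast hn)

/-- The degree of a class satisfying `B` is not zero. -/
lemma degree_ne_zero {D : C.A X} (hD : LefschetzB H D) :
    ∃ q : ℚ, q ≠ 0 ∧ HasDegree C (D ^ X.dim) q := by
  have hm : D ^ X.dim ∈ C.gr X X.dim := pow_mem_gr (H := H) hD.1 _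
  obtain ⟨q, hq⟩ := exists_hasDegree hm
  refine ⟨q, ?_, hq⟩
  rintro rfl
  have h0 : H.cl (D ^ X.dim) = 0 := cl_of_hasDegree_zero hm hq
  obtain ⟨f, h, B⟩ := exists_bData hD
  obtain ⟨g, -, g1, -⟩ := B.exists_inverse X.dim le_rfl
  have h1 : (1 : H.A X) ∈ H.gr X ((X.dim : ℤ) - X.dim) := by
    rw [sub_self]
    exact H.one_mem X
  have h2 : ∀ n : ℕ, actH C X H (corD X D ^ n) (1 : H.A X) = H.cl (D ^ n) := by
    intro n
    induction n with
    | zero =>
      rw [pow_zero, pow_zero, map_one H.cl, map_one (actH C X H)]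
      rfl
    | succ n ih => rw [pow_succ', map_mul, Module.End.mul_apply, ih, actH_corD, ← map_mul,
        ← pow_succ']
  have h3 := g1 1 h1
  rw [map_mul, Module.End.mul_apply, h2, h0, map_zero] at h3
  exact hH.one_ne_zero X h3.symm

omit hH in
lemma ext_mul_ext (a a' : C.A X) (b b' : C.A Y) :
    C.ext a b * C.ext a' b' = C.ext (a * a') (b * b') := by
  simp only [TheoryData.ext, map_mul]
  generalize C.pull (fst X Y) a = p
  generalize C.pull (fst X Y) a' = p'
  generalize C.pull (snd X Y) b = q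
  generalize C.pull (snd X Y) b' = q'
  rw [mul_assoc, ← mul_assoc q, ch_comm C q p', mul_assoc p', ← mul_assoc]

omit hH in
lemma push_ext_fst (a : C.A X) (b : C.A Y) :
    C.push (fst X Y) (C.ext a b) = a * C.push (fst X Y) (C.pull (snd X Y) b) :=
  C.proj_left (fst X Y) _ _

omit hH in
lemma push_low {b : C.A Y} {j : ℕ} (hb : b ∈ C.gr Y j) (hj : j < Y.dim) :
    C.push (fst X Y) (C.pull (snd X Y) b) = 0 := by
  have h2 := C.push_mem (fst X Y) (C.pull_mem (snd X Y) hb)
  rw [C.gr_neg X _ (by rw [dim_prod]; push_cast; omega)] at h2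
  exact (Submodule.mem_bot _).1 h2

lemma cl_ext_left {a : C.A X} (b : C.A Y) (ha : H.cl a = 0) : H.cl (C.ext a b) = 0 := by
  rw [TheoryData.ext, map_mul, H.cl_pull, ha, map_zero, zero_mul]

/-- **Injectivity from the middle case on `X × Y`.** -/
theorem inj_of_middle {D : C.A X} (hD : C.Deg 1 D) {D' : C.A Y} (hD' : C.Deg 1 D') {q : ℚ}
    (hq0 : q ≠ 0) (hq : HasDegree C (D' ^ Y.dim) q)
    (h : MiddleBijective H (C.ext D 1 + C.ext 1 D')) {i : ℕ} (hi : 2 * i + Y.dim = X.dim)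
    {x : C.A X} (hx : HomTriv H i x) (h0 : D ^ (Y.dim + 1) * x = 0) : x = 0 := by
  obtain ⟨r, hr⟩ : ∃ r, r = Y.dim := ⟨_, rfl⟩
  rw [← hr] at hi h0 hq
  let t : ℕ → C.A (X.prod Y) := fun a => C.ext (D ^ a * x) (D' ^ (r + 1 - a))
  obtain ⟨u, hu⟩ : ∃ u, u = ∑ a ∈ Finset.range (r + 1),
    (-1 : ℚ) ^ a • C.ext (D ^ a * x) (D' ^ (r - a)) := ⟨_, rfl⟩
  have hstep : ∀ a ∈ Finset.range (r + 1), (C.ext D 1 + C.ext 1 D') *
      ((-1 : ℚ) ^ a • C.ext (D ^ a * x) (D' ^ (r - a))) = (-1 : ℚ) ^ a • (t (a + 1) + t a) := by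
    intro a ha
    rw [Finset.mem_range] at ha
    rw [mul_smul_comm, add_mul, ext_mul_ext, ext_mul_ext, one_mul, one_mul, ← mul_assoc,
      ← pow_succ', ← pow_succ']
    have e1 : t (a + 1) = C.ext (D ^ (a + 1) * x) (D' ^ (r - a)) := by
      simp only [t]
      rw [show r + 1 - (a + 1) = r - a by omega]
    have e2 : t a = C.ext (D ^ a * x) (D' ^ (r - a + 1)) := by
      simp only [t]
      rw [show r + 1 - a = r - a + 1 by omega]
    rw [e1, e2]
  have htel : ∀ n, ∑ a ∈ Finset.range n, (-1 : ℚ) ^ a • (t (a + 1) + t a) =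
      t 0 - (-1 : ℚ) ^ n • t n := by
    intro n
    induction n with
    | zero => simp
    | succ n ih =>
      rw [Finset.sum_range_succ, ih, pow_succ, mul_neg_one, neg_smul, smul_add]
      abel
  have ht0 : t 0 = 0 := by
    simp only [t]
    rw [Nat.sub_zero, pow_eq_zero_gr (H := H) hD' (by omega : Y.dim < r + 1), TheoryData.ext,
      map_zero, mul_zero]
  have ht1 : t (r + 1) = 0 := by
    simp only [t]
    rw [h0, TheoryData.ext, map_zero, zero_mul]
  have hmul : C.mul (C.ext D 1 + C.ext 1 D') u = 0 := by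
    change (C.ext D 1 + C.ext 1 D') * u = 0
    rw [hu, Finset.mul_sum, Finset.sum_congr rfl hstep, htel, ht0, ht1, smul_zero, sub_zero]
  have hum : HomTriv H ((i + r : ℕ) : ℤ) u := by
    constructor
    · rw [hu]
      refine Submodule.sum_mem _ fun a ha => Submodule.smul_mem _ _ ?_
      rw [Finset.mem_range] at ha
      have := ext_mem' (C.mul_mem (pow_mem_gr (H := H) hD a) hx.1) (pow_mem_gr (H := H) hD' (r - a))
      rwa [show (a : ℤ) + i + ((r - a : ℕ) : ℤ) = ((i + r : ℕ) : ℤ) by omega] at this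
    · rw [hu, map_sum]
      refine Finset.sum_eq_zero fun a _ => ?_
      rw [Algebra.smul_def, map_mul, cl_ext_left _ (by rw [map_mul, hx.2, mul_zero]), mul_zero]
  have hu0 : u = 0 := h.2 (i + r) (by rw [dim_prod]; omega) u hum hmul
  have hpush := congrArg (C.push (fst X Y)) hu0
  rw [hu, map_sum, map_zero, Finset.sum_eq_single 0] at hpush
  · rw [pow_zero, one_smul, pow_zero, one_mul, Nat.sub_zero, push_ext_fst, (hq X).2,
      mul_smul_comm, mul_one, smul_eq_zero] at hpush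
    exact hpush.resolve_left hq0
  · intro a ha ha0
    rw [Finset.mem_range] at ha
    rw [map_smul, push_ext_fst, push_low (pow_mem_gr (H := H) hD' (r - a)) (by omega), mul_zero,
      smul_zero]
  · intro h1
    exact absurd (Finset.mem_range.2 (by omega)) h1

/-- **Surjectivity from the middle case on `X × Y`.** -/
theorem surj_of_middle {D : C.A X} (hD : C.Deg 1 D) {D' : C.A Y} (hD' : C.Deg 1 D') {q : ℚ}
    (hq0 : q ≠ 0) (hq : HasDegree C (D' ^ Y.dim) q)
    (h : MiddleBijective H (C.ext D 1 + C.ext 1 D')) {i : ℕ} (hi : 2 * i + Y.dim = X.dim)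
    {y : C.A X} (hy : HomTriv H ((X.dim : ℤ) + 1 - i) y) :
    ∃ x : C.A X, HomTriv H i x ∧ D ^ (Y.dim + 1) * x = y := by
  obtain ⟨r, hr⟩ : ∃ r, r = Y.dim := ⟨_, rfl⟩
  rw [← hr] at hi hq ⊢
  have hy' : HomTriv H (((i + r : ℕ) : ℤ) + 1) (C.ext y (1 : C.A Y)) := by
    refine ⟨?_, cl_ext_left _ hy.2⟩
    have := ext_mem' hy.1 (C.one_mem Y)
    rwa [show (X.dim : ℤ) + 1 - i + 0 = ((i + r : ℕ) : ℤ) + 1 by omega] at this
  obtain ⟨u, ⟨hu1, hu2⟩, hu3⟩ := h.1 (i + r) (by rw [dim_prod]; omega) _ hy'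
  have hu3' : (C.ext D 1 + C.ext 1 D') * u = C.ext y 1 := hu3
  rw [ext_one_right, ext_one_left, ext_one_right] at hu3'
  let w : ℕ → C.A X := fun b => C.push (fst X Y) (u * C.pull (snd X Y) (D' ^ b))
  have hw : ∀ b, D * w b + w (b + 1) = y * C.push (fst X Y) (C.pull (snd X Y) (D' ^ b)) := by
    intro b
    simp only [w]
    have e1 := C.proj_left (fst X Y) (u * C.pull (snd X Y) (D' ^ b)) D
    have e2 := C.proj_left (fst X Y) (C.pull (snd X Y) (D' ^ b)) y
    change C.push (fst X Y) (C.pull (fst X Y) D * (u * C.pull (snd X Y) (D' ^ b))) = D * _ at e1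
    change C.push (fst X Y) (C.pull (fst X Y) y * C.pull (snd X Y) (D' ^ b)) = y * _ at e2
    rw [← e1, ← e2, ← hu3', ← map_add]
    congr 1
    rw [pow_succ', map_mul, add_mul, add_mul]
    congr 1
    · rw [mul_assoc]
    · rw [← mul_assoc, ch_comm C u (C.pull (snd X Y) D'), mul_assoc]
  have hwr : w (r + 1) = 0 := by
    simp only [w]
    rw [pow_eq_zero_gr (H := H) hD' (by omega : Y.dim < r + 1), map_zero, mul_zero, map_zero]
  have hwlow : ∀ b, b < r → w (b + 1) = -(D * w b) := by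
    intro b hb
    have h1 := hw b
    rw [push_low (pow_mem_gr (H := H) hD' b) (by omega), mul_zero] at h1
    exact eq_neg_of_add_eq_zero_right h1
  have hwpow : ∀ b, b ≤ r → w b = (-1 : ℚ) ^ b • (D ^ b * w 0) := by
    intro b
    induction b with
    | zero => intro _; rw [pow_zero, one_smul, pow_zero, one_mul]
    | succ b ih =>
      intro hb
      rw [hwlow b (by omega), ih (by omega), mul_smul_comm, ← mul_assoc, ← pow_succ',
        pow_succ (-1 : ℚ) b, mul_neg_one, neg_smul]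
  have hlast : D ^ (r + 1) * ((-1 : ℚ) ^ r • w 0) = q • y := by
    have h1 := hw r
    rw [hwr, add_zero, hwpow r le_rfl, (hq X).2, mul_smul_comm, mul_smul_comm, mul_one,
      ← mul_assoc, ← pow_succ'] at h1
    rw [mul_smul_comm]
    exact h1
  have hw0 : HomTriv H i (w 0) := by
    simp only [w]
    rw [pow_zero, map_one, mul_one]
    constructor
    · have := C.push_mem (fst X Y) hu1
      rwa [show ((i + r : ℕ) : ℤ) + 1 * ((X.dim : ℤ) - ((X.prod Y).dim : ℤ)) = i by
        rw [dim_prod]; push_cast; omega] at this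
    · rw [H.cl_push, hu2, map_zero]
  refine ⟨q⁻¹ • ((-1 : ℚ) ^ r • w 0), ⟨Submodule.smul_mem _ _ (Submodule.smul_mem _ _ hw0.1), ?_⟩,
    ?_⟩
  · rw [Algebra.smul_def, Algebra.smul_def, map_mul, map_mul, hw0.2, mul_zero, mul_zero]
  · rw [mul_smul_comm, hlast, smul_smul, inv_mul_cancel₀ hq0, one_smul]

/-- Varieties of every positive dimension, from a curve. -/
lemma exists_dim (h : ∃ T : 𝒱.Obj, T.dim = 1) (r : ℕ) : ∃ Y : 𝒱.Obj, Y.dim = r + 1 := by
  obtain ⟨T, hT⟩ := h
  induction r with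
  | zero => exact ⟨T, hT⟩
  | succ r ih =>
    obtain ⟨Y, hY⟩ := ih
    exact ⟨T.prod Y, by rw [dim_prod, hT, hY]; ring⟩

/-- **Reduction of hard Lefschetz for homologically trivial cycles to the middle case.** -/
theorem hard_of_middle (hB : ∀ X : 𝒱.Obj, ∃ D : C.A X, LefschetzB H D)
    (hT : ∃ T : 𝒱.Obj, T.dim = 1)
    (h : ∀ (Z : 𝒱.Obj) (E : C.A Z), LefschetzB H E → MiddleBijective H E) {X : 𝒱.Obj}
    {D : C.A X} (hD : LefschetzB H D) : HardLefschetzHom H D := by
  intro i hi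
  rcases Nat.lt_or_ge X.dim (2 * i) with h1 | h1
  · -- `2 i = dim X + 1`
    have h2 : X.dim + 1 - 2 * i = 0 := by omega
    rw [h2, pow_zero]
    refine ⟨fun x _ h0 => ?_, fun y hy => ⟨y, ?_, one_mul y⟩⟩
    · have h0' : (1 : C.A X) * x = 0 := h0
      rwa [one_mul] at h0'
    · rwa [show (X.dim : ℤ) + 1 - i = i by omega] at hy
  rcases Nat.lt_or_ge (2 * i) X.dim with h2 | h2
  · obtain ⟨Y, hY⟩ := exists_dim (C := C) (H := H) hT (X.dim - 2 * i - 1)
    obtain ⟨D', hD'⟩ := hB Y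
    obtain ⟨q, hq0, hq⟩ := degree_ne_zero hD'
    have hm := h _ _ (lefschetzB_prod hD hD')
    have e1 : X.dim + 1 - 2 * i = Y.dim + 1 := by omega
    rw [e1]
    exact ⟨fun x hx h0 => inj_of_middle hD.1 hD'.1 hq0 hq hm (by omega) hx h0,
      fun y hy => surj_of_middle hD.1 hD'.1 hq0 hq hm (by omega) hy⟩
  · have h3 : 2 * i = X.dim := by omega
    have hm := h X D hD
    rw [show X.dim + 1 - 2 * i = 1 by omega, pow_one]
    refine ⟨fun x hx h0 => hm.2 i h3 x hx h0, fun y hy => hm.1 i h3 y ?_⟩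
    rwa [show (X.dim : ℤ) + 1 - i = (i : ℤ) + 1 by omega] at hy

end Pool.Agent.HS37.BL
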