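import Pool.Agent.HS37.BL.Lin

/-!
# Lefschetz systems with a pairing

Two Lefschetz systems `p`, `p'` with the same operator `e`, and a pairing between `I^i` and
`I^(n+1-i)` for which `e` is self-adjoint and `p_j` is adjoint to `p'_(2n-j)`. If the pairing satisfies
the Hodge index inequality, its kernel is the second step of the filtration.
-/

set_option autoImplicit false

namespace Pool.Agent.HS37.BL

/-- See the header of the file. -/
structure LefPair {V : Type*} [AddCommGroup V] [Module ℚ V] (n : ℕ) (gr : ℤ → Submodule ℚ V)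
    (I : Submodule ℚ V) (e : Module.End ℚ V) (p p' : ℕ → Module.End ℚ V) (h : V → V → ℝ) :
    Prop where
  add_left : ∀ i : ℤ, ∀ x ∈ gr i, ∀ x' ∈ gr i, ∀ y ∈ gr ((n : ℤ) + 1 - i), x ∈ I → x' ∈ I → y ∈ I →
    h (x + x') y = h x y + h x' y
  add_right : ∀ i : ℤ, ∀ x ∈ gr i, ∀ y ∈ gr ((n : ℤ) + 1 - i), ∀ y' ∈ gr ((n : ℤ) + 1 - i),
    x ∈ I → y ∈ I → y' ∈ I → h x (y + y') = h x y + h x y'
  e_adj : ∀ i : ℤ, ∀ x ∈ gr i, ∀ y ∈ gr ((n : ℤ) - i), x ∈ I → y ∈ I → h (e x) y = h x (e y)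
  p_adj : ∀ i : ℤ, ∀ j ≤ 2 * n, ∀ x ∈ gr i, ∀ y ∈ gr ((n : ℤ) + 1 - i), x ∈ I → y ∈ I →
    h (p j x) y = h x (p' (2 * n - j) y)

/-- The Hodge index inequality. -/
def Index {V : Type*} [AddCommGroup V] [Module ℚ V] (n : ℕ) (gr : ℤ → Submodule ℚ V)
    (I : Submodule ℚ V) (e : Module.End ℚ V) (h : V → V → ℝ) : Prop :=
  ∀ i : ℕ, 2 * i ≤ n + 1 → ∀ x ∈ gr i, x ∈ I → x ≠ 0 → (e ^ (n + 2 - 2 * i)) x = 0 →
    0 < (-1) ^ i * h x ((e ^ (n + 1 - 2 * i)) x)

namespace LefPair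

variable {V : Type*} [AddCommGroup V] [Module ℚ V] {n : ℕ} {gr : ℤ → Submodule ℚ V}
    {I : Submodule ℚ V} {e : Module.End ℚ V} {p p' : ℕ → Module.End ℚ V} {h : V → V → ℝ}
    (P : LefPair n gr I e p p' h)

include P

lemma zero_right {i : ℤ} {x : V} (hx : x ∈ gr i) (hxI : x ∈ I) : h x 0 = 0 := by
  have := P.add_right i x hx 0 (zero_mem _) 0 (zero_mem _) hxI (zero_mem _) (zero_mem _)
  rw [add_zero] at this
  linarith

lemma zero_left {i : ℤ} {y : V} (hy : y ∈ gr ((n : ℤ) + 1 - i)) (hyI : y ∈ I) : h 0 y = 0 := by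
  have := P.add_left i 0 (zero_mem _) 0 (zero_mem _) y hy (zero_mem _) (zero_mem _) hyI
  rw [add_zero] at this
  linarith

lemma sub_left {i : ℤ} {x x' y : V} (hx : x ∈ gr i) (hx' : x' ∈ gr i)
    (hy : y ∈ gr ((n : ℤ) + 1 - i)) (hxI : x ∈ I) (hx'I : x' ∈ I) (hyI : y ∈ I) :
    h (x - x') y = h x y - h x' y := by
  have := P.add_left i (x - x') (sub_mem hx hx') x' hx' y hy (sub_mem hxI hx'I) hx'I hyI
  rw [sub_add_cancel] at this
  linarith

lemma e_pow_adj (S : LefSys n gr I e p) (k : ℕ) : ∀ (i : ℤ) (x y : V), x ∈ gr i →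
    y ∈ gr ((n : ℤ) + 1 - i - k) → x ∈ I → y ∈ I → h ((e ^ k) x) y = h x ((e ^ k) y) := by
  induction k with
  | zero => intro i x y _ _ _ _; simp
  | succ k ih =>
    intro i x y hx hy hxI hyI
    have hx1 : (e ^ k) x ∈ gr (i + k) := S.e_pow_gr k i hx
    have hy1 : e y ∈ gr ((n : ℤ) + 1 - i - k) := by
      have := S.e_gr _ _ hy
      rwa [show (n : ℤ) + 1 - i - ((k + 1 : ℕ) : ℤ) + 1 = (n : ℤ) + 1 - i - k by
        push_cast; ring] at this
    have h1 := P.e_adj (i + k) ((e ^ k) x) hx1 y (by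
      rwa [show (n : ℤ) - (i + k) = (n : ℤ) + 1 - i - ((k + 1 : ℕ) : ℤ) by push_cast; ring])
      (S.e_pow_I k hxI) hyI
    calc h ((e ^ (k + 1)) x) y = h (e ((e ^ k) x)) y := by rw [pow_succ', Module.End.mul_apply]
      _ = h x ((e ^ k) (e y)) := by rw [h1, ih i x (e y) hx hy1 hxI (S.e_I _ hyI)]
      _ = h x ((e ^ (k + 1)) y) := by rw [pow_succ, Module.End.mul_apply]

lemma sum_left {i : ℤ} (f : ℕ → V) (s : Finset ℕ) (hf : ∀ j, f j ∈ gr i) (hfI : ∀ j, f j ∈ I)
    {y : V} (hy : y ∈ gr ((n : ℤ) + 1 - i)) (hyI : y ∈ I) :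
    h (∑ j ∈ s, f j) y = ∑ j ∈ s, h (f j) y := by
  classical
  induction s using Finset.induction_on with
  | empty => rw [Finset.sum_empty, Finset.sum_empty, P.zero_left hy hyI]
  | insert a s ha ih =>
    rw [Finset.sum_insert ha, Finset.sum_insert ha, ← ih]
    exact P.add_left i _ (hf a) _ (sum_mem fun j _ => hf j) y hy (hfI a)
      (sum_mem fun j _ => hfI j) hyI

lemma inj_of_index (hI : Index n gr I e h) : LefSys.Inj n gr I e := by
  intro i hi x hx hxI h0
  by_contra hne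
  have h1 := hI i hi x hx hxI hne (by
    rw [show n + 2 - 2 * i = (n + 1 - 2 * i) + 1 by omega, pow_succ', Module.End.mul_apply, h0,
      map_zero])
  rw [h0, P.zero_right hx hxI, mul_zero] at h1
  exact lt_irrefl _ h1

/-- The kernel of the pairing on the middle part, below the middle. -/
lemma core_low (S : LefSys n gr I e p) (S' : LefSys n gr I e p') (hI : Index n gr I e h) :
    ∀ i : ℕ, 1 ≤ i → 2 * i ≤ n + 1 → ∀ x ∈ gr i, x ∈ I → p (2 * i - 1) x = x →
      (∀ y ∈ gr ((n : ℤ) + 1 - i), y ∈ I → h x y = 0) → x = 0 := by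
  intro i
  induction i with
  | zero => intro h1; omega
  | succ i ih =>
    intro _ hi x hx hxI hpx hrad
    have hexp : (e ^ (n + 1 - 2 * (i + 1))) x ∈ gr ((n : ℤ) + 1 - ((i + 1 : ℕ) : ℤ)) := by
      have := S.e_pow_gr (n + 1 - 2 * (i + 1)) _ hx
      rwa [show ((i + 1 : ℕ) : ℤ) + ((n + 1 - 2 * (i + 1) : ℕ) : ℤ) =
        (n : ℤ) + 1 - ((i + 1 : ℕ) : ℤ) by omega] at this
    rcases Nat.eq_zero_or_pos i with hi0 | hi0
    · subst hi0
      by_contra hne
      have h1 := hI (0 + 1) hi x hx hxI hne (by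
        have := S.e_pow_gr (n + 2 - 2 * (0 + 1)) _ hx
        refine S.eq_zero_top ?_ this
        omega)
      rw [hrad _ hexp (S.e_pow_I _ hxI), mul_zero] at h1
      exact lt_irrefl _ h1
    · obtain ⟨g, hg1, hg2, -, hg4⟩ := S.iso (2 * i - 1) (by omega)
      set v := (e ^ (n + 2 - 2 * (i + 1))) x with hv
      have hvg : v ∈ gr ((n : ℤ) + 1 - i) := by
        have := S.e_pow_gr (n + 2 - 2 * (i + 1)) _ hx
        rwa [show ((i + 1 : ℕ) : ℤ) + ((n + 2 - 2 * (i + 1) : ℕ) : ℤ) = (n : ℤ) + 1 - i by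
          omega] at this
      have hvI : v ∈ I := S.e_pow_I _ hxI
      have hpv : p (2 * n - (2 * i - 1)) v = v := by
        rw [hv]
        conv_rhs => rw [← hpx]
        rw [S.comm_pow_apply]
        congr 2
        omega
      have h2 : (e ^ (n - (2 * i - 1))) (g v) = v := by
        have := LinearMap.congr_fun hg4 v
        rw [Module.End.mul_apply, Module.End.mul_apply, hpv] at this
        exact this
      have hgv : g v ∈ gr i := by
        have := hg1 _ v hvg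
        rwa [show (n : ℤ) + 1 - i + (((2 * i - 1 : ℕ) : ℤ) - n) = i by omega] at this
      have hgvI : g v ∈ I := hg2 v hvI
      set w := p (2 * i - 1) (g v) with hw
      have hwg : w ∈ gr i := S.p_gr _ _ _ hgv
      have hwI : w ∈ I := S.p_I _ _ hgvI
      have hpw : p (2 * i - 1) w = w := by rw [hw, S.p_p, if_pos rfl]
      have h3 : (e ^ (n - (2 * i - 1))) w = v := by
        rw [hw, S.comm_pow_apply, h2, ← hpv]
        rw [show 2 * i - 1 + 2 * (n - (2 * i - 1)) = 2 * n - (2 * i - 1) by omega, hpv, hpv]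
      have hewg : e w ∈ gr ((i + 1 : ℕ) : ℤ) := by
        have := S.e_gr _ _ hwg
        rwa [show ((i + 1 : ℕ) : ℤ) = (i : ℤ) + 1 by push_cast; ring]
      have hewI : e w ∈ I := S.e_I _ hwI
      have hu0 : (e ^ (n + 2 - 2 * (i + 1))) (x - e w) = 0 := by
        rw [map_sub, ← hv, ← Module.End.mul_apply _ e, ← pow_succ,
          show n + 2 - 2 * (i + 1) + 1 = n - (2 * i - 1) by omega, h3, sub_self]
      have hu : x - e w = 0 := by
        by_contra hne
        have hug : x - e w ∈ gr ((i + 1 : ℕ) : ℤ) := sub_mem hx hewg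
        have huI : x - e w ∈ I := sub_mem hxI hewI
        have h4 := hI (i + 1) hi (x - e w) hug huI hne hu0
        have h5 : (e ^ (n + 1 - 2 * (i + 1))) (x - e w) ∈ gr ((n : ℤ) + 1 - ((i + 1 : ℕ) : ℤ)) := by
          have := S.e_pow_gr (n + 1 - 2 * (i + 1)) _ hug
          rwa [show ((i + 1 : ℕ) : ℤ) + ((n + 1 - 2 * (i + 1) : ℕ) : ℤ) =
            (n : ℤ) + 1 - ((i + 1 : ℕ) : ℤ) by omega] at this
        have h5I : (e ^ (n + 1 - 2 * (i + 1))) (x - e w) ∈ I := S.e_pow_I _ huI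
        rw [P.sub_left hx hewg h5 hxI hewI h5I, hrad _ h5 h5I,
          P.e_adj i w hwg _ (by
            rwa [show (n : ℤ) - i = (n : ℤ) + 1 - ((i + 1 : ℕ) : ℤ) by push_cast; ring]) hwI h5I,
          ← Module.End.mul_apply, ← pow_succ',
          show n + 1 - 2 * (i + 1) + 1 = n + 2 - 2 * (i + 1) by omega, hu0,
          P.zero_right hwg hwI, sub_zero, mul_zero] at h4
        exact lt_irrefl _ h4
      have hxe : x = e w := sub_eq_zero.1 hu
      have hw0 : w = 0 := by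
        refine ih (by omega) (by omega) w hwg hwI hpw fun y hy hyI => ?_
        obtain ⟨g', hg1', hg2', -, hg4'⟩ := S'.iso (2 * i - 1) (by omega)
        set y' := p' (2 * n - (2 * i - 1)) y with hy'
        have hy'g : y' ∈ gr ((n : ℤ) + 1 - i) := S'.p_gr _ _ _ hy
        have hy'I : y' ∈ I := S'.p_I _ _ hyI
        have h6 : (e ^ (n - (2 * i - 1))) (g' y') = y' := by
          have := LinearMap.congr_fun hg4' y
          rwa [Module.End.mul_apply, Module.End.mul_apply] at this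
        have h7 : g' y' ∈ gr i := by
          have := hg1' _ _ hy'g
          rwa [show (n : ℤ) + 1 - i + (((2 * i - 1 : ℕ) : ℤ) - n) = i by omega] at this
        have h7I : g' y' ∈ I := hg2' _ hy'I
        set t := (e ^ (n + 2 - 2 * (i + 1))) (g' y') with ht
        have htg : t ∈ gr ((n : ℤ) + 1 - ((i + 1 : ℕ) : ℤ)) := by
          have := S.e_pow_gr (n + 2 - 2 * (i + 1)) _ h7
          rwa [show (i : ℤ) + ((n + 2 - 2 * (i + 1) : ℕ) : ℤ) =
            (n : ℤ) + 1 - ((i + 1 : ℕ) : ℤ) by omega] at this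
        have htI : t ∈ I := S.e_pow_I _ h7I
        have h8 : e t = y' := by
          rw [ht, ← Module.End.mul_apply, ← pow_succ',
            show n + 2 - 2 * (i + 1) + 1 = n - (2 * i - 1) by omega, h6]
        rw [← hpw, P.p_adj i (2 * i - 1) (by omega) w hwg y hy hwI hyI, ← hy', ← h8,
          ← P.e_adj i w hwg t (by
            rwa [show (n : ℤ) - i = (n : ℤ) + 1 - ((i + 1 : ℕ) : ℤ) by push_cast; ring]) hwI htI,
          ← hxe]
        exact hrad t htg htI
      rw [hxe, hw0, map_zero]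

/-- The kernel of the pairing on the middle part. -/
lemma core (S : LefSys n gr I e p) (S' : LefSys n gr I e p') (hI : Index n gr I e h)
    {i : ℕ} (hi1 : 1 ≤ i) {x : V} (hx : x ∈ gr i) (hxI : x ∈ I) (hpx : p (2 * i - 1) x = x)
    (hrad : ∀ y ∈ gr ((n : ℤ) + 1 - i), y ∈ I → h x y = 0) : x = 0 := by
  rcases le_or_gt (2 * i) (n + 1) with hi | hi
  · exact P.core_low S S' hI i hi1 hi x hx hxI hpx hrad
  rcases lt_or_ge n i with hin | hin
  · exact S.eq_zero_top (by exact_mod_cast hin) hx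
  obtain ⟨g, hg1, hg2, -, hg4⟩ := S.iso (2 * n - (2 * i - 1)) (by omega)
  obtain ⟨g', hg1', hg2', -, hg4'⟩ := S'.iso (2 * n - (2 * i - 1)) (by omega)
  rw [show 2 * n - (2 * n - (2 * i - 1)) = 2 * i - 1 by omega,
    show n - (2 * n - (2 * i - 1)) = 2 * i - 1 - n by omega] at hg4 hg4'
  have h2 : (e ^ (2 * i - 1 - n)) (g x) = x := by
    have := LinearMap.congr_fun hg4 x
    rw [Module.End.mul_apply, Module.End.mul_apply, hpx] at this
    exact this
  have hgx : g x ∈ gr ((n + 1 - i : ℕ) : ℤ) := by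
    have := hg1 _ x hx
    rwa [show (i : ℤ) + (((2 * n - (2 * i - 1) : ℕ) : ℤ) - n) = ((n + 1 - i : ℕ) : ℤ) by
      omega] at this
  have hgxI : g x ∈ I := hg2 x hxI
  set w := p (2 * (n + 1 - i) - 1) (g x) with hw
  have hwg : w ∈ gr ((n + 1 - i : ℕ) : ℤ) := S.p_gr _ _ _ hgx
  have hwI : w ∈ I := S.p_I _ _ hgxI
  have hpw : p (2 * (n + 1 - i) - 1) w = w := by rw [hw, S.p_p, if_pos rfl]
  have h3 : (e ^ (2 * i - 1 - n)) w = x := by
    rw [hw, S.comm_pow_apply, h2,
      show 2 * (n + 1 - i) - 1 + 2 * (2 * i - 1 - n) = 2 * i - 1 by omega, hpx]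
  have hw0 : w = 0 := by
    refine P.core_low S S' hI (n + 1 - i) (by omega) (by omega) w hwg hwI hpw fun y hy hyI => ?_
    set y' := p' (2 * i - 1) y with hy'
    have hy2 : y ∈ gr i := by
      rwa [show (i : ℤ) = (n : ℤ) + 1 - ((n + 1 - i : ℕ) : ℤ) by omega]
    have hy'g : y' ∈ gr i := S'.p_gr _ _ _ hy2
    have hy'I : y' ∈ I := S'.p_I _ _ hyI
    have h6 : (e ^ (2 * i - 1 - n)) (g' y') = y' := by
      have := LinearMap.congr_fun hg4' y
      rwa [Module.End.mul_apply, Module.End.mul_apply] at this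
    have h7 : g' y' ∈ gr ((n : ℤ) + 1 - i) := by
      have := hg1' _ _ hy'g
      rwa [show (i : ℤ) + (((2 * n - (2 * i - 1) : ℕ) : ℤ) - n) = (n : ℤ) + 1 - i by omega] at this
    have h7I : g' y' ∈ I := hg2' _ hy'I
    have h8 := P.p_adj ((n + 1 - i : ℕ) : ℤ) (2 * (n + 1 - i) - 1) (by omega) w hwg y hy hwI hyI
    rw [hpw, show 2 * n - (2 * (n + 1 - i) - 1) = 2 * i - 1 by omega, ← hy', ← h6,
      ← P.e_pow_adj S _ ((n + 1 - i : ℕ) : ℤ) w (g' y') hwg (by
        rwa [show (n : ℤ) + 1 - ((n + 1 - i : ℕ) : ℤ) - ((2 * i - 1 - n : ℕ) : ℤ) =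
          (n : ℤ) + 1 - i by omega]) hwI h7I, h3, hrad _ h7 h7I] at h8
    exact h8
  rw [← h3, hw0, map_zero]

/-- **The kernel of the pairing is the second step of the filtration.** -/
theorem rad_iff (S : LefSys n gr I e p) (S' : LefSys n gr I e p') (hI : Index n gr I e h)
    {i : ℕ} {x : V} (hx : x ∈ gr i) (hxI : x ∈ I) :
    (∀ y ∈ gr ((n : ℤ) + 1 - i), y ∈ I → h x y = 0) ↔ ∀ j, 2 * i ≤ j + 1 → p j x = 0 := by
  have hlow := S.low_of_inj (P.inj_of_index hI)
  have hlow' := S'.low_of_inj (P.inj_of_index hI)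
  constructor
  · intro hrad j hj
    rcases Nat.lt_or_ge j (2 * i) with hj2 | hj2
    · have hj3 : j = 2 * i - 1 := by omega
      subst hj3
      have hpg : p (2 * i - 1) x ∈ gr i := S.p_gr _ _ _ hx
      have hpI : p (2 * i - 1) x ∈ I := S.p_I _ _ hxI
      refine P.core S S' hI (i := i) (by omega) hpg hpI (by rw [S.p_p, if_pos rfl]) ?_
      intro y hy hyI
      rcases lt_or_ge (2 * n) (2 * i - 1) with h1 | h1
      · rw [S.p_out h1, P.zero_left hy hyI]
      · rw [P.p_adj i _ h1 x hx y hy hxI hyI]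
        exact hrad _ (S'.p_gr _ _ _ hy) (S'.p_I _ _ hyI)
    · exact hlow i j hj2 x hx hxI
  · intro h0 y hy hyI
    rcases lt_or_ge n i with hin | hin
    · rw [S.eq_zero_top (by exact_mod_cast hin) hx, P.zero_left hy hyI]
    rw [← S.sum_ge le_rfl x, P.sum_left (fun j => p j x) _ (fun j => S.p_gr _ _ _ hx)
      (fun j => S.p_I _ _ hxI) hy hyI]
    apply Finset.sum_eq_zero
    intro j hj
    rw [Finset.mem_range] at hj
    by_cases hj2 : 2 * i ≤ j + 1
    · rw [h0 j hj2, P.zero_left hy hyI]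
    · rw [P.p_adj i j (by omega) x hx y hy hxI hyI, hlow' (n + 1 - i) (2 * n - j) (by omega) y (by
        rwa [show ((n + 1 - i : ℕ) : ℤ) = (n : ℤ) + 1 - i by omega]) hyI, P.zero_right hx hxI]

end LefPair

end Pool.Agent.HS37.BL
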