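import Pool.Agent.HS37.BL.Single
import Pool.Agent.HS37.BL.Pair

/-!
# The height pairing
-/

open CategoryTheory AlgebraicGeometry

set_option autoImplicit false

universe u v w

namespace Pool.Agent.HS37.BL

open Pool.Agent.H914 Pool.Agent.H914.VarClass Pool.Agent.H914.VarClass.Obj Pool.Agent.W492.BB
  Pool.Agent.W550.Corr Pool.Agent.TH133 Pool.Agent.Y107

set_option linter.unusedSectionVars false

variable {k : Type u} [Field k] {𝒱 : VarClass k} {C : TheoryData.{u, v, 0} 𝒱 ℚ}
  [hC : IsChowProj C] {K : Type w} [Field K] {H : WeilTheoryData.{u, v, w} C K}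
  [hH : IsWeilProj H] {X : 𝒱.Obj}

lemma tpR_corD (D : C.A X) : tpR C X (corD X D) = corD X D := tp_mulCorr D

include hC hH

/-- The dual decomposition satisfies motivic hard Lefschetz. -/
theorem motivic_dual {D : C.A X} {P : ℕ → Cor C X} (hP : IsCK H X P)
    (hM : MotivicLefschetz C (X := X) (corD X D) P) :
    MotivicLefschetz C (X := X) (corD X D) (dualCK (X := X) C P) := by
  let Q : ℕ → Cor C X := dualCK (X := X) C P
  have hQ : ∀ n, Q n = if n ≤ 2 * X.dim then tpR C X (P (2 * X.dim - n)) else 0 := fun n => rfl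
  set L := corD X D with hL
  have hsym : tpR C X L = L := tpR_corD D
  have hPP := fun i j => hP.mul_eq i j
  have h1 : ∀ n, L * P n = P (n + 2) * L := hM.homogeneous
  have hlow : ∀ j, j < 2 → P j * L = 0 := by
    intro j hj
    rw [← mul_one L, ← hP.sum_eq, Finset.mul_sum, Finset.mul_sum]
    apply Finset.sum_eq_zero
    intro l _
    rw [h1, ← mul_assoc, hPP, if_neg (by omega), zero_mul]
  have hpow : ∀ c n : ℕ, L ^ c * P n = P (n + 2 * c) * L ^ c := by
    intro c
    induction c with
    | zero => intro n; simp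
    | succ c ih =>
      intro n
      rw [pow_succ', mul_assoc, ih, ← mul_assoc, h1, mul_assoc]
      rfl
  refine ⟨fun n => ?_, fun n hn => ?_⟩
  · change L * Q n = Q (n + 2) * L
    rw [hQ, hQ]
    rcases le_or_gt n (2 * X.dim) with hn | hn
    · rw [if_pos hn]
      rcases le_or_gt (n + 2) (2 * X.dim) with hn2 | hn2
      · rw [if_pos hn2]
        have h2 := congrArg (tpR C X) (h1 (2 * X.dim - (n + 2)))
        rw [tpR_mul, tpR_mul, hsym, show 2 * X.dim - (n + 2) + 2 = 2 * X.dim - n by omega] at h2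
        exact h2.symm
      · rw [if_neg (by omega), zero_mul]
        have h2 := congrArg (tpR C X) (hlow (2 * X.dim - n) (by omega))
        rw [tpR_mul, hsym, map_zero] at h2
        exact h2
    · rw [if_neg (by omega), if_neg (by omega), mul_zero, zero_mul]
  · obtain ⟨g', hg, hg1, hg2⟩ := hM.iso n hn
    obtain ⟨g, rfl⟩ : ∃ g : Cor C X, g = g' := ⟨g', rfl⟩
    rw [corPow_eq] at hg1 hg2
    set r := X.dim - n with hr
    have k1 : g * (L ^ r * P n) = P n := hg1
    have k2 : L ^ r * (g * P (2 * X.dim - n)) = P (2 * X.dim - n) := hg2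
    let g2 : Cor C X := P n * g * P (2 * X.dim - n)
    have e0 : L ^ r * P n = P (2 * X.dim - n) * L ^ r := by
      rw [hpow]
      congr 2
      omega
    have e1 : g2 * L ^ r = P n := by
      calc g2 * L ^ r = P n * (g * (P (2 * X.dim - n) * L ^ r)) := by
            simp only [g2, mul_assoc]
        _ = P n := by rw [← e0, k1, hPP, if_pos rfl]
    have e2 : L ^ r * g2 = P (2 * X.dim - n) := by
      calc L ^ r * g2 = (L ^ r * P n) * (g * P (2 * X.dim - n)) := by simp only [g2, mul_assoc]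
        _ = P (2 * X.dim - n) * (L ^ r * (g * P (2 * X.dim - n))) := by
          rw [e0, mul_assoc]
        _ = P (2 * X.dim - n) := by rw [k2, hPP, if_pos rfl]
    have hsymr : tpR C X (L ^ r) = L ^ r := by
      have : ∀ m : ℕ, tpR C X (L ^ m) = L ^ m := by
        intro m
        induction m with
        | zero => rw [pow_zero, tpR_one]
        | succ m ih => rw [pow_succ, tpR_mul, ih, hsym, ← pow_succ', pow_succ]
      exact this r
    have e1' : L ^ r * tpR C X g2 = Q (2 * X.dim - n) := by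
      have := congrArg (tpR C X) e1
      rw [tpR_mul, hsymr] at this
      rw [this, hQ, if_pos (by omega)]
      congr 2
      omega
    have e2' : tpR C X g2 * L ^ r = Q n := by
      have := congrArg (tpR C X) e2
      rw [tpR_mul, hsymr] at this
      rw [this, hQ, if_pos (by omega)]
    have hQP : IsCK H X Q := hP.dual
    refine ⟨tpR C X g2, ?_, ?_, ?_⟩
    · have a1 : P n ∈ crg C X 0 := crg_zero_iff.2 (hP.deg n)
      have a2 : P (2 * X.dim - n) ∈ crg C X 0 := crg_zero_iff.2 (hP.deg _)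
      have a3 : g ∈ crg C X ((n : ℤ) - X.dim) := by
        rw [mem_crg, show (X.dim : ℤ) + ((n : ℤ) - X.dim) = n by ring]
        exact hg
      have a4 : g2 ∈ crg C X ((n : ℤ) - X.dim) := by
        have := crg_mul (crg_mul a1 a3) a2
        rwa [zero_add, add_zero] at this
      rw [mem_crg, show (X.dim : ℤ) + ((n : ℤ) - X.dim) = n by ring] at a4
      exact tp_mem C a4
    · rw [corPow_eq]
      change tpR C X g2 * (L ^ r * Q n) = Q n
      rw [← mul_assoc, e2', hQP.mul_eq, if_pos rfl]
    · rw [corPow_eq]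
      change L ^ r * (tpR C X g2 * Q (2 * X.dim - n)) = Q (2 * X.dim - n)
      rw [← mul_assoc, e1', hQP.mul_eq, if_pos rfl]

/-- The pairing of Lefschetz systems given by a height pairing. -/
theorem lefPair {D : C.A X} (hD : C.Deg 1 D) {P : ℕ → Cor C X} (hP : IsCK H X P)
    {h : C.A X → C.A X → ℝ} (hh : IsHeightPairing H X h) :
    LefPair X.dim (C.gr X) (homT H X) (actC C X (corD X D)) (fun j => actC C X (P j))
      (fun j => actC C X ((dualCK (X := X) C P j : C.A (X.prod X)))) h where
  add_left i x hx x' hx' y hy hxI hx'I hyI := hh.add_left i x x' y ⟨hx, hxI⟩ ⟨hx', hx'I⟩ ⟨hy, hyI⟩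
  add_right i x hx y hy y' hy' hxI hyI hy'I :=
    hh.add_right i x y y' ⟨hx, hxI⟩ ⟨hy, hyI⟩ ⟨hy', hy'I⟩
  e_adj i x hx y hy hxI hyI := by
    have hDm : C.Deg ((X.dim : ℤ) + 1) (C.mulCorr D) := by
      have h := C.push_mem (Obj.lift (𝟙 X) (𝟙 X)) hD
      have e1 : (1 : ℤ) + 1 * (((X.prod X).dim : ℤ) - (X.dim : ℤ)) = X.dim + 1 := by
        rw [dim_prod]; push_cast; ring
      rwa [e1] at h
    have h1 := hh.adjoint i 1 (C.mulCorr D) x y hDm ⟨hx, hxI⟩ ⟨by
      rw [show (X.dim : ℤ) + 1 - i - 1 = X.dim - i by ring]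
      exact hy, hyI⟩
    rw [tp_mulCorr] at h1
    exact h1
  p_adj i j hj x hx y hy hxI hyI := by
    have h1 := hh.adjoint i 0 (P j) x y (by rw [add_zero]; exact hP.deg j) ⟨hx, hxI⟩ ⟨by
      rw [sub_zero]
      exact hy, hyI⟩
    have e1 : dualCK (X := X) C P (2 * X.dim - j) = tp C (X := X) (Y := X) (P j) := by
      unfold dualCK
      rw [if_pos (by omega), show 2 * X.dim - (2 * X.dim - j) = j by omega]
    change h (C.act (P j) x) y = h x (C.act (dualCK (X := X) C P (2 * X.dim - j)) y)
    rw [e1]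
    exact h1

lemma hodgeIndex_iff {D : C.A X} {h : C.A X → C.A X → ℝ} :
    HodgeIndex H D h ↔ Index X.dim (C.gr X) (homT H X) (actC C X (corD X D)) h := by
  constructor
  · intro hI i hi x hx hxI hx1 hx0
    rw [actC_corD_pow] at hx0
    rw [actC_corD_pow]
    exact hI i hi x hx hxI hx1 hx0
  · intro hI i hi x hx hxI hx1 hx0
    have := hI i hi x hx hxI hx1 (by
      rw [actC_corD_pow]
      exact hx0)
    rw [actC_corD_pow] at this
    exact this

lemma height_zero_right {h : C.A X → C.A X → ℝ} (hh : IsHeightPairing H X h) {i : ℤ} {x : C.A X}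
    (hx : C.Deg i x) (hxI : H.cl x = 0) : h x 0 = 0 := by
  have h0 : H.cl (0 : C.A X) = 0 := map_zero _
  have := hh.add_right i x 0 0 ⟨hx, hxI⟩ ⟨zero_mem (C.gr X _), h0⟩ ⟨zero_mem (C.gr X _), h0⟩
  rw [add_zero] at this
  linarith

/-- Under the Hodge index statement the kernel of the height pairing is `F^2`. -/
theorem kernel_iff {D : C.A X} (hD : C.Deg 1 D) {π : ℕ → C.A (X.prod X)} (hP : IsCK H X π)
    (hM : MotivicLefschetz C (C.mulCorr D) π) {h : C.A X → C.A X → ℝ}
    (hh : IsHeightPairing H X h) (hI : HodgeIndex H D h) (i : ℕ) (x : C.A X) :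
    x ∈ ckFil C π i 2 ↔ InHeightKernel H h i x := by
  let P : ℕ → Cor C X := π
  have hP' : IsCK H X P := hP
  have hM' : MotivicLefschetz C (X := X) (corD X D) P := hM
  have S := lefSys' hD hP' hM'
  let Q : ℕ → Cor C X := dualCK (X := X) C P
  have hQ : IsCK H X Q := hP'.dual
  have hMQ : MotivicLefschetz C (X := X) (corD X D) Q := motivic_dual hP' hM'
  have S' := lefSys' hD hQ hMQ
  have T := lefPair hD hP' hh
  have hI' := hodgeIndex_iff.1 hI
  rw [hP.mem_ckFil]
  constructor
  · rintro ⟨hx, h0⟩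
    have hcl : H.cl x = 0 := by
      have h2 := cl_act_proj hP (2 * i) hx
      rw [if_pos (by push_cast; ring), h0 _ (by omega), map_zero] at h2
      exact h2.symm
    exact ⟨⟨hx, hcl⟩, fun y hy => (T.rad_iff S S' hI' hx hcl).2 (fun j hj => h0 j (by omega))
      y hy.1 hy.2⟩
  · rintro ⟨⟨hx, hcl⟩, h0⟩
    refine ⟨hx, fun j hj => ?_⟩
    exact (T.rad_iff S S' hI' hx hcl).1 (fun y hy hyI => h0 y ⟨hy, hyI⟩) j (by omega)

end Pool.Agent.HS37.BL
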