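import Pool.Agent.HS37.BL.PairXY
import Pool.Agent.HS37.BL.Height

/-!
# Hard Lefschetz for homologically trivial cycles and two-step filtrations
-/

open CategoryTheory AlgebraicGeometry

set_option autoImplicit false

universe u v w

namespace Pool.Agent.HS37.BL

open Pool.Agent.H914 Pool.Agent.H914.VarClass Pool.Agent.H914.VarClass.Obj Pool.Agent.W492.BB
  Pool.Agent.W550.Corr Pool.Agent.TH133 Pool.Agent.Y107

set_option linter.unusedSectionVars false

variable {k : Type u} [Field k] {𝒱 : VarClass k} {C : TheoryData.{u, v, 0} 𝒱 ℚ}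
  [hC : IsChowProj C] {K : Type w} [Field K] {H : WeilTheoryData.{u, v, w} C K}
  [hH : IsWeilProj H] {X Y : 𝒱.Obj}

include hC hH

omit hH in
lemma corD_mem {D : C.A X} (hD : C.Deg 1 D) : corD X D ∈ crg C X 1 := by
  have h := C.push_mem (Obj.lift (𝟙 X) (𝟙 X)) hD
  have e1 : (1 : ℤ) + 1 * (((X.prod X).dim : ℤ) - (X.dim : ℤ)) = X.dim + 1 := by
    rw [dim_prod]; push_cast; ring
  rw [e1] at h
  exact h

/-- The triple attached to a Lefschetz class. -/
theorem exists_triple_of_class {D : C.A X} (h : IsLefschetzClass H D) :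
    ∃ h f : Cor C X, CTriple h (corD X D) f ∧ tpR C X h = -h ∧ ∀ (m : ℤ) (a : H.A X),
      a ∈ H.gr X m → actH C X H h a = ((m : K) - X.dim) • a := by
  obtain ⟨hD, π, hπ, hM⟩ := h
  let P : ℕ → Cor C X := π
  have hP : IsCK H X P := hπ
  have hM' : MotivicLefschetz C (X := X) (corD X D) P := hM
  exact exists_triple (H := H) (corD_mem hD) (tpR_corD D) (hardLefschetz_of_motivic hP hM')
    (inSquare_of_powersRegular (corD_mem hD) (powersRegular_of_motivicLefschetz (H := H)
      (corD_mem hD) hP hM'))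

omit hH in
/-- The product decomposition is the one of the product triple. -/
lemma prodCK_eq {h e f : Cor C X} {h' e' f' : Cor C Y} (T : CTriple h e f)
    (T' : CTriple h' e' f') : prodCK C (X := X) (Z := Y) (wproj h) (wproj h') =
      wproj (bx h h') := by
  funext n
  exact (T.wproj_prod T' n).symm

omit hH in
lemma deg_prod {D : C.A X} {D' : C.A Y} (hD : C.Deg 1 D) (hD' : C.Deg 1 D') :
    C.Deg 1 (C.ext D (1 : C.A Y) + C.ext (1 : C.A X) D') := by
  have h1 : C.ext D (1 : C.A Y) ∈ C.gr (X.prod Y) 1 := by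
    rw [ext_one_right]
    exact C.pull_mem _ hD
  have h2 : C.ext (1 : C.A X) D' ∈ C.gr (X.prod Y) 1 := by
    rw [ext_one_left]
    exact C.pull_mem _ hD'
  exact Submodule.add_mem _ h1 h2

/-- The data on a product. -/
theorem product_data {D : C.A X} {D' : C.A Y} (hD : IsLefschetzClass H D)
    (hD' : IsLefschetzClass H D') : ∃ (π : ℕ → C.A (X.prod X)) (ρ : ℕ → C.A (Y.prod Y)),
      IsCK H X π ∧ IsSelfDual C π ∧ MotivicLefschetz C (C.mulCorr D) π ∧
      IsCK H Y ρ ∧ IsSelfDual C ρ ∧ MotivicLefschetz C (C.mulCorr D') ρ ∧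
      IsCK H (X.prod Y) (prodCK C π ρ) ∧
      MotivicLefschetz C (C.mulCorr (C.ext D 1 + C.ext 1 D')) (prodCK C π ρ) := by
  obtain ⟨h, f, T, ht, hact⟩ := exists_triple_of_class hD
  obtain ⟨h', f', T', ht', hact'⟩ := exists_triple_of_class hD'
  have k1 : IsCK H X (wproj h) := T.isCK hact
  have k2 : IsCK H Y (wproj h') := T'.isCK hact'
  refine ⟨wproj h, wproj h', k1, fun n hn => T.selfDual ht hn, T.motivic, k2,
    fun n hn => T'.selfDual ht' hn, T'.motivic, k1.prod k2, ?_⟩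
  have k3 := (T.prod T').motivic
  rw [← corD_prod, ← prodCK_eq T T'] at k3
  exact k3

/-- The product of Lefschetz classes is a Lefschetz class. -/
theorem isLefschetzClass_prod {D : C.A X} {D' : C.A Y} (hD : IsLefschetzClass H D)
    (hD' : IsLefschetzClass H D') : IsLefschetzClass H (C.ext D 1 + C.ext 1 D') := by
  obtain ⟨π, ρ, -, -, -, -, -, -, h1, h2⟩ := product_data hD hD'
  exact ⟨deg_prod hD.1 hD'.1, _, h1, h2⟩

omit hC hH in
/-- The two forms of hard Lefschetz. -/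
lemma hardLefschetzHom_iff {D : C.A X} :
    HardLefschetzHom H D ↔ LefschetzInj H D ∧ LefschetzSurj H D := by
  constructor
  · intro h
    exact ⟨fun i hi x hx hx0 h0 => (h i hi).1 x ⟨hx, hx0⟩ h0, fun i hi y hy hy0 => by
      obtain ⟨x, ⟨hx, hx0⟩, h1⟩ := (h i hi).2 y ⟨hy, hy0⟩
      exact ⟨x, hx, hx0, h1⟩⟩
  · rintro ⟨h1, h2⟩ i hi
    refine ⟨fun x hx h0 => h1 i hi x hx.1 hx.2 h0, fun y hy => ?_⟩
    obtain ⟨x, hx, hx0, h3⟩ := h2 i hi y hy.1 hy.2
    exact ⟨x, ⟨hx, hx0⟩, h3⟩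

theorem hard_iff {D : C.A X} (hD : C.Deg 1 D) {π : ℕ → C.A (X.prod X)} (hP : IsCK H X π)
    (hM : MotivicLefschetz C (C.mulCorr D) π) : HardLefschetzHom H D ↔ HomPure H π :=
  hardLefschetzHom_iff.trans (both_iff hD hP hM)

/-- **Hard Lefschetz on a product.** -/
theorem pair_main {D : C.A X} {D' : C.A Y} (hD : IsLefschetzClass H D)
    (hD' : IsLefschetzClass H D') (h : HardLefschetzHom H (C.ext D 1 + C.ext 1 D')) :
    HardLefschetzHom H D ∧ HardLefschetzHom H D' ∧ ExternalZero H X Y ∧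
      ActsByCohomology H X Y := by
  obtain ⟨π, ρ, hπ, hs, hM, hρ, hs', hM', hck, hML⟩ := product_data hD hD'
  have hp : HomPure H (prodCK C π ρ) := (hard_iff (deg_prod hD.1 hD'.1) hck hML).1 h
  exact ⟨(hard_iff hD.1 hπ hM).2 (homPure_left hπ hρ hp),
    (hard_iff hD'.1 hρ hM').2 (homPure_right hπ hρ hp), externalZero hπ hρ hp,
    actsByCohomology hπ hs hρ hp⟩

/-- **Hard Lefschetz on a square.** -/
theorem square_main {D : C.A X} (hD : IsLefschetzClass H D)
    (h : HardLefschetzHom H (C.ext D 1 + C.ext 1 D)) : CompositionsZero H X := by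
  obtain ⟨h₁, f, T, ht, hact⟩ := exists_triple_of_class hD
  have k1 : IsCK H X (wproj h₁) := T.isCK hact
  have k3 := (T.prod T).motivic
  rw [← corD_prod, ← prodCK_eq T T] at k3
  have hp : HomPure H (prodCK C (X := X) (Z := X) (wproj h₁) (wproj h₁)) :=
    (hard_iff (deg_prod hD.1 hD.1) (k1.prod k1) k3).1 h
  exact compositionsZero k1 (fun n hn => T.selfDual ht hn) hp

/-- If correspondences act through the cohomology then homologically trivial cycles are pure. -/
lemma homPure_of_acts (hA : ActsByCohomology H X X) {π : ℕ → C.A (X.prod X)} (hπ : IsCK H X π) :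
    HomPure H π := by
  intro i x hx
  refine ⟨fun h0 => ?_, fun h0 => cl_of_fixed hπ hx h0⟩
  have hx' : C.Deg ((i + 1 : ℕ) : ℤ) x := by
    rwa [show ((i + 1 : ℕ) : ℤ) = (i : ℤ) + 1 by push_cast; ring]
  have h1 : ∀ j, j ≠ 2 * i + 1 → C.act (π j) x = 0 := by
    intro j hj
    refine hA X.dim (i + 1) (π j) (hπ.deg j) (fun a ha => ?_) x ⟨hx', h0⟩
    exact hπ.act_ne j _ a (by push_cast; omega) ha
  have h2 := act_dg C x
  rw [← hπ.sum_of_le (N := 2 * X.dim + 1 + (2 * i + 2)) (by omega), act_sum,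
    Finset.sum_eq_single (2 * i + 1) (fun j _ hj => h1 j hj)
      (fun hj => absurd (Finset.mem_range.2 (by omega)) hj)] at h2
  exact h2

lemma hardLefschetz_of_acts (hA : ActsByCohomology H X X) {D : C.A X}
    (hD : IsLefschetzClass H D) : HardLefschetzHom H D := by
  obtain ⟨hD1, π, hπ, hM⟩ := hD
  exact (hard_iff hD1 hπ hM).2 (homPure_of_acts hA hπ)

lemma cl_act_zero_of_kills {Γ : C.A (X.prod Y)} {i : ℤ} (hk : Kills H Γ (2 * i))
    {x : C.A X} (hx : C.Deg i x) : H.cl (C.act Γ x) = 0 := by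
  rw [cl_act H]
  exact hk _ (H.cl_mem hx)

lemma productsZero_of_acts (hA : ActsByCohomology H X X) : ProductsZero H X := by
  rintro i j x y ⟨hx, hx0⟩ ⟨hy, hy0⟩
  rcases le_or_gt j 0 with hj | hj
  · rw [eq_zero_of_nonpos (H := H) hj hy hy0]
    exact mul_zero x
  obtain ⟨b, hb⟩ := Int.eq_ofNat_of_zero_le (show 0 ≤ j by omega)
  subst hb
  have h1 : C.Deg ((X.dim : ℤ) + i) (C.mulCorr x) := by
    have h := C.push_mem (Obj.lift (𝟙 X) (𝟙 X)) hx
    have e1 : i + 1 * (((X.prod X).dim : ℤ) - (X.dim : ℤ)) = X.dim + i := by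
      rw [dim_prod]; push_cast; ring
    rwa [e1] at h
  change x * y = 0
  rw [← C.act_mulCorr]
  refine hA _ b (C.mulCorr x) h1 (fun a _ => ?_) y ⟨hy, hy0⟩
  have h2 : H.cl (C.mulCorr x) = 0 := by
    rw [TheoryData.mulCorr, H.cl_push, hx0, map_zero]
  rw [h2, TheoryData.act_zero]

/-- The two-step filtration. -/
theorem twoStep_of_acts (hA : ∀ X Y : 𝒱.Obj, ActsByCohomology H X Y) : TwoStepBB H := by
  let F : Filtration C :=
    { F := fun X i n => if n = 0 then C.gr X i else if n = 1 then C.gr X i ⊓ homT H X else ⊥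
      le_gr := by
        intro X i n
        split_ifs
        · exact le_rfl
        · exact inf_le_left
        · exact bot_le
      anti := by
        intro X i n
        rcases Nat.eq_zero_or_pos n with h | h
        · subst h
          rw [if_neg (by omega), if_pos rfl, if_pos rfl]
          exact inf_le_left
        · rw [if_neg (by omega), if_neg (by omega)]
          exact bot_le }
  have F0 : ∀ {X : 𝒱.Obj} {i : ℕ} {x : C.A X}, F.Mem i 0 x ↔ C.Deg i x := fun {X i x} => Iff.rfl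
  have F1 : ∀ {X : 𝒱.Obj} {i : ℕ} {x : C.A X}, F.Mem i 1 x ↔ C.Deg i x ∧ H.cl x = 0 :=
    fun {X i x} => Iff.rfl
  have F2 : ∀ {X : 𝒱.Obj} {i n : ℕ} {x : C.A X}, F.Mem i (n + 2) x ↔ x = 0 :=
    fun {X i n x} => Iff.rfl
  refine ⟨F, ⟨⟨fun X i x => F0, fun X i x => F1, ?_⟩, ⟨?_, ?_, ?_⟩, ?_⟩, fun X i x hx => F2.1 hx⟩
  · intro X i x hx
    rcases i with _ | i
    · exact eq_zero_of_deg_zero (H := H) (F1.1 hx).1 (F1.1 hx).2
    · exact F2.1 hx
  · intro X i j m n x y hx hy
    rcases m with _ | _ | m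
    · rcases n with _ | _ | n
      · have := C.mul_mem (F0.1 hx) (F0.1 hy)
        exact F0.2 (by push_cast; exact this)
      · refine F1.2 ⟨?_, ?_⟩
        · have := C.mul_mem (F0.1 hx) (F1.1 hy).1
          push_cast
          exact this
        · change H.cl (x * y) = 0
          rw [map_mul, (F1.1 hy).2, mul_zero]
      · rw [F2.1 hy]
        change F.Mem _ _ (x * 0)
        rw [mul_zero]
        exact zero_mem _
    · rcases n with _ | _ | n
      · refine F1.2 ⟨?_, ?_⟩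
        · have := C.mul_mem (F1.1 hx).1 (F0.1 hy)
          push_cast
          exact this
        · change H.cl (x * y) = 0
          rw [map_mul, (F1.1 hx).2, zero_mul]
      · have h1 : x * y = 0 := productsZero_of_acts (hA X X) i j x y (F1.1 hx) (F1.1 hy)
        change F.Mem _ _ (x * y)
        rw [h1]
        exact zero_mem _
      · rw [F2.1 hy]
        change F.Mem _ _ (x * 0)
        rw [mul_zero]
        exact zero_mem _
    · rw [F2.1 hx]
      change F.Mem _ _ (0 * y)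
      rw [zero_mul]
      exact zero_mem _
  · intro X Y f i n y hy
    rcases n with _ | _ | n
    · exact F0.2 (C.pull_mem f (F0.1 hy))
    · refine F1.2 ⟨C.pull_mem f (F1.1 hy).1, ?_⟩
      change H.cl (C.pull f y) = 0
      rw [H.cl_pull, (F1.1 hy).2, map_zero]
    · rw [F2.1 hy]
      change F.Mem _ _ (C.pull f 0)
      rw [map_zero]
      exact zero_mem _
  · intro X Y f i j n x hij hx
    have hdeg : ∀ {z : C.A X}, C.Deg i z → C.Deg j (C.push f z) := by
      intro z hz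
      have := C.push_mem f hz
      rwa [show (i : ℤ) + 1 * ((Y.dim : ℤ) - X.dim) = j by omega] at this
    rcases n with _ | _ | n
    · exact F0.2 (hdeg (F0.1 hx))
    · refine F1.2 ⟨hdeg (F1.1 hx).1, ?_⟩
      change H.cl (C.push f x) = 0
      rw [H.cl_push, (F1.1 hx).2, map_zero]
    · rw [F2.1 hx]
      change F.Mem _ _ (C.push f 0)
      rw [map_zero]
      exact zero_mem _
  · intro _ X i n Γ hΓ hk x hx
    rcases n with _ | _ | n
    · refine F1.2 ⟨act_mem0 C hΓ (F0.1 hx), ?_⟩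
      refine cl_act_zero_of_kills (i := i) ?_ (F0.1 hx)
      have : (2 * (i : ℤ) - ((0 : ℕ) : ℤ)) = 2 * i := by push_cast; ring
      rwa [this] at hk
    · refine F2.2 ?_
      refine hA X X X.dim i Γ hΓ ?_ x (F1.1 hx)
      have : (2 * (i : ℤ) - ((0 + 1 : ℕ) : ℤ)) = 2 * i - 1 := by push_cast; ring
      rwa [this] at hk
    · rw [F2.1 hx]
      change F.Mem _ _ (C.act Γ 0)
      rw [TheoryData.act_map_zero]
      exact zero_mem _

/-- The converse. -/
theorem acts_of_twoStep (hV : ∀ X : 𝒱.Obj, ∃ π, IsCK H X π) (hF : TwoStepBB H) (X Y : 𝒱.Obj) :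
    ActsByCohomology H X Y := by
  obtain ⟨F, hBB, h2⟩ := hF
  have hKC : KunnethConjecture H := by
    intro X m
    obtain ⟨π, hπ⟩ := hV X
    exact ⟨π m, hπ.deg m, fun l a ha => hπ.actH_eq m l ha⟩
  rintro e i Γ hΓ hk x ⟨hx, hx0⟩
  rcases lt_or_ge e 0 with he | he
  · have h3 : Γ ∈ C.gr (X.prod Y) e := hΓ
    rw [C.gr_neg _ _ he] at h3
    rw [(Submodule.mem_bot _).1 h3, TheoryData.act_zero]
  obtain ⟨e, rfl⟩ := Int.eq_ofNat_of_zero_le he
  rcases Nat.eq_zero_or_pos i with hi | hi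
  · subst hi
    rw [eq_zero_of_deg_zero (H := H) hx hx0, TheoryData.act_map_zero]
  obtain ⟨a, rfl⟩ : ∃ a, i = a + 1 := ⟨i - 1, by omega⟩
  obtain ⟨π, hπ⟩ := hV X
  have hx1 : F.Mem (a + 1) 1 x := (hBB.bounded.one X (a + 1) x).2 ⟨hx, hx0⟩
  -- `x = π_(2i-1) x`
  have hxp : C.act (π (2 * a + 1)) x = x := by
    have h3 : ∀ j, j ≠ 2 * a + 1 → C.act (π j) x = 0 := by
      intro j hj
      refine h2 X (a + 1) _ (hBB.motivic hKC X (a + 1) 1 (π j) (hπ.deg j) (fun b hb => ?_) x hx1)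
      exact hπ.act_ne j _ b (by push_cast; omega) hb
    have h4 := act_dg C x
    rw [← hπ.sum_of_le (N := 2 * X.dim + 1 + (2 * a + 2)) (by omega), act_sum,
      Finset.sum_eq_single (2 * a + 1) (fun j _ hj => h3 j hj)
        (fun hj => absurd (Finset.mem_range.2 (by omega)) hj)] at h4
    exact h4
  obtain ⟨c, hc⟩ : ∃ c, (e : ℤ) = (X.dim : ℤ) + c := ⟨e - X.dim, by ring⟩
  have h3 : C.Deg (e : ℤ) (C.comp (π (2 * a + 1)) Γ) := by
    have hπ0 : C.Deg ((X.dim : ℤ) + 0) (π (2 * a + 1)) := by rw [add_zero]; exact hπ.deg _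
    have hΓ' : C.Deg ((X.dim : ℤ) + c) Γ := by rw [← hc]; exact hΓ
    have := comp_mem C hπ0 hΓ'
    rwa [zero_add, ← hc] at this
  have h4 : H.cl (C.comp (π (2 * a + 1)) Γ) = 0 := by
    apply hom_zero_of_act H
    have h4 : H.actL (H.cl (C.comp (π (2 * a + 1)) Γ)) = 0 := by
      apply ext_gr H
      intro m b hb
      change H.act (H.cl (C.comp (π (2 * a + 1)) Γ)) b = 0
      rw [actH_comp, hπ.actH_eq _ _ hb]
      split_ifs with hm
      · apply hk
        rw [show (2 * ((a + 1 : ℕ) : ℤ) - 1) = m by rw [hm]; push_cast; ring]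
        exact hb
      · exact TheoryData.act_map_zero _ _
    exact fun b => LinearMap.congr_fun h4 b
  have h5 : F.Mem e 1 (C.comp (π (2 * a + 1)) Γ) := (hBB.bounded.one _ e _).2 ⟨h3, h4⟩
  have h6 := hBB.multiplicative.mul h5 (hBB.multiplicative.pull (fst X Y) hx1)
  have h7 : C.comp (π (2 * a + 1)) Γ * C.pull (fst X Y) x = 0 := h2 _ _ _ h6
  have h8 : C.act (C.comp (π (2 * a + 1)) Γ) x = 0 := by
    rw [TheoryData.act_apply, h7, map_zero]
  rwa [C.act_comp, hxp] at h8

/-- If products of homologically trivial cycles vanish and homologically trivial cycles are pure,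
then correspondences act through the cohomology. -/
theorem acts_of_products (hV : ∀ X : 𝒱.Obj, ∃ π, IsCK H X π)
    (h : ∀ X : 𝒱.Obj, ProductsZero H X ∧ ∀ π, IsCK H X π → HomPure H π) (X Y : 𝒱.Obj) :
    ActsByCohomology H X Y := by
  rintro e i Γ hΓ hk x ⟨hx, hx0⟩
  rcases Nat.eq_zero_or_pos i with hi | hi
  · subst hi
    rw [eq_zero_of_deg_zero (H := H) hx hx0, TheoryData.act_map_zero]
  obtain ⟨a, rfl⟩ : ∃ a, i = a + 1 := ⟨i - 1, by omega⟩
  obtain ⟨π, hπ⟩ := hV X
  have hx' : C.Deg ((a : ℤ) + 1) x := by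
    rwa [show (a : ℤ) + 1 = ((a + 1 : ℕ) : ℤ) by push_cast; ring]
  have hxp := (((h X).2 π hπ) a x hx').1 hx0
  obtain ⟨c, rfl⟩ : ∃ c, e = (X.dim : ℤ) + c := ⟨e - X.dim, by ring⟩
  have h3 : C.Deg ((X.dim : ℤ) + (0 + c)) (C.comp (π (2 * a + 1)) Γ) :=
    comp_mem C (by rw [add_zero]; exact hπ.deg _) hΓ
  have h4 : H.cl (C.comp (π (2 * a + 1)) Γ) = 0 := by
    apply hom_zero_of_act H
    have h4 : H.actL (H.cl (C.comp (π (2 * a + 1)) Γ)) = 0 := by
      apply ext_gr H
      intro m b hb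
      change H.act (H.cl (C.comp (π (2 * a + 1)) Γ)) b = 0
      rw [actH_comp, hπ.actH_eq _ _ hb]
      split_ifs with hm
      · apply hk
        rw [show (2 * ((a + 1 : ℕ) : ℤ) - 1) = m by rw [hm]; push_cast; ring]
        exact hb
      · exact TheoryData.act_map_zero _ _
    exact fun b => LinearMap.congr_fun h4 b
  have h5 : C.comp (π (2 * a + 1)) Γ * C.pull (fst X Y) x = 0 :=
    (h (X.prod Y)).1 _ _ _ _ ⟨h3, h4⟩ ⟨C.pull_mem (fst X Y) hx, by
      rw [H.cl_pull, hx0, map_zero]⟩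
  have h8 : C.act (C.comp (π (2 * a + 1)) Γ) x = 0 := by
    rw [TheoryData.act_apply, h5, map_zero]
  rwa [C.act_comp, hxp] at h8

end Pool.Agent.HS37.BL
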