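import Pool.Agent.HS37.BL.NilAlg
import Pool.Agent.HS37.BL.Class
import Pool.Agent.HS37.BL.BDefs

/-!
# The standard conjecture `B(X)` and nilpotent correspondences
-/

open CategoryTheory AlgebraicGeometry

set_option autoImplicit false

universe u v w

namespace Pool.Agent.HS37.BL

open Pool.Agent.H914 Pool.Agent.H914.VarClass Pool.Agent.H914.VarClass.Obj Pool.Agent.W492.BB
  Pool.Agent.W550.Corr Pool.Agent.TH133 Pool.Agent.Y107

set_option linter.unusedSectionVars false

/-- `sl(2)` modulo the kernel of a homomorphism. -/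
theorem sl2_mod {A E : Type*} [Ring A] [Algebra ℚ A] [Ring E] (φ : A →+* E) {h e f : A} {N : ℕ}
    (ef : φ (e * f - f * e) = φ h) (he : φ (h * e - e * h) = φ (2 * e))
    (hf : φ (h * f - f * h) = φ (-(2 * f))) (hE : e ^ N = 0) (hF : f ^ N = 0) (r : ℕ) :
    ∃ g : A, φ (g * e ^ r * wp h N (-(r : ℤ))) = φ (wp h N (-(r : ℤ))) ∧
      φ (e ^ r * g) = φ (wp h N r) := by
  let π : A →ₐ[ℚ] A ⧸ RingHom.ker φ := Ideal.Quotient.mkₐ ℚ (RingHom.ker φ)
  have hπ : ∀ x y, π x = π y ↔ φ x = φ y := by
    intro x y
    change Ideal.Quotient.mk (RingHom.ker φ) x = Ideal.Quotient.mk (RingHom.ker φ) y ↔ _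
    rw [Ideal.Quotient.eq, RingHom.mem_ker, map_sub, sub_eq_zero]
  have hwp : ∀ j, π (wp h N j) = wp (π h) N j := by
    intro j
    unfold wp
    split_ifs
    · exact (Polynomial.aeval_algHom_apply π h _).symm
    · exact map_zero π
  have t : Sl2 (π h) (π e) (π f) := by
    refine ⟨?_, ?_, ?_⟩
    · rw [← map_mul, ← map_mul, ← map_sub, hπ, ef]
    · rw [← map_mul, ← map_mul, ← map_sub, ← map_ofNat π 2, ← map_mul, hπ, he]
    · rw [← map_mul, ← map_mul, ← map_sub, ← map_ofNat π 2, ← map_mul, ← map_neg, hπ, hf]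
  have hE' : (π e) ^ N = 0 := by rw [← map_pow, hE, map_zero]
  have hF' : (π f) ^ N = 0 := by rw [← map_pow, hF, map_zero]
  obtain ⟨g', h1, h2, -⟩ := exists_lefschetz_inverse t hE' hF' r
  obtain ⟨g, rfl⟩ : ∃ g, π g = g' := Ideal.Quotient.mk_surjective g'
  refine ⟨g, ?_, ?_⟩
  · rw [← hπ, map_mul, map_mul, map_pow, hwp, h1]
  · rw [← hπ, map_mul, map_pow, hwp, h2]

/-- The homogeneous component of degree `i`, over any field. -/
noncomputable def cmpK {K : Type*} [Field K] {V : Type*} [AddCommGroup V] [Module K V]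
    {M : ℤ → Submodule K V} (hM : DirectSum.IsInternal M) (i : ℤ) : V →ₗ[K] V :=
  letI := hM.chooseDecomposition
  (M i).subtype ∘ₗ DirectSum.component K ℤ (fun i => M i) i ∘ₗ
    (DirectSum.decomposeLinearEquiv M).toLinearMap

lemma cmpK_of_mem {K : Type*} [Field K] {V : Type*} [AddCommGroup V] [Module K V]
    {M : ℤ → Submodule K V} (hM : DirectSum.IsInternal M) {i : ℤ} {x : V} (hx : x ∈ M i) :
    cmpK hM i x = x := by
  letI := hM.chooseDecomposition
  unfold cmpK
  simp only [LinearMap.comp_apply, Submodule.subtype_apply]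
  change ((DirectSum.decompose M x) i : V) = x
  exact DirectSum.decompose_of_mem_same M hx

lemma cmpK_of_ne {K : Type*} [Field K] {V : Type*} [AddCommGroup V] [Module K V]
    {M : ℤ → Submodule K V} (hM : DirectSum.IsInternal M) {i j : ℤ} {x : V} (hx : x ∈ M i)
    (h : i ≠ j) : cmpK hM j x = 0 := by
  letI := hM.chooseDecomposition
  unfold cmpK
  simp only [LinearMap.comp_apply, Submodule.subtype_apply]
  change ((DirectSum.decompose M x) j : V) = 0
  exact DirectSum.decompose_of_mem_ne M hx h

variable {k : Type u} [Field k] {𝒱 : VarClass k} {C : TheoryData.{u, v, 0} 𝒱 ℚ}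
  [hC : IsChowProj C] {K : Type w} [Field K] {H : WeilTheoryData.{u, v, w} C K}
  [hH : IsWeilProj H] {X Y : 𝒱.Obj}

include hC hH

/-- The cycle class of a component. -/
lemma cl_cmp (x : C.A X) (i : ℤ) :
    cmpK (H.isInternal X) (2 * i) (H.cl x) = H.cl (cmp (C.isInternal X) i x) := by
  have hx : x ∈ ⨆ i, C.gr X i := by
    rw [(C.isInternal X).submodule_iSup_eq_top]
    trivial
  induction hx using Submodule.iSup_induction' with
  | mem j x hx =>
    by_cases h : j = i
    · subst h
      rw [cmp_of_mem _ hx, cmpK_of_mem _ (H.cl_mem hx)]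
    · rw [cmp_of_ne _ hx h, map_zero]
      exact cmpK_of_ne _ (H.cl_mem hx) (by omega)
  | zero => simp
  | add x y _ _ h1 h2 => simp only [map_add, h1, h2]

lemma actH_zero_iff {x : Cor C X} : actH C X H x = 0 ↔ H.cl (X := X.prod X) x = 0 := by
  constructor
  · intro h
    exact hom_zero_of_act H fun a => LinearMap.congr_fun h a
  · intro h
    ext a
    rw [actH_apply, h, TheoryData.act_zero, LinearMap.zero_apply]

lemma actH_cmpc {x : Cor C X} (h : actH C X H x = 0) (i : ℤ) : actH C X H (cmpc C X i x) = 0 := by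
  rw [actH_zero_iff] at h ⊢
  have h1 := cl_cmp (H := H) (X := X.prod X) x ((X.dim : ℤ) + i)
  rw [h, map_zero] at h1
  exact h1.symm

variable (H) in
lemma charZeroK (X : 𝒱.Obj) : CharZero K :=
  charZero_of_inj_zero fun n hn => by
    by_contra h
    exact charZero_coeff H X n h hn

lemma actH_aeval [CharZero K] {h : Cor C X} (hact : ∀ (m : ℤ) (a : H.A X), a ∈ H.gr X m →
    actH C X H h a = ((m : K) - X.dim) • a) (q : Polynomial ℚ) (m : ℤ) (a : H.A X)
    (ha : a ∈ H.gr X m) :
    actH C X H (Polynomial.aeval h q) a = ((q.eval ((m : ℚ) - X.dim) : ℚ) : K) • a := by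
  have hq : ∀ c : ℚ, actH C X H (algebraMap ℚ (Cor C X) c) =
      algebraMap K (Module.End K (H.A X)) (c : K) := by
    intro c
    have h1 : (actH C X H).comp (algebraMap ℚ (Cor C X)) =
        (algebraMap K (Module.End K (H.A X))).comp (Rat.castHom K) := RingHom.ext_rat _ _
    exact congrArg (fun f : ℚ →+* Module.End K (H.A X) => f c) h1
  induction q using Polynomial.induction_on' with
  | add p q hp hq => rw [map_add, map_add, LinearMap.add_apply, hp, hq, Polynomial.eval_add,
      Rat.cast_add, add_smul]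
  | monomial n c =>
    have hpow : ∀ n : ℕ, (actH C X H h ^ n) a = ((m : K) - X.dim) ^ n • a := by
      intro n
      induction n with
      | zero => simp
      | succ n ih => rw [pow_succ', Module.End.mul_apply, ih, map_smul, hact m a ha, smul_smul,
          pow_succ]
    rw [Polynomial.aeval_monomial, map_mul, map_pow, Module.End.mul_apply, hpow, hq,
      Module.algebraMap_end_apply, smul_smul, Polynomial.eval_monomial]
    push_cast
    rfl

/-- The action of the weight projectors. -/
lemma wproj_act {h : Cor C X} (hact : ∀ (m : ℤ) (a : H.A X), a ∈ H.gr X m →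
    actH C X H h a = ((m : K) - X.dim) • a) (i : ℕ) (m : ℤ) (a : H.A X) (ha : a ∈ H.gr X m) :
    actH C X H (wproj h i) a = if m = i then a else 0 := by
  haveI : CharZero K := charZeroK H X
  by_cases ha0 : a = 0
  · rw [ha0, map_zero]
    split_ifs <;> rfl
  have hm0 := nonneg_of_mem H ha ha0
  have hm1 : m ≤ 2 * X.dim := by
    by_contra hcon
    rw [gr_top H (by omega)] at ha
    exact ha0 ((Submodule.mem_bot _).1 ha)
  unfold wproj wp
  split_ifs with h1 h2 h2
  · rw [actH_aeval hact _ m a ha, show (m : ℚ) - X.dim = ((m - X.dim : ℤ) : ℚ) by push_cast; rfl,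
      eval_basis' h1 (by unfold wts; rw [Finset.mem_Ioo]; constructor <;> push_cast <;> omega),
      if_pos (by omega), Rat.cast_one, one_smul]
  · rw [actH_aeval hact _ m a ha, show (m : ℚ) - X.dim = ((m - X.dim : ℤ) : ℚ) by push_cast; rfl,
      eval_basis' h1 (by unfold wts; rw [Finset.mem_Ioo]; constructor <;> push_cast <;> omega),
      if_neg (by omega), Rat.cast_zero, zero_smul]
  · exfalso
    apply h1
    unfold wts
    rw [Finset.mem_Ioo]
    constructor <;> push_cast <;> omega
  · rw [map_zero, LinearMap.zero_apply]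

/-- Operators agreeing on homogeneous classes agree. -/
lemma actH_ext {x y : Cor C X} (h : ∀ (m : ℕ), ∀ a ∈ H.gr X m, actH C X H x a = actH C X H y a) :
    actH C X H x = actH C X H y := by
  apply ext_gr H
  intro m a ha
  by_cases ha0 : a = 0
  · rw [ha0, map_zero, map_zero]
  obtain ⟨n, rfl⟩ := Int.eq_ofNat_of_zero_le (nonneg_of_mem H ha ha0)
  exact h n a ha

/-- The algebraic system attached to a variety with nilpotent homologically trivial
correspondences. -/
lemma nilSys (hnil : HomNilpotent H X) : NilSys (actH C X H) (crg C X) where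
  one := crg_one
  mul i j a ha b hb := crg_mul ha hb
  nil x hx h0 := by
    have hx0 : C.Deg X.dim (X := X.prod X) x := crg_zero_iff.1 hx
    obtain ⟨n, hn⟩ := hnil x ⟨hx0, actH_zero_iff.1 h0⟩
    refine ⟨n, ?_⟩
    rw [← corPow_eq]
    exact hn

/-- **Lifting of the Kunneth projectors.** -/
theorem exists_ck (hnil : HomNilpotent H X) {h : Cor C X} (R : Subalgebra ℚ (Cor C X))
    (hR : R ≤ cor0 C X) (hh : h ∈ R) (hact : ∀ (m : ℤ) (a : H.A X), a ∈ H.gr X m →
    actH C X H h a = ((m : K) - X.dim) • a) :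
    ∃ P : ℕ → Cor C X, IsCK H X P ∧ (∀ n, P n ∈ R) ∧
      ∀ n, actH C X H (P n) = actH C X H (wproj h n) := by
  have hpR : ∀ n, wproj h n ∈ R := by
    intro n
    unfold wproj wp
    split_ifs
    · exact (Algebra.adjoin_le (Set.singleton_subset_iff.2 hh) :
        Algebra.adjoin ℚ {h} ≤ R) (Polynomial.aeval_mem_adjoin_singleton ℚ h)
    · exact R.zero_mem
  have hmul : ∀ i j, actH C X H (wproj h i) * actH C X H (wproj h j) =
      if i = j then actH C X H (wproj h i) else 0 := by
    intro i j
    apply ext_gr H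
    intro m a ha
    rw [Module.End.mul_apply, wproj_act hact j m a ha]
    by_cases h1 : m = j
    · rw [if_pos h1, wproj_act hact i m a ha]
      by_cases h2 : i = j
      · rw [if_pos h2, wproj_act hact i m a ha]
      · rw [if_neg h2, if_neg (by omega), LinearMap.zero_apply]
    · rw [if_neg h1, map_zero]
      by_cases h2 : i = j
      · rw [if_pos h2, wproj_act hact i m a ha, if_neg (by omega)]
      · rw [if_neg h2, LinearMap.zero_apply]
  have hsum : ∑ i ∈ Finset.range (2 * X.dim + 1), actH C X H (wproj h i) = 1 := by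
    apply ext_gr H
    intro m a ha
    rw [LinearMap.sum_apply, Module.End.one_apply]
    by_cases ha0 : a = 0
    · rw [ha0]
      exact Finset.sum_eq_zero fun i _ => map_zero _
    have hm0 := nonneg_of_mem H ha ha0
    have hm1 : m ≤ 2 * X.dim := by
      by_contra hcon
      rw [gr_top H (by omega)] at ha
      exact ha0 ((Submodule.mem_bot _).1 ha)
    obtain ⟨n, rfl⟩ := Int.eq_ofNat_of_zero_le hm0
    rw [Finset.sum_eq_single n]
    · rw [wproj_act hact n n a ha, if_pos rfl]
    · intro j _ hj
      rw [wproj_act hact j n a ha, if_neg (by omega)]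
    · intro h1
      exfalso
      apply h1
      rw [Finset.mem_range]
      omega
  obtain ⟨P, h1, h2, h3, h4, h5⟩ := (nilSys hnil).lift_proj R
    (fun x hx => crg_zero_iff.2 (hR hx)) (2 * X.dim + 1) (wproj h) hpR
    (fun i hi => by rw [CTriple.wproj_out (by omega), map_zero]) hmul hsum
  refine ⟨P, isCK_of (fun n => hR (h1 n)) (fun n hn => h2 n (by omega)) h3 h4 ?_, h1, h5⟩
  intro i m a ha
  rw [h5, wproj_act hact i m a ha]

end Pool.Agent.HS37.BL
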