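import Pool.Agent.Y107.SDDefs

/-!
# Hard Lefschetz for homologically trivial cycles on products: definitions
-/

open CategoryTheory AlgebraicGeometry

set_option autoImplicit false

universe u v w

namespace Pool.Agent.HS37.BL

open Pool.Agent.H914 Pool.Agent.W492.BB Pool.Agent.TH133 Pool.Agent.Y107

variable {k : Type u} [Field k] {𝒱 : VarClass k} {C : TheoryData.{u, v, 0} 𝒱 ℚ}
  {K : Type w} [Field K] (H : WeilTheoryData.{u, v, w} C K)

/-- The class `x` lies in `CH^i(X)_hom`: it is of codimension `i` and homologous to zero. -/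
def HomTriv {X : 𝒱.Obj} (i : ℤ) (x : C.A X) : Prop := C.Deg i x ∧ H.cl x = 0

/-- `D ∈ CH^1(X)`, and `X` has a Chow-Kunneth decomposition with motivic hard Lefschetz for `D`. -/
def IsLefschetzClass {X : 𝒱.Obj} (D : C.A X) : Prop :=
  C.Deg 1 D ∧ ∃ π, IsCK H X π ∧ MotivicLefschetz C (C.mulCorr D) π

/-- Hard Lefschetz for the homologically trivial cycles: for `2 i ≤ d + 1`, `d = dim X`, the
multiplication by `D^(d+1-2i)` is a bijection of `CH^i(X)_hom` onto `CH^(d+1-i)(X)_hom`. -/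
def HardLefschetzHom {X : 𝒱.Obj} (D : C.A X) : Prop :=
  ∀ i : ℕ, 2 * i ≤ X.dim + 1 →
    (∀ x : C.A X, HomTriv H i x → C.mul (D ^ (X.dim + 1 - 2 * i)) x = 0 → x = 0) ∧
    ∀ y : C.A X, HomTriv H (X.dim + 1 - i) y → ∃ x : C.A X, HomTriv H i x ∧
      C.mul (D ^ (X.dim + 1 - 2 * i)) x = y

/-- A correspondence `Γ ∈ CH^e(X × Y)` which acts as zero on `H^(2i-1)(X)` acts as zero on
`CH^i(X)_hom`. -/
def ActsByCohomology (X Y : 𝒱.Obj) : Prop :=
  ∀ (e : ℤ) (i : ℕ) (Γ : C.A (X.prod Y)), C.Deg e Γ → Kills H Γ (2 * i - 1) →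
    ∀ x : C.A X, HomTriv H i x → C.act Γ x = 0

/-- `x × y = 0` in `CH(X × Y)` for all homologically trivial cycles `x` on `X` and `y` on `Y`. -/
def ExternalZero (X Y : 𝒱.Obj) : Prop :=
  ∀ (i j : ℤ) (x : C.A X) (y : C.A Y), HomTriv H i x → HomTriv H j y → C.ext x y = 0

/-- `x y = 0` in `CH(X)` for all homologically trivial cycles `x`, `y` on `X`. -/
def ProductsZero (X : 𝒱.Obj) : Prop :=
  ∀ (i j : ℤ) (x y : C.A X), HomTriv H i x → HomTriv H j y → C.mul x y = 0

/-- The composition of any two homologically trivial self-correspondences of `X` is zero. -/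
def CompositionsZero (X : 𝒱.Obj) : Prop :=
  ∀ (i j : ℤ) (f g : C.A (X.prod X)), HomTriv H i f → HomTriv H j g → C.comp f g = 0

/-- There is a Bloch-Beilinson filtration with `F^2 = 0`. -/
def TwoStepBB : Prop :=
  ∃ F : Filtration C, IsBB H F ∧ ∀ (X : 𝒱.Obj) (i : ℕ) (x : C.A X), F.Mem i 2 x → x = 0

end Pool.Agent.HS37.BL
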