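import Pool.Agent.Y107.SDDefs

/-!
# The hard Lefschetz statement and the Hodge index statement for homologically trivial cycles
-/

open CategoryTheory AlgebraicGeometry

set_option autoImplicit false

universe u v w

namespace Pool.Agent.HS37.BL

open Pool.Agent.H914 Pool.Agent.W492.BB Pool.Agent.TH133 Pool.Agent.Y107

variable {k : Type u} [Field k] {𝒱 : VarClass k} {C : TheoryData.{u, v, 0} 𝒱 ℚ}
  {K : Type w} [Field K] (H : WeilTheoryData.{u, v, w} C K) {X : 𝒱.Obj}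

/-- The injectivity part of hard Lefschetz for homologically trivial cycles: for `2 i ≤ d + 1`,
`d = dim X`, the multiplication by `D^(d+1-2i)` is injective on the classes of codimension `i` which
are homologous to zero. -/
def LefschetzInj (D : C.A X) : Prop :=
  ∀ i : ℕ, 2 * i ≤ X.dim + 1 → ∀ x : C.A X, C.Deg i x → H.cl x = 0 →
    D ^ (X.dim + 1 - 2 * i) * x = 0 → x = 0

/-- The surjectivity part of hard Lefschetz for homologically trivial cycles: for `2 i ≤ d + 1`,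
`d = dim X`, each class of codimension `d + 1 - i` homologous to zero is `D^(d+1-2i) x` for a class
`x` of codimension `i` homologous to zero. -/
def LefschetzSurj (D : C.A X) : Prop :=
  ∀ i : ℕ, 2 * i ≤ X.dim + 1 → ∀ y : C.A X, C.Deg ((X.dim : ℤ) + 1 - i) y → H.cl y = 0 →
    ∃ x : C.A X, C.Deg i x ∧ H.cl x = 0 ∧ D ^ (X.dim + 1 - 2 * i) * x = y

/-- The Hodge index statement for homologically trivial cycles and the function `h` (the height
pairing): for `2 i ≤ d + 1`, `d = dim X`, and each `x ≠ 0` of codimension `i` homologous to zero with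
`D^(d+2-2i) x = 0` the number `(-1)^i h(x, D^(d+1-2i) x)` is positive. -/
def HodgeIndex (D : C.A X) (h : C.A X → C.A X → ℝ) : Prop :=
  ∀ i : ℕ, 2 * i ≤ X.dim + 1 → ∀ x : C.A X, C.Deg i x → H.cl x = 0 → x ≠ 0 →
    D ^ (X.dim + 2 - 2 * i) * x = 0 → 0 < (-1) ^ i * h x (D ^ (X.dim + 1 - 2 * i) * x)

/-- The class `x` lies in `CH^i(X)_hom`: it is of codimension `i` and homologous to zero. -/
def InHom {X : 𝒱.Obj} (i : ℤ) (x : C.A X) : Prop := C.Deg i x ∧ H.cl x = 0

/-- The pairing `h` is additive in the first variable on `CH^i(X)_hom × CH^(d+1-i)(X)_hom`. -/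
def AddLeft (X : 𝒱.Obj) (h : C.A X → C.A X → ℝ) : Prop :=
  ∀ (i : ℤ) (x x' y : C.A X), InHom H i x → InHom H i x' → InHom H (X.dim + 1 - i) y →
    h (x + x') y = h x y + h x' y

/-- The pairing `h` is additive in the second variable on `CH^i(X)_hom × CH^(d+1-i)(X)_hom`. -/
def AddRight (X : 𝒱.Obj) (h : C.A X → C.A X → ℝ) : Prop :=
  ∀ (i : ℤ) (x y y' : C.A X), InHom H i x → InHom H (X.dim + 1 - i) y →
    InHom H (X.dim + 1 - i) y' → h x (y + y') = h x y + h x y'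

/-- `h(Γ_* x, y) = h(x, Γ^t_* y)` for the self-correspondences `Γ ∈ CH^(d+e)(X × X)`, `d = dim X`,
their transposes `Γ^t`, and `x ∈ CH^i(X)_hom`, `y ∈ CH^(d+1-i-e)(X)_hom`. -/
def TransposeAdjoint (X : 𝒱.Obj) (h : C.A X → C.A X → ℝ) : Prop :=
  ∀ (i e : ℤ) (Γ : C.A (X.prod X)) (x y : C.A X), C.Deg (X.dim + e) Γ →
    InHom H i x → InHom H (X.dim + 1 - i - e) y → h (C.act Γ x) y = h x (C.act (tp C Γ) y)

/-- The function `h` has the formal properties of the height pairing of the homologically trivial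
cycles on `X`, `d = dim X`: it is additive in each variable on `CH^i(X)_hom × CH^(d+1-i)(X)_hom`, and
`h(Γ_* x, y) = h(x, Γ^t_* y)` for the self-correspondences `Γ` and their transposes `Γ^t`. -/
structure IsHeightPairing (X : 𝒱.Obj) (h : C.A X → C.A X → ℝ) : Prop where
  add_left : AddLeft H X h
  add_right : AddRight H X h
  adjoint : TransposeAdjoint H X h

/-- The class `x ∈ CH^i(X)` is homologous to zero and `h(x, y) = 0` for all
`y ∈ CH^(d+1-i)(X)_hom`, `d = dim X`. -/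
def InHeightKernel (h : C.A X → C.A X → ℝ) (i : ℕ) (x : C.A X) : Prop :=
  InHom H i x ∧ ∀ y : C.A X, InHom H (X.dim + 1 - i) y → h x y = 0

/-- Murre's conjecture (D) for the decomposition `π`: `F^1 CH^i(X) = CH^i(X)_hom`, that is, the
homologically trivial cycles of codimension `i` are the `x ∈ CH^i(X)` with `(π_j)_* x = 0` for
`j ≥ 2 i`. -/
def MurreDFor (π : ℕ → C.A (X.prod X)) : Prop :=
  ∀ (i : ℕ) (x : C.A X), x ∈ ckFil C π i 1 ↔ C.Deg i x ∧ H.cl x = 0

/-- The step `F^2 CH^i(X) = (π_(2i-2) + ⋯ + π_0)_* CH^i(X)` is zero for all `i`. -/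
def SecondStepZero (C : TheoryData.{u, v, 0} 𝒱 ℚ) {X : 𝒱.Obj} (π : ℕ → C.A (X.prod X)) : Prop :=
  ∀ i : ℕ, ckFil C π i 2 = ⊥

/-- For `i ≥ 1` a class `x ∈ CH^i(X)` is homologous to zero if and only if
`(π_(2i-1))_* x = x`. -/
def HomPure (π : ℕ → C.A (X.prod X)) : Prop :=
  ∀ (i : ℕ) (x : C.A X), C.Deg ((i : ℤ) + 1) x → (H.cl x = 0 ↔ C.act (π (2 * i + 1)) x = x)

/-- The Hodge index inequality for the non-zero `x ∈ CH^(i+1)(X)` with `(π_(2i+1))_* x = x` and
`D^(d-2i) x = 0`, `d = dim X`, `2 i + 2 ≤ d + 1`: `(-1)^(i+1) h(x, D^(d-1-2i) x) > 0`. -/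
def HodgeIndexPure (C : TheoryData.{u, v, 0} 𝒱 ℚ) {X : 𝒱.Obj} (D : C.A X)
    (π : ℕ → C.A (X.prod X)) (h : C.A X → C.A X → ℝ) : Prop :=
  ∀ i : ℕ, 2 * i + 2 ≤ X.dim + 1 → ∀ x : C.A X, C.Deg ((i : ℤ) + 1) x →
    C.act (π (2 * i + 1)) x = x → x ≠ 0 → D ^ (X.dim - 2 * i) * x = 0 →
      0 < (-1) ^ (i + 1) * h x (D ^ (X.dim - 1 - 2 * i) * x)

/-- For all `i` the kernel of `h` on `CH^i(X)_hom` is `F^2 CH^i(X)`. -/
def KernelIsSecondStep (π : ℕ → C.A (X.prod X)) (h : C.A X → C.A X → ℝ) : Prop :=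
  ∀ (i : ℕ) (x : C.A X), x ∈ ckFil C π i 2 ↔ InHeightKernel H h i x

/-- The kernel of `h` is zero. -/
def HeightNondegenerate (h : C.A X → C.A X → ℝ) : Prop :=
  ∀ (i : ℕ) (x : C.A X), InHeightKernel H h i x → x = 0

end Pool.Agent.HS37.BL
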