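import Mathlib

/-!
# Graded vector spaces with a Lefschetz operator and a homogeneous decomposition

`V = ⨁ V^i` is a graded vector space (`gr i = V^i`, zero for `i < 0` and `i > n`), `p 0, …, p (2 n)`
are orthogonal idempotents of degree zero with sum one, `e` is an operator of degree one with
`e p_j = p_(j+2) e`, such that `e^(n-j)` is an isomorphism of `p_j V` onto `p_(2n-j) V`, with an
inverse `g` of degree `j - n`. `I` is a graded subspace stable under all these operators which
contains `p_j V^i` for `j ≠ 2 i`.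
-/

set_option autoImplicit false

namespace Pool.Agent.HS37.BL

/-- See the header of the file. -/
structure LefSys {V : Type*} [AddCommGroup V] [Module ℚ V] (n : ℕ) (gr : ℤ → Submodule ℚ V)
    (I : Submodule ℚ V) (e : Module.End ℚ V) (p : ℕ → Module.End ℚ V) : Prop where
  gr_neg : ∀ i, i < 0 → gr i = ⊥
  gr_top : ∀ i, (n : ℤ) < i → gr i = ⊥
  e_gr : ∀ i, ∀ x ∈ gr i, e x ∈ gr (i + 1)
  p_gr : ∀ j i, ∀ x ∈ gr i, p j x ∈ gr i
  e_I : ∀ x ∈ I, e x ∈ I
  p_I : ∀ j, ∀ x ∈ I, p j x ∈ I
  hom : ∀ (j : ℕ) (i : ℤ), (j : ℤ) ≠ 2 * i → ∀ x ∈ gr i, p j x ∈ I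
  mul : ∀ i j, p i * p j = if i = j then p i else 0
  out : ∀ j, 2 * n < j → p j = 0
  sum : ∑ j ∈ Finset.range (2 * n + 1), p j = 1
  comm : ∀ j, e * p j = p (j + 2) * e
  iso : ∀ j ≤ n, ∃ g : Module.End ℚ V, (∀ i, ∀ x ∈ gr i, g x ∈ gr (i + (j - n))) ∧
    (∀ x ∈ I, g x ∈ I) ∧ g * e ^ (n - j) * p j = p j ∧
      e ^ (n - j) * g * p (2 * n - j) = p (2 * n - j)

namespace LefSys

variable {V : Type*} [AddCommGroup V] [Module ℚ V] {n : ℕ} {gr : ℤ → Submodule ℚ V}
    {I : Submodule ℚ V} {e : Module.End ℚ V} {p : ℕ → Module.End ℚ V} (S : LefSys n gr I e p)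

include S

lemma comm_pow (k j : ℕ) : e ^ k * p j = p (j + 2 * k) * e ^ k := by
  induction k generalizing j with
  | zero => simp
  | succ k ih =>
    rw [pow_succ, mul_assoc, S.comm, ← mul_assoc, ih, mul_assoc]
    congr 2
    ring

lemma comm_pow_apply (k j : ℕ) (x : V) : (e ^ k) (p j x) = p (j + 2 * k) ((e ^ k) x) := by
  have := LinearMap.congr_fun (S.comm_pow k j) x
  simpa using this

lemma p_p (i j : ℕ) (x : V) : p i (p j x) = if i = j then p i x else 0 := by
  have := LinearMap.congr_fun (S.mul i j) x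
  rw [Module.End.mul_apply] at this
  rw [this]
  split_ifs <;> rfl

lemma p_out {j : ℕ} (hj : 2 * n < j) (x : V) : p j x = 0 := by
  rw [S.out j hj]; rfl

lemma sum_ge {N : ℕ} (hN : 2 * n + 1 ≤ N) (x : V) : ∑ j ∈ Finset.range N, p j x = x := by
  have h1 := LinearMap.congr_fun S.sum x
  rw [LinearMap.sum_apply, Module.End.one_apply] at h1
  rw [← Finset.sum_subset (Finset.range_mono hN)] 
  · exact h1
  · intro j _ hj
    rw [Finset.mem_range, not_lt] at hj
    exact S.p_out (by omega) x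

lemma e_pow_gr (k : ℕ) (i : ℤ) {x : V} (hx : x ∈ gr i) : (e ^ k) x ∈ gr (i + k) := by
  induction k with
  | zero => simpa using hx
  | succ k ih =>
    rw [pow_succ', Module.End.mul_apply]
    have := S.e_gr _ _ ih
    rwa [show i + (k : ℤ) + 1 = i + ((k + 1 : ℕ) : ℤ) by push_cast; ring] at this

lemma e_pow_I (k : ℕ) {x : V} (hx : x ∈ I) : (e ^ k) x ∈ I := by
  induction k with
  | zero => simpa using hx
  | succ k ih =>
    rw [pow_succ', Module.End.mul_apply]
    exact S.e_I _ ih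

/-- `p_j e^k = 0` for `j < 2 k`. -/
lemma p_e_pow {j k : ℕ} (hj : j < 2 * k) (x : V) : p j ((e ^ k) x) = 0 := by
  have h1 := S.sum_ge le_rfl x
  rw [← h1, map_sum, map_sum]
  apply Finset.sum_eq_zero
  intro l _
  rw [S.comm_pow_apply, S.p_p, if_neg (by omega)]

lemma p_e_pow_of_le {j k : ℕ} (hj : 2 * k ≤ j) (x : V) :
    p j ((e ^ k) x) = (e ^ k) (p (j - 2 * k) x) := by
  rw [S.comm_pow_apply, show j - 2 * k + 2 * k = j by omega]

lemma eq_zero_neg {i : ℤ} (hi : i < 0) {x : V} (hx : x ∈ gr i) : x = 0 := by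
  rw [S.gr_neg i hi] at hx
  exact (Submodule.mem_bot _).1 hx

lemma eq_zero_top {i : ℤ} (hi : (n : ℤ) < i) {x : V} (hx : x ∈ gr i) : x = 0 := by
  rw [S.gr_top i hi] at hx
  exact (Submodule.mem_bot _).1 hx

/-- `e^k` is injective on `p_j V` if `k ≤ n - j`. -/
lemma inj_pow {j k : ℕ} (hj : j ≤ n) (hk : k ≤ n - j) {x : V} (h : (e ^ k) (p j x) = 0) :
    p j x = 0 := by
  obtain ⟨g, -, -, hg, -⟩ := S.iso j hj
  have h1 := LinearMap.congr_fun hg x
  rw [Module.End.mul_apply, Module.End.mul_apply] at h1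
  rw [← h1, show n - j = (n - j - k) + k by omega, pow_add, Module.End.mul_apply, h, map_zero,
    map_zero]

variable (gr I e p n)

omit S in
/-- Injectivity of hard Lefschetz for `I`. -/
def Inj : Prop := ∀ i : ℕ, 2 * i ≤ n + 1 → ∀ x ∈ gr i, x ∈ I → (e ^ (n + 1 - 2 * i)) x = 0 → x = 0

omit S in
/-- Surjectivity of hard Lefschetz for `I`. -/
def Surj : Prop := ∀ i : ℕ, 2 * i ≤ n + 1 → ∀ y ∈ gr ((n : ℤ) + 1 - i), y ∈ I →
  ∃ x ∈ gr i, x ∈ I ∧ (e ^ (n + 1 - 2 * i)) x = y

omit S in
/-- `p_j I^i = 0` for `j ≥ 2 i`. -/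
def Low : Prop := ∀ i j : ℕ, 2 * i ≤ j → ∀ x ∈ gr i, x ∈ I → p j x = 0

omit S in
/-- `p_j V^i = 0` for `j ≤ 2 i - 2`. -/
def High : Prop := ∀ i j : ℕ, j + 2 ≤ 2 * i → ∀ x ∈ gr i, p j x = 0

variable {gr I e p n}

lemma inj_of_low (h : Low gr I p) : Inj n gr I e := by
  intro i hi x hx hxI h0
  rw [← S.sum_ge le_rfl x]
  apply Finset.sum_eq_zero
  intro j _
  by_cases hj : 2 * i ≤ j
  · exact h i j hj x hx hxI
  · refine S.inj_pow (j := j) (k := n + 1 - 2 * i) (by omega) (by omega) ?_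
    rw [S.comm_pow_apply, h0, map_zero]

lemma low_of_inj (h : Inj n gr I e) : Low gr I p := by
  intro i
  induction i using Nat.strong_induction_on with
  | _ i ih =>
  intro j hj x hx hxI
  have hy : p j x ∈ gr i := S.p_gr j i x hx
  have hyI : p j x ∈ I := S.p_I j x hxI
  rcases le_or_gt j n with hjn | hjn
  · -- the case `j ≤ n`
    have h1 : (e ^ (n - j + 1)) (p j x) = 0 := by
      rw [S.comm_pow_apply]
      set w := (e ^ (n - j + 1)) x with hw
      have hwg : w ∈ gr ((i : ℤ) + (n - j + 1 : ℕ)) := S.e_pow_gr _ _ hx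
      have hwI : w ∈ I := S.e_pow_I _ hxI
      rcases Nat.lt_or_ge j 2 with hj2 | hj2
      · exact S.p_out (by omega) w
      · obtain ⟨g, hg1, hg2, -, hg4⟩ := S.iso (j - 2) (by omega)
        have e1 : j + 2 * (n - j + 1) = 2 * n - (j - 2) := by omega
        rw [e1]
        set v := p (2 * n - (j - 2)) w with hv
        have h2 : (e ^ (n - (j - 2))) (g v) = v := by
          have := LinearMap.congr_fun hg4 w
          rwa [Module.End.mul_apply, Module.End.mul_apply] at this
        have h3 : g v ∈ gr ((i : ℤ) - 1) := by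
          have := hg1 _ v (S.p_gr _ _ _ hwg)
          rwa [show (i : ℤ) + (n - j + 1 : ℕ) + (((j - 2 : ℕ) : ℤ) - n) = i - 1 by omega] at this
        have h3I : g v ∈ I := hg2 _ (S.p_I _ _ hwI)
        have h4 : p (j - 2) (g v) = 0 := by
          rcases Nat.eq_zero_or_pos i with hi0 | hi0
          · rw [S.eq_zero_neg (by omega) h3, map_zero]
          · refine ih (i - 1) (by omega) (j - 2) (by omega) (g v) ?_ h3I
            rwa [show (((i - 1 : ℕ) : ℤ)) = (i : ℤ) - 1 by omega]
        have h5 : p (2 * n - (j - 2)) v = v := by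
          rw [hv, S.p_p, if_pos rfl]
        rw [← h5, ← h2, S.p_e_pow_of_le (by omega),
          show 2 * n - (j - 2) - 2 * (n - (j - 2)) = j - 2 by omega, h4, map_zero]
    refine h i (by omega) _ hy hyI ?_
    rw [show n + 1 - 2 * i = (j - 2 * i) + (n - j + 1) by omega, pow_add, Module.End.mul_apply, h1,
      map_zero]
  · -- the case `j > n`
    rcases lt_or_ge (2 * n) j with hj2 | hj2
    · exact S.p_out hj2 x
    obtain ⟨g, hg1, hg2, -, hg4⟩ := S.iso (2 * n - j) (by omega)
    have e1 : 2 * n - (2 * n - j) = j := by omega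
    have e2 : n - (2 * n - j) = j - n := by omega
    rw [e1, e2] at hg4
    have h2 : (e ^ (j - n)) (g (p j x)) = p j x := by
      have := LinearMap.congr_fun hg4 x
      rwa [Module.End.mul_apply, Module.End.mul_apply] at this
    have h3 : g (p j x) ∈ gr ((i : ℤ) - (j - n : ℕ)) := by
      have := hg1 _ _ hy
      rwa [show (i : ℤ) + (((2 * n - j : ℕ) : ℤ) - n) = i - (j - n : ℕ) by omega] at this
    have h3I : g (p j x) ∈ I := hg2 _ hyI
    have h4 : p (2 * n - j) (g (p j x)) = 0 := by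
      rcases lt_or_ge i (j - n) with hi0 | hi0
      · rw [S.eq_zero_neg (by omega) h3, map_zero]
      · refine ih (i - (j - n)) (by omega) (2 * n - j) (by omega) _ ?_ h3I
        rwa [show (((i - (j - n) : ℕ) : ℤ)) = (i : ℤ) - (j - n : ℕ) by omega]
    have h5 : p j (p j x) = p j x := by rw [S.p_p, if_pos rfl]
    rw [← h5, ← h2, S.p_e_pow_of_le (by omega),
      show j - 2 * (j - n) = 2 * n - j by omega, h4, map_zero]

/-- Hard Lefschetz is injective on `I` iff `p_j I^i = 0` for `j ≥ 2 i`. -/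
theorem inj_iff : Inj n gr I e ↔ Low gr I p := ⟨S.low_of_inj, S.inj_of_low⟩

lemma surj_of_high (h : High gr p) : Surj n gr I e := by
  intro i hi y hy hyI
  let T : Submodule ℚ V := (gr i ⊓ I).map (e ^ (n + 1 - 2 * i))
  have hT : y ∈ T := by
    rw [← S.sum_ge le_rfl y]
    apply Submodule.sum_mem
    intro j _
    have hyj : p j y ∈ gr ((n : ℤ) + 1 - i) := S.p_gr _ _ _ hy
    have hyjI : p j y ∈ I := S.p_I _ _ hyI
    rcases lt_or_ge j (2 * (n + 1 - i) - 1) with hj | hj
    · rw [h (n + 1 - i) j (by omega) y (by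
        rwa [show (((n + 1 - i : ℕ) : ℤ)) = (n : ℤ) + 1 - i by omega])]
      exact T.zero_mem
    · rcases lt_or_ge (2 * n) j with hj2 | hj2
      · rw [S.p_out hj2]
        exact T.zero_mem
      obtain ⟨g, hg1, hg2, -, hg4⟩ := S.iso (2 * n - j) (by omega)
      rw [show 2 * n - (2 * n - j) = j by omega, show n - (2 * n - j) = j - n by omega] at hg4
      have h2 : (e ^ (j - n)) (g (p j y)) = p j y := by
        have := LinearMap.congr_fun hg4 y
        rwa [Module.End.mul_apply, Module.End.mul_apply] at this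
      have h3 : g (p j y) ∈ gr ((n : ℤ) + 1 - i - (j - n : ℕ)) := by
        have := hg1 _ _ hyj
        rwa [show (n : ℤ) + 1 - i + (((2 * n - j : ℕ) : ℤ) - n) = (n : ℤ) + 1 - i - (j - n : ℕ) by
          omega] at this
      refine ⟨(e ^ (j - n - (n + 1 - 2 * i))) (g (p j y)), ⟨?_, S.e_pow_I _ (hg2 _ hyjI)⟩, ?_⟩
      · have := S.e_pow_gr (j - n - (n + 1 - 2 * i)) _ h3
        rwa [show (n : ℤ) + 1 - i - (j - n : ℕ) + ((j - n - (n + 1 - 2 * i) : ℕ) : ℤ) = i by
          omega] at this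
      · rw [← Module.End.mul_apply, ← pow_add,
          show n + 1 - 2 * i + (j - n - (n + 1 - 2 * i)) = j - n by omega]
        exact h2
  obtain ⟨x, ⟨hx, hxI⟩, hxy⟩ := hT
  exact ⟨x, hx, hxI, hxy⟩

lemma high_of_surj (h : Surj n gr I e) : High gr p := by
  -- downward induction on the distance of `j` from `n`
  have key : ∀ t b : ℕ, b + t = n + 1 → ∀ (j i : ℕ), (n + b ≤ j ∨ j + b ≤ n) → j + 2 ≤ 2 * i →
      ∀ x ∈ gr i, p j x = 0 := by
    intro t
    induction t with
    | zero =>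
      intro b hb j i hj _ x _
      rcases hj with hj | hj
      · exact S.p_out (by omega) x
      · omega
    | succ t ih =>
      intro b hb
      have ih' := ih (b + 1) (by omega)
      have high : ∀ (j i : ℕ), n + b ≤ j → j + 2 ≤ 2 * i → ∀ x ∈ gr i, p j x = 0 := by
        intro j i hj hji x hx
        rcases Nat.lt_or_ge (n + b) j with hj' | hj'
        · exact ih' j i (Or.inl (by omega)) hji x hx
        have hjb : j = n + b := by omega
        rcases lt_or_ge n i with hin | hin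
        · rw [S.eq_zero_top (by exact_mod_cast hin) hx, map_zero]
        have hz : p j x ∈ gr i := S.p_gr _ _ _ hx
        have hzI : p j x ∈ I := S.hom j i (by omega) x hx
        obtain ⟨x', hx', hx'I, he⟩ := h (n + 1 - i) (by omega) (p j x) (by
          rwa [show (n : ℤ) + 1 - (n + 1 - i : ℕ) = i by omega]) hzI
        have h5 : p j (p j x) = p j x := by rw [S.p_p, if_pos rfl]
        rw [← h5, ← he]
        rcases Nat.lt_or_ge j (2 * (n + 1 - 2 * (n + 1 - i))) with hk | hk
        · exact S.p_e_pow hk x'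
        · rw [S.p_e_pow_of_le hk, ih' _ (n + 1 - i) (Or.inr (by omega)) (by omega) x' hx', map_zero]
      intro j i hj hji x hx
      rcases hj with hj | hj
      · exact high j i hj hji x hx
      · have hz : p j x ∈ gr i := S.p_gr _ _ _ hx
        refine S.inj_pow (j := j) (k := n - j) (by omega) le_rfl ?_
        rw [S.comm_pow_apply]
        refine high (j + 2 * (n - j)) (i + (n - j)) (by omega) (by omega) _ ?_
        have := S.e_pow_gr (n - j) _ hx
        rwa [show (((i + (n - j) : ℕ) : ℤ)) = (i : ℤ) + (n - j : ℕ) by push_cast; ring]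
  intro i j hj x hx
  rcases le_or_gt n j with hnj | hnj
  · exact key (n + 1) 0 (by omega) j i (Or.inl (by omega)) hj x hx
  · exact key (n + 1) 0 (by omega) j i (Or.inr (by omega)) hj x hx

/-- Hard Lefschetz is surjective on `I` iff `p_j V^i = 0` for `j ≤ 2 i - 2`. -/
theorem surj_iff : Surj n gr I e ↔ High gr p := ⟨S.high_of_surj, S.surj_of_high⟩

/-- The primitive classes of `I` are in `p_(2i-1) V^i` if `p_j I^i = 0` for `j ≥ 2 i`. -/
lemma prim_mem (h : Low gr I p) {i : ℕ} (hi : 2 * i ≤ n + 1) {x : V} (hx : x ∈ gr i)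
    (hxI : x ∈ I) (hp : (e ^ (n + 2 - 2 * i)) x = 0) : p (2 * i - 1) x = x := by
  have h1 : ∀ j, j ≠ 2 * i - 1 → p j x = 0 := by
    intro j hj
    by_cases hj2 : 2 * i ≤ j
    · exact h i j hj2 x hx hxI
    · refine S.inj_pow (j := j) (k := n + 2 - 2 * i) (by omega) (by omega) ?_
      rw [S.comm_pow_apply, hp, map_zero]
  have h2 := S.sum_ge (N := 2 * n + 2) (by omega) x
  rw [Finset.sum_eq_single (2 * i - 1) (fun j _ hj => h1 j hj)
    (fun hj => by rw [Finset.mem_range] at hj; omega)] at h2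
  exact h2

end LefSys

end Pool.Agent.HS37.BL
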