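import Mathlib

/-!
# Lifting modulo a nil ideal in degree zero

`A` is a graded ring (the grading `G` need not be exhaustive), `φ : A → E` a ring homomorphism whose
kernel in degree zero is a nil ideal.
-/

set_option autoImplicit false

namespace Pool.Agent.HS37.BL

open Finset Polynomial

/-- See the header of the file. -/
structure NilSys {A E : Type*} [Ring A] [Algebra ℚ A] [Ring E] (φ : A →+* E)
    (G : ℤ → Submodule ℚ A) : Prop where
  one : (1 : A) ∈ G 0
  mul : ∀ i j, ∀ a ∈ G i, ∀ b ∈ G j, a * b ∈ G (i + j)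
  nil : ∀ x ∈ G 0, φ x = 0 → IsNilpotent x

namespace NilSys

variable {A E : Type*} [Ring A] [Algebra ℚ A] [Ring E] {φ : A →+* E}
    {G : ℤ → Submodule ℚ A} (S : NilSys φ G)

include S

lemma mul' {i j l : ℤ} {a b : A} (ha : a ∈ G i) (hb : b ∈ G j) (h : i + j = l) : a * b ∈ G l :=
  h ▸ S.mul i j a ha b hb

lemma pow0 {x : A} (hx : x ∈ G 0) (n : ℕ) : x ^ n ∈ G 0 := by
  induction n with
  | zero => rw [pow_zero]; exact S.one
  | succ n ih => rw [pow_succ]; exact S.mul' ih hx (by ring)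

/-- An element of degree zero which is `1` modulo the kernel is invertible. -/
lemma exists_inv {x : A} (hx : x ∈ G 0) (h1 : φ x = 1) :
    ∃ y ∈ G 0, x * y = 1 ∧ y * x = 1 ∧ φ y = 1 := by
  obtain ⟨n, hn⟩ := S.nil (1 - x) (sub_mem S.one hx) (by rw [map_sub, map_one, h1, sub_self])
  have e1 := mul_neg_geom_sum (1 - x) n
  have e2 := geom_sum_mul_neg (1 - x) n
  rw [sub_sub_cancel, hn, sub_zero] at e1 e2
  refine ⟨∑ k ∈ range n, (1 - x) ^ k, sum_mem fun k _ => S.pow0 (sub_mem S.one hx) k, e1, e2, ?_⟩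
  have e3 := congrArg φ e1
  rwa [map_mul, h1, one_mul, map_one] at e3

/-- **The sign trick.** If `e x + x e` runs through the kernel in degree one as `x` runs through the
kernel in degree zero, and an element of degree zero is, modulo the kernel, an involution
anticommuting with `e`, then there is an invertible element of degree zero which anticommutes with
`e`. -/
theorem exists_tau {e τ₀ : A} (he : e ∈ G 1) (hτ : τ₀ ∈ G 0)
    (h1 : φ (τ₀ * τ₀) = 1) (h2 : φ (τ₀ * e + e * τ₀) = 0)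
    (hs : ∀ y ∈ G 1, φ y = 0 → ∃ x ∈ G 0, φ x = 0 ∧ e * x + x * e = y) :
    ∃ τ ∈ G 0, ∃ σ ∈ G 0, σ * τ = 1 ∧ τ * σ = 1 ∧ τ * e = -(e * τ) ∧ e * σ = -(σ * e) := by
  have h3 : τ₀ * e + e * τ₀ ∈ G 1 :=
    add_mem (S.mul' hτ he (by ring)) (S.mul' he hτ (by ring))
  obtain ⟨x₀, hx₀, hx₀', hx₀''⟩ := hs (-(τ₀ * e + e * τ₀)) (neg_mem h3)
    (by rw [map_neg, h2, neg_zero])
  obtain ⟨τ, hτd⟩ : ∃ τ, τ = τ₀ + x₀ := ⟨_, rfl⟩
  have hτm : τ ∈ G 0 := hτd ▸ add_mem hτ hx₀
  have hanti : τ * e = -(e * τ) := by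
    have : τ * e + e * τ = 0 := by
      rw [hτd]
      calc (τ₀ + x₀) * e + e * (τ₀ + x₀) = (τ₀ * e + e * τ₀) + (e * x₀ + x₀ * e) := by noncomm_ring
        _ = 0 := by rw [hx₀'', add_neg_cancel]
    exact eq_neg_of_add_eq_zero_left this
  have hφτ : φ τ = φ τ₀ := by rw [hτd, map_add, hx₀', add_zero]
  obtain ⟨s, hs0, hs1, hs2, hs3⟩ := S.exists_inv (x := τ * τ) (S.mul' hτm hτm (by ring))
    (by rw [map_mul, hφτ, ← map_mul, h1])
  -- the inverse of `τ`
  have hsτ : s * τ = τ * s := by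
    calc s * τ = s * τ * (τ * τ * s) := by rw [hs1, mul_one]
      _ = (s * (τ * τ)) * (τ * s) := by noncomm_ring
      _ = τ * s := by rw [hs2, one_mul]
  obtain ⟨σ, hσ⟩ : ∃ σ, σ = s * τ := ⟨_, rfl⟩
  have k1 : σ * τ = 1 := by rw [hσ, mul_assoc, hs2]
  have k2 : τ * σ = 1 := by rw [hσ, hsτ, ← mul_assoc, hs1]
  have hσm : σ ∈ G 0 := hσ ▸ S.mul' hs0 hτm (by ring)
  have k3 : e * σ = -(σ * e) := by
    calc e * σ = σ * τ * (e * σ) := by rw [k1, one_mul]
      _ = σ * (τ * e) * σ := by noncomm_ring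
      _ = -(σ * e * (τ * σ)) := by rw [hanti]; noncomm_ring
      _ = -(σ * e) := by rw [k2, mul_one]
  exact ⟨τ, hτm, σ, hσm, k1, k2, hanti, k3⟩

/-- Also `x e - e x` runs through the kernel in degree one. -/
theorem minus_surj {e τ₀ : A} (he : e ∈ G 1) (hτ : τ₀ ∈ G 0)
    (h1 : φ (τ₀ * τ₀) = 1) (h2 : φ (τ₀ * e + e * τ₀) = 0)
    (hs : ∀ y ∈ G 1, φ y = 0 → ∃ x ∈ G 0, φ x = 0 ∧ e * x + x * e = y) :
    ∀ y ∈ G 1, φ y = 0 → ∃ x ∈ G 0, φ x = 0 ∧ x * e - e * x = y := by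
  obtain ⟨τ, hτm, σ, hσm, k1, k2, hanti, k3⟩ := S.exists_tau he hτ h1 h2 hs
  intro y hy hy0
  obtain ⟨x, hx, hx0, hx1⟩ := hs (τ * y) (S.mul' hτm hy (by ring))
    (by rw [map_mul, hy0, mul_zero])
  refine ⟨σ * x, S.mul' hσm hx (by ring), by rw [map_mul, hx0, mul_zero], ?_⟩
  calc σ * x * e - e * (σ * x) = σ * x * e - (e * σ) * x := by noncomm_ring
    _ = σ * (e * x + x * e) := by rw [k3]; noncomm_ring
    _ = y := by rw [hx1, ← mul_assoc, k1, one_mul]

/-- If `e x + x e = 0` only for `x = 0` in the kernel in degree zero, then also `x e = e x` only for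
`x = 0`. -/
theorem minus_inj {e τ₀ : A} (he : e ∈ G 1) (hτ : τ₀ ∈ G 0)
    (h1 : φ (τ₀ * τ₀) = 1) (h2 : φ (τ₀ * e + e * τ₀) = 0)
    (hs : ∀ y ∈ G 1, φ y = 0 → ∃ x ∈ G 0, φ x = 0 ∧ e * x + x * e = y)
    (hi : ∀ x ∈ G 0, φ x = 0 → e * x + x * e = 0 → x = 0) :
    ∀ x ∈ G 0, φ x = 0 → x * e = e * x → x = 0 := by
  obtain ⟨τ, hτm, σ, hσm, k1, k2, hanti, k3⟩ := S.exists_tau he hτ h1 h2 hs
  intro x hx hx0 hxe
  have h3 : τ * x = 0 := by
    refine hi _ (S.mul' hτm hx (by ring)) (by rw [map_mul, hx0, mul_zero]) ?_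
    calc e * (τ * x) + τ * x * e = (e * τ) * x + τ * (x * e) := by noncomm_ring
      _ = (e * τ + τ * e) * x := by rw [hxe]; noncomm_ring
      _ = 0 := by rw [hanti]; noncomm_ring
  calc x = σ * (τ * x) := by rw [← mul_assoc, k1, one_mul]
    _ = 0 := by rw [h3, mul_zero]

/-- The correction of `h₀`. -/
theorem exists_h {e h₀ τ₀ : A} (he : e ∈ G 1) (hh : h₀ ∈ G 0) (hτ : τ₀ ∈ G 0)
    (h0 : φ (h₀ * e - e * h₀) = φ (2 * e))
    (h1 : φ (τ₀ * τ₀) = 1) (h2 : φ (τ₀ * e + e * τ₀) = 0)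
    (hs : ∀ y ∈ G 1, φ y = 0 → ∃ x ∈ G 0, φ x = 0 ∧ e * x + x * e = y) :
    ∃ h ∈ G 0, φ h = φ h₀ ∧ h * e - e * h = 2 * e := by
  have h3 : 2 * e - (h₀ * e - e * h₀) ∈ G 1 := by
    refine sub_mem ?_ (sub_mem (S.mul' hh he (by ring)) (S.mul' he hh (by ring)))
    rw [two_mul]
    exact add_mem he he
  obtain ⟨x, hx, hx0, hx1⟩ := S.minus_surj he hτ h1 h2 hs _ h3
    (by rw [map_sub, h0, sub_self])
  refine ⟨h₀ + x, add_mem hh hx, by rw [map_add, hx0, add_zero], ?_⟩
  calc (h₀ + x) * e - e * (h₀ + x) = (h₀ * e - e * h₀) + (x * e - e * x) := by noncomm_ring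
    _ = 2 * e := by rw [hx1]; abel

/-- Lifting of idempotents. -/
theorem lift_proj (R : Subalgebra ℚ A) (hR : ∀ x ∈ R, x ∈ G 0) (N : ℕ) (p : ℕ → A)
    (hp : ∀ i, p i ∈ R) (hout : ∀ i, N ≤ i → φ (p i) = 0)
    (hmul : ∀ i j, φ (p i) * φ (p j) = if i = j then φ (p i) else 0)
    (hsum : ∑ i ∈ range N, φ (p i) = 1) :
    ∃ P : ℕ → A, (∀ i, P i ∈ R) ∧ (∀ i, N ≤ i → P i = 0) ∧
      (∀ i j, P i * P j = if i = j then P i else 0) ∧ ∑ i ∈ range N, P i = 1 ∧
      ∀ i, φ (P i) = φ (p i) := by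
  classical
  let f : R →+* E := φ.comp (R.val : R →+* A)
  have hf : ∀ x : R, f x = φ x := fun x => rfl
  have hker : ∀ x ∈ RingHom.ker f, IsNilpotent x := by
    intro x hx
    obtain ⟨n, hn⟩ := S.nil x (hR _ x.2) hx
    exact ⟨n, Subtype.ext (by simpa using hn)⟩
  have hco : CompleteOrthogonalIdempotents fun i : Fin N => φ (p i) := by
    refine ⟨OrthogonalIdempotents.iff_mul_eq.2 fun i j => ?_, ?_⟩
    · rw [hmul]
      simp only [Fin.ext_iff]
    · rw [← hsum, Finset.sum_range]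
  obtain ⟨e', h1, h2⟩ := CompleteOrthogonalIdempotents.lift_of_isNilpotent_ker f hker hco
    (fun i => ⟨⟨p i, hp i⟩, rfl⟩)
  have h2' : ∀ i : Fin N, φ (e' i) = φ (p i) := fun i => congrFun h2 i
  refine ⟨fun n => if h : n < N then (e' ⟨n, h⟩ : A) else 0, ?_, ?_, ?_, ?_, ?_⟩
  · intro i
    beta_reduce
    split_ifs with h
    · exact (e' ⟨i, h⟩).2
    · exact R.zero_mem
  · intro i hi
    exact dif_neg (by omega)
  · intro i j
    beta_reduce
    by_cases hi : i < N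
    · by_cases hj : j < N
      · rw [dif_pos hi, dif_pos hj]
        have h3 := h1.toOrthogonalIdempotents.mul_eq ⟨i, hi⟩ ⟨j, hj⟩
        have h4 := congrArg (fun x : R => (x : A)) h3
        simp only [Fin.mk.injEq, MulMemClass.coe_mul] at h4
        rw [h4]
        split_ifs <;> rfl
      · rw [dif_neg hj, mul_zero]
        split_ifs with hij
        · omega
        · rfl
    · rw [dif_neg hi, zero_mul]
      split_ifs <;> rfl
  · rw [Finset.sum_range]
    have h3 := congrArg (fun x : R => (x : A)) h1.complete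
    simp only [AddSubmonoidClass.coe_finsetSum, OneMemClass.coe_one] at h3
    rw [← h3]
    refine Finset.sum_congr rfl fun i _ => ?_
    rw [dif_pos i.2]
  · intro i
    beta_reduce
    split_ifs with h
    · exact h2' ⟨i, h⟩
    · rw [map_zero, hout i (by omega)]

omit [Algebra ℚ A] [Ring E] S in
lemma _root_.Pool.Agent.HS37.BL.eq_zero_of_coprime {A : Type*} [Ring A] [Algebra ℚ A] {a y : A}
    {p q : ℚ[X]} (h : IsCoprime p q) (hp : aeval a p * y = 0) (hq : aeval a q * y = 0) : y = 0 := by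
  obtain ⟨u, v, huv⟩ := h
  have h1 := congrArg (fun r => aeval a r * y) huv
  simp only [map_add, map_mul, map_one, one_mul, add_mul, mul_assoc, hp, hq, mul_zero,
    add_zero] at h1
  exact h1.symm

/-- **Homogeneity of the lifted idempotents.** If `[h, e] = 2 e`, and the idempotents `P i` are
polynomials in `h` with `(h - (i - c)) P i` in the kernel, then `e P i = P (i + 2) e`. -/
theorem homog {e h : A} {c : ℤ} (hh : h ∈ G 0) (heq : h * e - e * h = 2 * e) {N : ℕ} {P : ℕ → A}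
    (hP : ∀ i, P i ∈ Algebra.adjoin ℚ {h}) (hout : ∀ i, N ≤ i → P i = 0)
    (hmul : ∀ i j, P i * P j = if i = j then P i else 0) (hsum : ∑ i ∈ range N, P i = 1)
    (hw : ∀ i : ℕ, φ ((h - (((i : ℤ) - c : ℤ) : A)) * P i) = 0) (n : ℕ) :
    e * P n = P (n + 2) * e := by
  have hcomm : ∀ i, Commute h (P i) := fun i => by
    have : P i ∈ Algebra.adjoin ℚ {h} := hP i
    exact Algebra.commute_of_mem_adjoin_singleton_of_commute this (Commute.refl h)
  have hPm : ∀ i, P i ∈ G 0 := by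
    intro i
    let R : Subalgebra ℚ A :=
      { carrier := {x | x ∈ G 0}
        mul_mem' := fun ha hb => S.mul' ha hb (by ring)
        add_mem' := fun ha hb => (G 0).add_mem ha hb
        algebraMap_mem' := fun q => by
          change algebraMap ℚ A q ∈ G 0
          rw [Algebra.algebraMap_eq_smul_one]
          exact (G 0).smul_mem q S.one }
    exact (Algebra.adjoin_le (Set.singleton_subset_iff.2 hh) : Algebra.adjoin ℚ {h} ≤ R) (hP i)
  -- `(h - i) ^ m P i = 0`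
  have hnil : ∀ i : ℕ, ∃ m : ℕ, (h - (((i : ℤ) - c : ℤ) : A)) ^ m * P i = 0 := by
    intro i
    have hm : h - (((i : ℤ) - c : ℤ) : A) ∈ G 0 := by
      refine sub_mem hh ?_
      rw [← zsmul_one]
      exact zsmul_mem S.one _
    obtain ⟨m, hm'⟩ := S.nil _ (S.mul' hm (hPm i) (by ring)) (hw i)
    refine ⟨m + 1, ?_⟩
    have hc : Commute (h - (((i : ℤ) - c : ℤ) : A)) (P i) :=
      (hcomm i).sub_left (Int.cast_commute _ _)
    have hid : ∀ r : ℕ, P i ^ (r + 1) = P i := by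
      intro r
      induction r with
      | zero => rw [zero_add, pow_one]
      | succ r ih => rw [pow_succ, ih, hmul, if_pos rfl]
    rw [← hid m, ← hc.mul_pow, pow_succ, hm', zero_mul]
  have hsemi : ∀ (l : ℤ) (m : ℕ), (h - ((l + 2 : ℤ) : A)) ^ m * e = e * (h - (l : A)) ^ m := by
    intro l m
    have h1 : SemiconjBy e (h - (l : A)) (h - ((l + 2 : ℤ) : A)) := by
      change e * (h - (l : A)) = (h - ((l + 2 : ℤ) : A)) * e
      have h2 : h * e = e * h + 2 * e := by rw [← heq]; abel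
      have h3 : e * (l : A) = (l : A) * e := (Int.cast_commute l e).symm
      rw [sub_mul, h2, mul_sub, h3]
      push_cast
      noncomm_ring
    exact (h1.pow_right m).eq.symm
  have haev : ∀ (l : ℤ) (m : ℕ), aeval h ((X - C (l : ℚ)) ^ m) = (h - (l : A)) ^ m := by
    intro l m
    simp
  -- `P k e P j = 0` for `k ≠ j + 2`
  have hz : ∀ k j : ℕ, k ≠ j + 2 → P k * e * P j = 0 := by
    intro k j hkj
    obtain ⟨m, hm⟩ := hnil k
    obtain ⟨m', hm'⟩ := hnil j
    have hcop : IsCoprime ((X - C ((((k : ℤ) - c : ℤ)) : ℚ)) ^ m)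
        ((X - C (((((j : ℤ) - c) + 2 : ℤ)) : ℚ)) ^ m') := by
      refine IsCoprime.pow (Polynomial.isCoprime_X_sub_C_of_isUnit_sub ?_)
      rw [isUnit_iff_ne_zero, sub_ne_zero]
      intro h1
      have : (k : ℤ) - c = (j : ℤ) - c + 2 := by exact_mod_cast h1
      omega
    refine eq_zero_of_coprime (a := h) hcop ?_ ?_
    · rw [haev, ← mul_assoc, ← mul_assoc, hm, zero_mul, zero_mul]
    · rw [haev]
      have hc : Commute ((h - ((((j : ℤ) - c) + 2 : ℤ) : A)) ^ m') (P k) :=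
        ((hcomm k).sub_left (Int.cast_commute _ _)).pow_left _
      rw [← mul_assoc, ← mul_assoc, hc.eq, mul_assoc (P k), hsemi, mul_assoc, mul_assoc, hm',
        mul_zero, mul_zero]
  calc e * P n = (∑ k ∈ range N, P k) * (e * P n) := by rw [hsum, one_mul]
    _ = P (n + 2) * (e * P n) := by
      rw [Finset.sum_mul]
      by_cases hn : n + 2 < N
      · rw [Finset.sum_eq_single (n + 2)]
        · intro k _ hk
          rw [← mul_assoc]
          exact hz k n hk
        · intro h1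
          exact absurd (Finset.mem_range.2 hn) h1
      · rw [hout (n + 2) (by omega), zero_mul]
        refine Finset.sum_eq_zero fun k hk => ?_
        rw [Finset.mem_range] at hk
        rw [← mul_assoc]
        exact hz k n (by omega)
    _ = (P (n + 2) * e) * (∑ k ∈ range N, P k) := by
      rw [Finset.mul_sum]
      by_cases hn : n < N
      · rw [Finset.sum_eq_single n]
        · rw [mul_assoc]
        · intro k _ hk
          exact hz (n + 2) k (by omega)
        · intro h1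
          exact absurd (Finset.mem_range.2 hn) h1
      · rw [hout n (by omega), mul_zero, mul_zero]
        symm
        refine Finset.sum_eq_zero fun k hk => ?_
        rw [Finset.mem_range] at hk
        exact hz (n + 2) k (by omega)
    _ = P (n + 2) * e := by rw [hsum, mul_one]

/-- **Lifting of isomorphisms.** -/
theorem lift_iso {L P Q g₀ : A} {r : ℤ} (hL : L ∈ G r) (hP : P ∈ G 0) (hQ : Q ∈ G 0)
    (hPP : P * P = P) (hQQ : Q * Q = Q) (hLP : L * P = Q * L) (hg : g₀ ∈ G (-r))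
    (h1 : φ (g₀ * L * P) = φ P) (h2 : φ (L * g₀ * Q) = φ Q) :
    ∃ g ∈ G (-r), g * (L * P) = P ∧ L * (g * Q) = Q := by
  have n1 : P * g₀ ∈ G (-r) := S.mul' hP hg (by ring)
  have n2 : P * g₀ * L ∈ G 0 := S.mul' n1 hL (by ring)
  have n3 : P * g₀ * L * P ∈ G 0 := S.mul' n2 hP (by ring)
  have n4 : Q * L ∈ G r := S.mul' hQ hL (by ring)
  have n5 : Q * L * g₀ ∈ G 0 := S.mul' n4 hg (by ring)
  have n6 : Q * L * g₀ * Q ∈ G 0 := S.mul' n5 hQ (by ring)
  have m1 : P * g₀ * L * P + (1 - P) ∈ G 0 := add_mem n3 (sub_mem S.one hP)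
  have m2 : Q * L * g₀ * Q + (1 - Q) ∈ G 0 := add_mem n6 (sub_mem S.one hQ)
  have f1 : φ (P * g₀ * L * P + (1 - P)) = 1 := by
    rw [map_add, map_sub, map_one, show P * g₀ * L * P = P * (g₀ * L * P) by noncomm_ring,
      map_mul, h1, ← map_mul, hPP]
    abel
  have f2 : φ (Q * L * g₀ * Q + (1 - Q)) = 1 := by
    rw [map_add, map_sub, map_one, show Q * L * g₀ * Q = Q * (L * g₀ * Q) by noncomm_ring,
      map_mul, h2, ← map_mul, hQQ]
    abel
  obtain ⟨y₁, hy₁, -, a1, -⟩ := S.exists_inv m1 f1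
  obtain ⟨y₂, hy₂, a2, -, -⟩ := S.exists_inv m2 f2
  have b1 : y₁ * P * g₀ * (L * P) = P := by
    calc y₁ * P * g₀ * (L * P) = y₁ * (P * g₀ * L * (P * P) + (P - P * P)) := by
          rw [hPP, sub_self, add_zero]; noncomm_ring
      _ = y₁ * (P * g₀ * L * P + (1 - P)) * P := by noncomm_ring
      _ = P := by rw [a1, one_mul]
  have b2 : L * (P * g₀ * Q * y₂) = Q := by
    calc L * (P * g₀ * Q * y₂) = (L * P) * g₀ * Q * y₂ := by noncomm_ring
      _ = ((Q * Q) * L * g₀ * Q + (Q - Q * Q)) * y₂ := by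
          rw [hLP, hQQ, sub_self, add_zero]
      _ = Q * ((Q * L * g₀ * Q + (1 - Q)) * y₂) := by noncomm_ring
      _ = Q := by rw [a2, mul_one]
  refine ⟨P * g₀ * Q * y₂, S.mul' (S.mul' n1 hQ (by ring)) hy₂ (by ring : -r + 0 = -r), ?_, ?_⟩
  · calc P * g₀ * Q * y₂ * (L * P) = P * (P * g₀ * Q * y₂) * (L * P) := by
          rw [← mul_assoc P (P * g₀ * Q), ← mul_assoc P (P * g₀), ← mul_assoc P P, hPP]
      _ = (y₁ * P * g₀ * (L * P)) * (P * g₀ * Q * y₂) * (L * P) := by rw [b1]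
      _ = y₁ * P * g₀ * (L * (P * P * g₀ * Q * y₂)) * (L * P) := by noncomm_ring
      _ = y₁ * P * g₀ * (Q * (L * P)) := by rw [hPP, b2]; noncomm_ring
      _ = y₁ * P * g₀ * (L * P) := by rw [hLP, ← mul_assoc Q Q, hQQ]
      _ = P := b1
  · rw [← mul_assoc, b2, hQQ]

end NilSys

end Pool.Agent.HS37.BL
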