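import Pool.Agent.HS37.BL.Prod2
import Pool.Agent.HS37.BL.ClassDefs
import Pool.Agent.HS37.BL.Defs

/-!
# Consequences of hard Lefschetz for the homologically trivial cycles on a product
-/

open CategoryTheory AlgebraicGeometry

set_option autoImplicit false

universe u v w

namespace Pool.Agent.HS37.BL

open Pool.Agent.H914 Pool.Agent.H914.VarClass Pool.Agent.H914.VarClass.Obj Pool.Agent.W492.BB
  Pool.Agent.W550.Corr Pool.Agent.TH133 Pool.Agent.Y107

set_option linter.unusedSectionVars false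

variable {k : Type u} [Field k] {𝒱 : VarClass k} {C : TheoryData.{u, v, 0} 𝒱 ℚ}
  [hC : IsChowProj C] {K : Type w} [Field K] {H : WeilTheoryData.{u, v, w} C K}
  [hH : IsWeilProj H] {X Y : 𝒱.Obj}

include hC hH

/-- Homologically trivial cycles of codimension `≤ 0` are zero. -/
lemma eq_zero_of_nonpos {i : ℤ} (hi : i ≤ 0) {x : C.A X} (hx : C.Deg i x) (h : H.cl x = 0) :
    x = 0 := by
  rcases lt_or_eq_of_le hi with h1 | h1
  · have hx' : x ∈ C.gr X i := hx
    rw [C.gr_neg X i h1] at hx'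
    exact (Submodule.mem_bot _).1 hx'
  · subst h1
    exact eq_zero_of_deg_zero (H := H) hx h

omit hH in
/-- Pull-back to a product is injective. -/
lemma ext_one_inj {x : C.A X} (h : C.ext x (1 : C.A Y) = 0) : x = 0 := by
  obtain ⟨a, -, h1, -⟩ := exists_deg_one C Y
  have h2 := congrArg (fun z => C.push (fst X Y) (z * C.pull (snd X Y) a)) h
  rw [ext_one_right] at h2
  simp only [C.proj_left, h1, mul_one, zero_mul, map_zero] at h2
  exact h2

omit hH in
lemma one_ext_inj {y : C.A Y} (h : C.ext (1 : C.A X) y = 0) : y = 0 := by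
  obtain ⟨a, -, -, h1⟩ := exists_deg_one C X
  have h2 := congrArg (fun z => C.push (snd X Y) (z * C.pull (fst X Y) a)) h
  rw [ext_one_left] at h2
  simp only [C.proj_left, h1, mul_one, zero_mul, map_zero] at h2
  exact h2

/-- The action of a Chow-Kunneth decomposition on the fundamental class. -/
lemma act_one {π : ℕ → C.A (X.prod X)} (h : IsCK H X π) (j : ℕ) :
    C.act (π j) (1 : C.A X) = if j = 0 then 1 else 0 := by
  have h1 : (1 : C.A X) ∈ C.gr X 0 := C.one_mem X
  have h2 : C.act (π j) (1 : C.A X) ∈ C.gr X 0 := act_mem0 C (h.deg j) h1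
  have h3 := cl_act_proj (H := H) h j h1
  split_ifs with hj
  · subst hj
    rw [if_pos (by norm_num)] at h3
    rw [← sub_eq_zero]
    refine eq_zero_of_deg_zero (H := H) (Submodule.sub_mem _ h2 h1) ?_
    rw [map_sub, h3, sub_self]
  · rw [if_neg (by omega)] at h3
    exact eq_zero_of_deg_zero (H := H) h2 h3

omit hH in
lemma act_prodCK_ext {π : ℕ → C.A (X.prod X)} {ρ : ℕ → C.A (Y.prod Y)} (n : ℕ) (x : C.A X)
    (y : C.A Y) : C.act (prodCK C π ρ n) (C.ext x y) =
      ∑ i ∈ Finset.range (n + 1), C.ext (C.act (π i) x) (C.act (ρ (n - i)) y) := by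
  unfold prodCK
  rw [act_sum]
  refine Finset.sum_congr rfl fun i _ => ?_
  exact act_tens_ext C _ _ (fun f c => ch_comm C _ _) x y

omit hH in
lemma act_prodCK {π : ℕ → C.A (X.prod X)} {ρ : ℕ → C.A (Y.prod Y)} (n : ℕ)
    (Γ : C.A (X.prod Y)) : C.act (prodCK C π ρ n) Γ =
      ∑ i ∈ Finset.range (n + 1), C.comp (C.comp (tp C (π i)) Γ) (ρ (n - i)) := by
  unfold prodCK
  rw [act_sum]
  refine Finset.sum_congr rfl fun i _ => ?_
  exact act_tens C (ch_comm C) _ _ _

/-- A class `x ∈ CH^i(X)` fixed by `π_(2i-1)` is homologous to zero. -/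
lemma cl_of_fixed {π : ℕ → C.A (X.prod X)} (h : IsCK H X π) {i : ℕ} {x : C.A X}
    (hx : C.Deg ((i : ℤ) + 1) x) (hf : C.act (π (2 * i + 1)) x = x) : H.cl x = 0 := by
  rw [← hf, cl_act_proj h _ hx, if_neg (by omega)]

section pair

variable {π : ℕ → C.A (X.prod X)} (hπ : IsCK H X π) (hs : IsSelfDual C π)
  {ρ : ℕ → C.A (Y.prod Y)} (hρ : IsCK H Y ρ) (hp : HomPure H (prodCK C π ρ))

include hπ hρ hp

lemma homPure_left : HomPure H π := by
  intro i x hx
  refine ⟨fun h0 => ?_, fun h0 => cl_of_fixed hπ hx h0⟩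
  have h1 : C.Deg ((i : ℤ) + 1) (C.ext x (1 : C.A Y)) := by
    rw [ext_one_right]
    exact C.pull_mem _ hx
  have h2 : H.cl (C.ext x (1 : C.A Y)) = 0 := by
    rw [ext_one_right, H.cl_pull, h0, map_zero]
  have h3 := (hp i _ h1).1 h2
  rw [act_prodCK_ext, Finset.sum_eq_single (2 * i + 1)] at h3
  · rw [Nat.sub_self, act_one hρ, if_pos rfl] at h3
    rw [← sub_eq_zero]
    apply ext_one_inj (Y := Y)
    have h4 : C.ext (C.act (π (2 * i + 1)) x - x) (1 : C.A Y) =
        C.ext (C.act (π (2 * i + 1)) x) 1 - C.ext x 1 := by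
      rw [ext_one_right, ext_one_right, ext_one_right, map_sub]
    rw [h4, h3, sub_self]
  · intro j hj hne
    rw [Finset.mem_range] at hj
    rw [act_one hρ, if_neg (by omega), C.ext_zero_right]
  · intro h4
    exact absurd (Finset.mem_range.2 (by omega)) h4

lemma homPure_right : HomPure H ρ := by
  intro i x hx
  refine ⟨fun h0 => ?_, fun h0 => cl_of_fixed hρ hx h0⟩
  have h1 : C.Deg ((i : ℤ) + 1) (C.ext (1 : C.A X) x) := by
    rw [ext_one_left]
    exact C.pull_mem _ hx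
  have h2 : H.cl (C.ext (1 : C.A X) x) = 0 := by
    rw [ext_one_left, H.cl_pull, h0, map_zero]
  have h3 := (hp i _ h1).1 h2
  rw [act_prodCK_ext, Finset.sum_eq_single 0] at h3
  · rw [Nat.sub_zero, act_one hπ, if_pos rfl] at h3
    rw [← sub_eq_zero]
    apply one_ext_inj (X := X)
    have h4 : C.ext (1 : C.A X) (C.act (ρ (2 * i + 1)) x - x) =
        C.ext 1 (C.act (ρ (2 * i + 1)) x) - C.ext 1 x := by
      rw [ext_one_left, ext_one_left, ext_one_left, map_sub]
    rw [h4, h3, sub_self]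
  · intro j hj hne
    rw [act_one hπ, if_neg hne, C.ext_zero_left]
  · intro h4
    exact absurd (Finset.mem_range.2 (by omega)) h4

/-- External products of homologically trivial cycles vanish. -/
lemma externalZero : ExternalZero H X Y := by
  rintro i j x y ⟨hx, hx0⟩ ⟨hy, hy0⟩
  rcases le_or_gt i 0 with hi | hi
  · rw [eq_zero_of_nonpos (H := H) hi hx hx0, C.ext_zero_left]
  rcases le_or_gt j 0 with hj | hj
  · rw [eq_zero_of_nonpos (H := H) hj hy hy0, C.ext_zero_right]
  obtain ⟨a, ha⟩ := Int.eq_ofNat_of_zero_le (show 0 ≤ i - 1 by omega)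
  obtain ⟨b, hb⟩ := Int.eq_ofNat_of_zero_le (show 0 ≤ j - 1 by omega)
  obtain rfl : i = (a : ℤ) + 1 := by omega
  obtain rfl : j = (b : ℤ) + 1 := by omega
  have h1 := (homPure_left hπ hρ hp a x hx).1 hx0
  have h2 := (homPure_right hπ hρ hp b y hy).1 hy0
  have h3 : C.Deg (((a + b + 1 : ℕ) : ℤ) + 1) (C.ext x y) := by
    have := ext_mem' (C := C) hx hy
    rwa [show (a : ℤ) + 1 + ((b : ℤ) + 1) = ((a + b + 1 : ℕ) : ℤ) + 1 by push_cast; ring] at this
  have h4 : H.cl (C.ext x y) = 0 := by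
    rw [TheoryData.ext, map_mul, H.cl_pull, hx0, map_zero, zero_mul]
  rw [← (hp _ _ h3).1 h4, act_prodCK_ext]
  apply Finset.sum_eq_zero
  intro l hl
  rw [Finset.mem_range] at hl
  by_cases h5 : l = 2 * a + 1
  · have h6 : C.act (ρ (2 * (a + b + 1) + 1 - l)) y = 0 := by
      rw [← h2, ← C.act_comp, hρ.comp_eq, if_neg (by omega)]
      exact C.act_zero y
    rw [h6, C.ext_zero_right]
  · have h6 : C.act (π l) x = 0 := by
      rw [← h1, ← C.act_comp, hπ.comp_eq, if_neg (by omega)]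
      exact C.act_zero x
    rw [h6, C.ext_zero_left]

include hs

/-- Homologically trivial correspondences of degree `c` map `h^l` to `h^(l+2c-1)`. -/
lemma block_zero {c : ℤ} {f : C.A (X.prod Y)} (hf : C.Deg ((X.dim : ℤ) + c) f) (hf0 : H.cl f = 0)
    {l m : ℕ} (hlm : (m : ℤ) ≠ l + 2 * c - 1) : C.comp (C.comp (π l) f) (ρ m) = 0 := by
  rcases le_or_gt ((X.dim : ℤ) + c) 0 with h1 | h1
  · rw [eq_zero_of_nonpos (H := H) h1 hf hf0, comp_zero C, zero_comp C]
  obtain ⟨i, hi⟩ := Int.eq_ofNat_of_zero_le (show 0 ≤ (X.dim : ℤ) + c - 1 by omega)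
  have hf' : C.Deg ((i : ℤ) + 1) f := by
    rwa [show (i : ℤ) + 1 = X.dim + c by omega]
  have h2 := (hp i f hf').1 hf0
  rw [← h2, act_prodCK, comp_sum, sum_comp]
  apply Finset.sum_eq_zero
  intro j hj
  rw [Finset.mem_range] at hj
  have e1 : C.comp (C.comp (π l) (C.comp (C.comp (tp C (π j)) f) (ρ (2 * i + 1 - j)))) (ρ m) =
      C.comp (C.comp (C.comp (π l) (tp C (π j))) f) (C.comp (ρ (2 * i + 1 - j)) (ρ m)) := by
    rw [← comp_assoc C (π l) (C.comp (tp C (π j)) f), comp_assoc C _ (ρ (2 * i + 1 - j)) (ρ m),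
      ← comp_assoc C (π l) (tp C (π j)) f]
  rw [e1, hρ.comp_eq]
  split_ifs with h3
  · rcases le_or_gt j (2 * X.dim) with h4 | h4
    · rw [hs j h4, hπ.comp_eq, if_neg (by omega), zero_comp C, zero_comp C]
    · rw [hπ.out j h4, tp_zero, comp_zero C, zero_comp C, zero_comp C]
  · rw [comp_zero C]

/-- Homologically trivial correspondences act as zero on homologically trivial cycles. -/
lemma act_hom_zero {e : ℤ} {Γ : C.A (X.prod Y)} (hΓ : C.Deg e Γ) (hΓ0 : H.cl Γ = 0) {i : ℤ}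
    {x : C.A X} (hx : C.Deg i x) (hx0 : H.cl x = 0) : C.act Γ x = 0 := by
  rcases le_or_gt i 0 with hi | hi
  · rw [eq_zero_of_nonpos (H := H) hi hx hx0, TheoryData.act_map_zero]
  obtain ⟨c, rfl⟩ : ∃ c, e = (X.dim : ℤ) + c := ⟨e - X.dim, by ring⟩
  have hy : C.Deg (i + c) (C.act Γ x) := act_mem' C hΓ hx
  have hy0 : H.cl (C.act Γ x) = 0 := by rw [cl_act H, hx0, TheoryData.act_map_zero]
  rcases le_or_gt (i + c) 0 with hi' | hi'
  · exact eq_zero_of_nonpos (H := H) hi' hy hy0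
  obtain ⟨a, ha⟩ := Int.eq_ofNat_of_zero_le (show 0 ≤ i - 1 by omega)
  obtain ⟨b, hb⟩ := Int.eq_ofNat_of_zero_le (show 0 ≤ i + c - 1 by omega)
  obtain rfl : i = (a : ℤ) + 1 := by omega
  have h1 := (homPure_left hπ hρ hp a x hx).1 hx0
  have h2 := (homPure_right hπ hρ hp b (C.act Γ x) (by
    rwa [show (b : ℤ) + 1 = (a : ℤ) + 1 + c by omega])).1 hy0
  have h3 := block_zero hπ hs hρ hp hΓ hΓ0 (l := 2 * a + 1) (m := 2 * b + 1) (by omega)
  have h4 := congrArg (fun z => C.act z x) h3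
  simp only [C.act_comp] at h4
  rw [h1, h2, C.act_zero] at h4
  exact h4

/-- The action on homologically trivial cycles factors through the cohomology. -/
lemma actsByCohomology : ActsByCohomology H X Y := by
  rintro e i Γ hΓ hk x ⟨hx, hx0⟩
  rcases Nat.eq_zero_or_pos i with hi | hi
  · subst hi
    rw [eq_zero_of_deg_zero (H := H) hx hx0, TheoryData.act_map_zero]
  obtain ⟨a, rfl⟩ : ∃ a, i = a + 1 := ⟨i - 1, by omega⟩
  have hx' : C.Deg ((a : ℤ) + 1) x := by
    rwa [show (a : ℤ) + 1 = ((a + 1 : ℕ) : ℤ) by push_cast; ring]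
  have h1 := (homPure_left hπ hρ hp a x hx').1 hx0
  obtain ⟨c, rfl⟩ : ∃ c, e = (X.dim : ℤ) + c := ⟨e - X.dim, by ring⟩
  have h2 : C.Deg ((X.dim : ℤ) + (0 + c)) (C.comp (π (2 * a + 1)) Γ) :=
    comp_mem C (by rw [add_zero]; exact hπ.deg _) hΓ
  have h3 : H.cl (C.comp (π (2 * a + 1)) Γ) = 0 := by
    apply hom_zero_of_act H
    have h4 : H.actL (H.cl (C.comp (π (2 * a + 1)) Γ)) = 0 := by
      apply ext_gr H
      intro m b hb
      change H.act (H.cl (C.comp (π (2 * a + 1)) Γ)) b = 0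
      rw [actH_comp, hπ.actH_eq _ _ hb]
      split_ifs with hm
      · apply hk
        rw [show (2 * ((a + 1 : ℕ) : ℤ) - 1) = m by rw [hm]; push_cast; ring]
        exact hb
      · exact TheoryData.act_map_zero _ _
    exact fun b => LinearMap.congr_fun h4 b
  have h4 := act_hom_zero hπ hs hρ hp h2 h3 hx hx0
  rwa [C.act_comp, h1] at h4

end pair

/-- Compositions of homologically trivial self-correspondences vanish. -/
lemma compositionsZero {π : ℕ → C.A (X.prod X)} (hπ : IsCK H X π) (hs : IsSelfDual C π)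
    (hp : HomPure H (prodCK C π π)) : CompositionsZero H X := by
  rintro i j f g ⟨hf, hf0⟩ ⟨hg, hg0⟩
  obtain ⟨c, rfl⟩ : ∃ c, i = (X.dim : ℤ) + c := ⟨i - X.dim, by ring⟩
  obtain ⟨c', rfl⟩ : ∃ c, j = (X.dim : ℤ) + c := ⟨j - X.dim, by ring⟩
  have hw : C.Deg ((X.dim : ℤ) + (c + c')) (C.comp f g) := comp_mem C hf hg
  have hw0 : H.cl (C.comp f g) = 0 := by
    apply hom_zero_of_act H
    intro b
    rw [actH_comp, hf0, TheoryData.act_zero, TheoryData.act_map_zero]
  have key : ∀ l m : ℕ, C.comp (C.comp (π l) (C.comp f g)) (π m) = 0 := by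
    intro l m
    by_cases hlm : (m : ℤ) = l + 2 * (c + c') - 1
    · have h1 : C.comp (C.comp (π l) (C.comp f g)) (π m) =
          C.comp (C.comp (π l) f) (C.comp (dg C X) (C.comp g (π m))) := by
        rw [dg_comp, ← comp_assoc C (π l) f g, comp_assoc C (C.comp (π l) f) g (π m)]
      rw [h1, ← hπ.sum, sum_comp, comp_sum]
      apply Finset.sum_eq_zero
      intro n _
      by_cases hn : (n : ℤ) = l + 2 * c - 1
      · have h2 := block_zero hπ hs hπ hp hg hg0 (l := n) (m := m) (by omega)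
        rw [← comp_assoc C (π n) g, h2, comp_zero C]
      · have h2 := block_zero hπ hs hπ hp hf hf0 (l := l) (m := n) hn
        rw [← comp_assoc C (C.comp (π l) f), h2, zero_comp C]
    · exact block_zero hπ hs hπ hp hw hw0 hlm
  have h3 : C.comp (C.comp (dg C X) (C.comp f g)) (dg C X) = C.comp f g := by
    rw [dg_comp, comp_dg]
  rw [← h3, ← hπ.sum, sum_comp, sum_comp]
  apply Finset.sum_eq_zero
  intro l _
  rw [comp_sum]
  apply Finset.sum_eq_zero
  intro m _
  exact key l m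

end Pool.Agent.HS37.BL
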