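import Pool.Agent.HS37.BL.Triple
import Pool.Agent.TH133.Ext

/-!
# Products of `sl(2)`-triples of correspondences
-/

open CategoryTheory AlgebraicGeometry

set_option autoImplicit false

universe u v w

namespace Pool.Agent.HS37.BL

open Pool.Agent.H914 Pool.Agent.H914.VarClass Pool.Agent.H914.VarClass.Obj Pool.Agent.W492.BB
  Pool.Agent.W550.Corr Pool.Agent.TH133 Pool.Agent.Y107

set_option linter.unusedSectionVars false

variable {k : Type u} [Field k] {𝒱 : VarClass k} {C : TheoryData.{u, v, 0} 𝒱 ℚ}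
  [hC : IsChowProj C] {X Y : 𝒱.Obj}

/-- The external product of self-correspondences. -/
noncomputable def tt (a : Cor C X) (b : Cor C Y) : Cor C (X.prod Y) :=
  tens C (X := X) (Y := X) (Z := Y) (W := Y) a b

lemma tt_mul (a a' : Cor C X) (b b' : Cor C Y) : tt a b * tt a' b' = tt (a * a') (b * b') :=
  tens_comp' (C := C) (X := X) (Z := Y) a' a b' b

lemma tt_one : tt (1 : Cor C X) (1 : Cor C Y) = 1 := tens_dg C X Y

lemma tt_add_left (a a' : Cor C X) (b : Cor C Y) : tt (a + a') b = tt a b + tt a' b :=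
  LinearMap.map_add₂ (tensL (C := C) (X := X) (Y := X) (Z := Y) (W := Y)) a a' b

lemma tt_add_right (a : Cor C X) (b b' : Cor C Y) : tt a (b + b') = tt a b + tt a b' :=
  map_add (tensL (C := C) (X := X) (Y := X) (Z := Y) (W := Y) a) b b'

lemma tt_sub_left (a a' : Cor C X) (b : Cor C Y) : tt (a - a') b = tt a b - tt a' b :=
  LinearMap.map_sub₂ (tensL (C := C) (X := X) (Y := X) (Z := Y) (W := Y)) a a' b

lemma tt_sub_right (a : Cor C X) (b b' : Cor C Y) : tt a (b - b') = tt a b - tt a b' :=
  map_sub (tensL (C := C) (X := X) (Y := X) (Z := Y) (W := Y) a) b b'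

lemma tt_smul_left (q : ℚ) (a : Cor C X) (b : Cor C Y) : tt (q • a) b = q • tt a b :=
  LinearMap.map_smul₂ (tensL (C := C) (X := X) (Y := X) (Z := Y) (W := Y)) q a b

lemma tt_smul_right (q : ℚ) (a : Cor C X) (b : Cor C Y) : tt a (q • b) = q • tt a b :=
  map_smul (tensL (C := C) (X := X) (Y := X) (Z := Y) (W := Y) a) q b

lemma tt_neg_left (a : Cor C X) (b : Cor C Y) : tt (-a) b = -tt a b :=
  LinearMap.map_neg₂ (tensL (C := C) (X := X) (Y := X) (Z := Y) (W := Y)) a b

lemma tt_neg_right (a : Cor C X) (b : Cor C Y) : tt a (-b) = -tt a b :=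
  map_neg (tensL (C := C) (X := X) (Y := X) (Z := Y) (W := Y) a) b

lemma tt_mem {a : Cor C X} {b : Cor C Y} {i j : ℤ} (ha : a ∈ crg C X i) (hb : b ∈ crg C Y j) :
    tt a b ∈ crg C (X.prod Y) (i + j) := by
  have h : (tt a b : C.A ((X.prod Y).prod (X.prod Y))) ∈
      C.gr ((X.prod Y).prod (X.prod Y)) (((X.dim : ℤ) + i) + ((Y.dim : ℤ) + j)) :=
    tens_mem C (X := X) (Y := X) (Z := Y) (W := Y) ha hb
  rw [mem_crg, dim_prod]
  rwa [show (((X.dim + Y.dim : ℕ) : ℤ)) + (i + j) = ((X.dim : ℤ) + i) + ((Y.dim : ℤ) + j) by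
    push_cast; ring]

/-- `a ⊗ 1 + 1 ⊗ b`. -/
noncomputable def bx (a : Cor C X) (b : Cor C Y) : Cor C (X.prod Y) := tt a 1 + tt 1 b

lemma bx_comm (a a' : Cor C X) (b b' : Cor C Y) :
    bx a b * bx a' b' - bx a' b' * bx a b = bx (a * a' - a' * a) (b * b' - b' * b) := by
  unfold bx
  rw [tt_sub_left, tt_sub_right]
  simp only [mul_add, add_mul, tt_mul, mul_one, one_mul]
  abel

lemma bx_two (a : Cor C X) (b : Cor C Y) : bx (2 * a) (2 * b) = 2 * bx a b := by
  unfold bx
  rw [two_mul, two_mul, two_mul, tt_add_left, tt_add_right]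
  abel

lemma bx_neg (a : Cor C X) (b : Cor C Y) : bx (-a) (-b) = -bx a b := by
  unfold bx
  rw [tt_neg_left, tt_neg_right]
  abel

lemma bx_mem {a : Cor C X} {b : Cor C Y} {i : ℤ} (ha : a ∈ crg C X i) (hb : b ∈ crg C Y i) :
    bx a b ∈ crg C (X.prod Y) i := by
  refine Submodule.add_mem _ ?_ ?_
  · have := tt_mem ha (crg_one (C := C) (X := Y))
    rwa [add_zero] at this
  · have := tt_mem (crg_one (C := C) (X := X)) hb
    rwa [zero_add] at this

/-- The product of two triples. -/
theorem CTriple.prod {h e f : Cor C X} {h' e' f' : Cor C Y} (T : CTriple h e f)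
    (T' : CTriple h' e' f') : CTriple (bx h h') (bx e e') (bx f f') where
  t := ⟨by rw [bx_comm, T.t.ef, T'.t.ef], by rw [bx_comm, T.t.he, T'.t.he, bx_two],
    by rw [bx_comm, T.t.hf, T'.t.hf, bx_neg, bx_two]⟩
  hm := bx_mem T.hm T'.hm
  em := bx_mem T.em T'.em
  fm := bx_mem T.fm T'.fm

/-- The weight projectors of a product. -/
theorem CTriple.wproj_prod {h e f : Cor C X} {h' e' f' : Cor C Y} (T : CTriple h e f)
    (T' : CTriple h' e' f') (n : ℕ) :
    wproj (bx h h') n = ∑ i ∈ Finset.range (n + 1), tt (wproj h i) (wproj h' (n - i)) := by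
  have TT := T.prod T'
  -- the product projectors are in the right weight spaces
  have k1 : ∀ i j : ℕ, wproj (bx h h') (i + j) * tt (wproj h i) (wproj h' j) =
      tt (wproj h i) (wproj h' j) := by
    intro i j
    refine wp_of_wt TT.t TT.hE TT.hF ?_
    have e1 : bx h h' * tt (wproj h i) (wproj h' j) =
        tt (h * wproj h i) (wproj h' j) + tt (wproj h i) (h' * wproj h' j) := by
      unfold bx
      rw [add_mul, tt_mul, tt_mul, one_mul, one_mul]
    rw [e1, T.h_wproj, T'.h_wproj, tt_smul_left, tt_smul_right, ← add_smul]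
    congr 1
    rw [dim_prod]
    push_cast
    ring
  have k2 : ∀ m, wproj (bx h h') n *
      (∑ i ∈ Finset.range (m + 1), tt (wproj h i) (wproj h' (m - i))) =
      if n = m then ∑ i ∈ Finset.range (m + 1), tt (wproj h i) (wproj h' (m - i)) else 0 := by
    intro m
    rw [Finset.mul_sum]
    have e1 : ∀ i ∈ Finset.range (m + 1), wproj (bx h h') n * tt (wproj h i) (wproj h' (m - i)) =
        if n = m then tt (wproj h i) (wproj h' (m - i)) else 0 := by
      intro i hi
      rw [Finset.mem_range] at hi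
      have e2 := k1 i (m - i)
      rw [show i + (m - i) = m by omega] at e2
      rw [← e2, ← mul_assoc, TT.wproj_mul]
      split_ifs with hnm
      · rw [hnm]
      · rw [zero_mul]
    rw [Finset.sum_congr rfl e1]
    split_ifs
    · rfl
    · exact Finset.sum_const_zero
  have k3 : ∑ m ∈ Finset.range (2 * (X.prod Y).dim + 1),
      (∑ i ∈ Finset.range (m + 1), tt (wproj h i) (wproj h' (m - i))) = 1 := by
    rw [sum_sum_range (fun i j => tt (wproj h i) (wproj h' j))]
    have e1 : ∀ i ∈ Finset.range (2 * (X.prod Y).dim + 1),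
        ∑ j ∈ Finset.range (2 * (X.prod Y).dim + 1 - i), tt (wproj h i) (wproj h' j) =
        tt (wproj h i) 1 := by
      intro i hi
      rw [Finset.mem_range] at hi
      have hz : ∀ b : Cor C Y, tt (0 : Cor C X) b = 0 := fun b => tens_zero_left (C := C)
        (X := X) (Y := X) (Z := Y) (W := Y) b
      rcases le_or_gt i (2 * X.dim) with h1 | h1
      · have e2 : ∑ j ∈ Finset.range (2 * (X.prod Y).dim + 1 - i), wproj h' j = 1 := by
          rw [← T'.wproj_sum]
          symm
          apply Finset.sum_subset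
          · intro j hj
            rw [Finset.mem_range] at *
            rw [dim_prod]
            omega
          · intro j _ hj
            rw [Finset.mem_range] at hj
            exact CTriple.wproj_out (by omega)
        rw [← e2]
        exact (map_sum (tensL (C := C) (X := X) (Y := X) (Z := Y) (W := Y) (wproj h i)) _ _).symm
      · have hz' : wproj h i = 0 := CTriple.wproj_out h1
        simp only [hz', hz]
        exact Finset.sum_const_zero
    rw [Finset.sum_congr rfl e1]
    have e3 : ∑ i ∈ Finset.range (2 * (X.prod Y).dim + 1), wproj h i = 1 := by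
      rw [← T.wproj_sum]
      symm
      apply Finset.sum_subset
      · intro j hj
        rw [Finset.mem_range] at *
        rw [dim_prod]
        omega
      · intro j _ hj
        rw [Finset.mem_range] at hj
        exact CTriple.wproj_out (by omega)
    have e4 : ∀ s : Finset ℕ, ∑ i ∈ s, tt (wproj h i) (1 : Cor C Y) =
        tt (∑ i ∈ s, wproj h i) 1 := by
      intro s
      classical
      induction s using Finset.induction_on with
      | empty =>
        rw [Finset.sum_empty, Finset.sum_empty]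
        exact (tens_zero_left (C := C) (X := X) (Y := X) (Z := Y) (W := Y) _).symm
      | insert a s ha ih => rw [Finset.sum_insert ha, Finset.sum_insert ha, tt_add_left, ih]
    rw [e4, e3, tt_one]
  rcases le_or_gt n (2 * (X.prod Y).dim) with hn | hn
  · calc wproj (bx h h') n = wproj (bx h h') n * 1 := (mul_one _).symm
      _ = _ := by
        rw [← k3, Finset.mul_sum, Finset.sum_congr rfl fun m _ => k2 m,
          Finset.sum_ite_eq, if_pos (Finset.mem_range.2 (by omega))]
  · rw [CTriple.wproj_out hn]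
    symm
    apply Finset.sum_eq_zero
    intro i hi
    rw [Finset.mem_range] at hi
    rw [dim_prod] at hn
    rcases le_or_gt i (2 * X.dim) with h1 | h1
    · have hz' : wproj h' (n - i) = 0 := CTriple.wproj_out (by omega)
      rw [hz']
      exact tens_zero_right (C := C) (X := X) (Y := X) (Z := Y) (W := Y) _
    · have hz' : wproj h i = 0 := CTriple.wproj_out h1
      rw [hz']
      exact tens_zero_left (C := C) (X := X) (Y := X) (Z := Y) (W := Y) _

/-- The intersection with `D × 1 + 1 × D'`. -/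
theorem corD_prod (D : C.A X) (D' : C.A Y) :
    corD (X.prod Y) (C.ext D 1 + C.ext 1 D') = bx (corD X D) (corD Y D') := by
  have k0 : ∀ {Z : 𝒱.Obj} (E : C.A Z), C.mulCorr E = C.pull (snd Z Z) E * dg C Z := by
    intro Z E
    rw [← comp_mulCorr, dg_comp]
  have k1 : ∀ (E : C.A X) (E' : C.A Y), tens C (C.mulCorr E) (C.mulCorr E') =
      C.mulCorr (C.ext E E') := by
    intro E E'
    have e1 : prodMap (fst X Y) (fst X Y) ≫ snd X X = snd (X.prod Y) (X.prod Y) ≫ fst X Y :=
      prodMap_snd _ _
    have e2 : prodMap (snd X Y) (snd X Y) ≫ snd Y Y = snd (X.prod Y) (X.prod Y) ≫ snd X Y :=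
      prodMap_snd _ _
    have e3 : dg C (X.prod Y) = C.pull (prodMap (fst X Y) (fst X Y)) (dg C X) *
        C.pull (prodMap (snd X Y) (snd X Y)) (dg C Y) := (tens_dg C X Y).symm
    rw [k0, k0, k0, tens, map_mul, map_mul, ← C.pull_comp, ← C.pull_comp, e1, e2, e3,
      TheoryData.ext, map_mul, ← C.pull_comp, ← C.pull_comp]
    generalize C.pull (snd (X.prod Y) (X.prod Y) ≫ fst X Y) E = a
    generalize C.pull (snd (X.prod Y) (X.prod Y) ≫ snd X Y) E' = b
    generalize C.pull (prodMap (fst X Y) (fst X Y)) (dg C X) = c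
    generalize C.pull (prodMap (snd X Y) (snd X Y)) (dg C Y) = d
    rw [mul_assoc, ← mul_assoc c b d, ch_comm C c b, mul_assoc b c d, ← mul_assoc]
  have k2 : ∀ {Z : 𝒱.Obj}, C.mulCorr (1 : C.A Z) = dg C Z := fun {Z} => rfl
  have e1 := k1 D 1
  have e2 := k1 1 D'
  rw [k2] at e1 e2
  change C.mulCorr (C.ext D 1 + C.ext 1 D') = tens C (C.mulCorr D) (dg C Y) +
    tens C (dg C X) (C.mulCorr D')
  rw [e1, e2]
  exact map_add (C.push _) _ _

end Pool.Agent.HS37.BL
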