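import Pool.Agent.Y107.SDMul
import Pool.Agent.HS37.BL.Lin
import Pool.Agent.HS37.BL.Defs

/-!
# Hard Lefschetz for homologically trivial cycles on one variety
-/

open CategoryTheory AlgebraicGeometry

set_option autoImplicit false

universe u v w

namespace Pool.Agent.HS37.BL

open Pool.Agent.H914 Pool.Agent.H914.VarClass Pool.Agent.H914.VarClass.Obj Pool.Agent.W492.BB
  Pool.Agent.W550.Corr Pool.Agent.TH133 Pool.Agent.Y107

set_option linter.unusedSectionVars false

variable {k : Type u} [Field k] {𝒱 : VarClass k} {C : TheoryData.{u, v, 0} 𝒱 ℚ}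
  [hC : IsChowProj C] {K : Type w} [Field K] {H : WeilTheoryData.{u, v, w} C K}
  [hH : IsWeilProj H] {X : 𝒱.Obj}

variable (H X) in
/-- The homologically trivial cycles. -/
noncomputable def homT : Submodule ℚ (C.A X) where
  carrier := {x | H.cl x = 0}
  add_mem' {a b} ha hb := by
    change H.cl (a + b) = 0
    rw [map_add, show H.cl a = 0 from ha, show H.cl b = 0 from hb, add_zero]
  zero_mem' := map_zero _
  smul_mem' q x hx := by
    change H.cl (q • x) = 0
    rw [Algebra.smul_def, map_mul, show H.cl x = 0 from hx, mul_zero]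

omit hC hH in
lemma mem_homT {x : C.A X} : x ∈ homT H X ↔ H.cl x = 0 := Iff.rfl

variable (X) in
/-- The operator given by the intersection with `D`, as an element of the ring of
self-correspondences. -/
noncomputable def corD (D : C.A X) : Cor C X := C.mulCorr D

lemma actC_corD (D x : C.A X) : actC C X (corD X D) x = D * x := C.act_mulCorr D x

lemma actC_corD_pow (D x : C.A X) (m : ℕ) :
    ((actC C X (corD X D)) ^ m) x = D ^ m * x := by
  induction m with
  | zero => rw [pow_zero, pow_zero, one_mul, Module.End.one_apply]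
  | succ m ih => rw [pow_succ', Module.End.mul_apply, ih, actC_corD, pow_succ', mul_assoc]

include hC hH

lemma act_homT {Γ : C.A (X.prod X)} {x : C.A X} (hx : H.cl x = 0) : H.cl (C.act Γ x) = 0 := by
  rw [cl_act H, hx, TheoryData.act_map_zero]

lemma cl_act_proj {π : ℕ → C.A (X.prod X)} (h : IsCK H X π) (j : ℕ) {i : ℤ} {x : C.A X}
    (hx : x ∈ C.gr X i) : H.cl (C.act (π j) x) = if 2 * i = j then H.cl x else 0 := by
  rw [cl_act H, h.actH_eq j (2 * i) (H.cl_mem hx)]

/-- The Lefschetz system attached to a Chow-Kunneth decomposition with motivic hard Lefschetz. -/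
theorem lefSys' {D : C.A X} (hD : C.Deg 1 D) {P : ℕ → Cor C X} (hP : IsCK H X P)
    (hM : MotivicLefschetz C (X := X) (corD X D) P) :
    LefSys X.dim (C.gr X) (homT H X) (actC C X (corD X D)) (fun j => actC C X (P j)) where
  gr_neg := C.gr_neg X
  gr_top i hi := by
    rw [eq_bot_iff]
    intro x hx
    rw [Submodule.mem_bot]
    exact hC.gr_top X i x hx hi
  e_gr i x hx := by
    rw [actC_corD]
    have := C.mul_mem hD hx
    rwa [add_comm] at this
  p_gr j i x hx := act_mem0 C (hP.deg j) hx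
  e_I x hx := by
    rw [mem_homT] at hx ⊢
    rw [actC_corD, map_mul, hx, mul_zero]
  p_I j x hx := act_homT (H := H) (Γ := P j) hx
  hom j i hij x hx := by
    change H.cl (C.act (P j) x) = 0
    rw [cl_act_proj hP j hx, if_neg (Ne.symm hij)]
  mul i j := by
    rw [← map_mul, hP.mul_eq i j]
    split_ifs
    · rfl
    · exact map_zero _
  out j hj := by
    have h1 : P j = 0 := hP.out j hj
    change actC C X (P j) = 0
    rw [h1, map_zero]
  sum := by
    rw [← map_sum, hP.sum_eq, map_one]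
  comm j := by
    have h1 : corD X D * P j = P (j + 2) * corD X D := hM.homogeneous j
    rw [← map_mul, h1, map_mul]
  iso j hj := by
    obtain ⟨g', hg, hg1, hg2⟩ := hM.iso j hj
    obtain ⟨g, rfl⟩ : ∃ g : Cor C X, g = g' := ⟨g', rfl⟩
    refine ⟨actC C X g, fun i x hx => ?_, fun x hx => act_homT (H := H) (Γ := g) hx, ?_, ?_⟩
    · have hg' : (g : C.A (X.prod X)) ∈ C.gr (X.prod X) (X.dim + ((j : ℤ) - X.dim)) := by
        rw [show (X.dim : ℤ) + ((j : ℤ) - X.dim) = j by ring]
        exact hg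
      exact act_mem' C hg' hx
    · rw [corPow_eq] at hg1
      have h1 : g * (corD X D ^ (X.dim - j) * P j) = P j := hg1
      rw [← map_pow, mul_assoc, ← map_mul, ← map_mul, h1]
    · rw [corPow_eq] at hg2
      have h1 : corD X D ^ (X.dim - j) * (g * P (2 * X.dim - j)) = P (2 * X.dim - j) := hg2
      rw [← map_pow, mul_assoc, ← map_mul, ← map_mul, h1]

theorem lefSys {D : C.A X} (hD : C.Deg 1 D) {π : ℕ → C.A (X.prod X)} (hP : IsCK H X π)
    (hM : MotivicLefschetz C (C.mulCorr D) π) :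
    LefSys X.dim (C.gr X) (homT H X) (actC C X (corD X D)) (fun j => actC C X (π j)) :=
  lefSys' hD (P := π) hP hM

lemma lefInj_iff {D : C.A X} :
    LefschetzInj H D ↔ LefSys.Inj X.dim (C.gr X) (homT H X) (actC C X (corD X D)) := by
  constructor
  · intro h i hi x hx hxI h0
    rw [actC_corD_pow] at h0
    exact h i hi x hx hxI h0
  · intro h i hi x hx hxI h0
    refine h i hi x hx hxI ?_
    rw [actC_corD_pow]
    exact h0

lemma lefSurj_iff {D : C.A X} :
    LefschetzSurj H D ↔ LefSys.Surj X.dim (C.gr X) (homT H X) (actC C X (corD X D)) := by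
  constructor
  · intro h i hi y hy hyI
    obtain ⟨x, hx, hxI, h0⟩ := h i hi y hy hyI
    refine ⟨x, hx, hxI, ?_⟩
    rw [actC_corD_pow]
    exact h0
  · intro h i hi y hy hyI
    obtain ⟨x, hx, hxI, h0⟩ := h i hi y hy hyI
    refine ⟨x, hx, hxI, ?_⟩
    rw [actC_corD_pow] at h0
    exact h0

/-- Homologically trivial cycles of codimension zero are zero. -/
lemma eq_zero_of_deg_zero {x : C.A X} (hx : C.Deg 0 x) (h : H.cl x = 0) : x = 0 := by
  obtain ⟨q, rfl⟩ := hC.gr_zero X x hx
  rw [Algebra.smul_def, mul_one] at h ⊢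
  by_contra h0
  have hq : q ≠ 0 := by
    rintro rfl
    exact h0 (map_zero _)
  have h1 : H.cl (algebraMap ℚ (C.A X) q⁻¹) * H.cl (algebraMap ℚ (C.A X) q) = 1 := by
    rw [← map_mul, ← map_mul, inv_mul_cancel₀ hq, map_one, map_one]
  rw [h, mul_zero] at h1
  exact hH.one_ne_zero X h1.symm

/-- `p_j I^i = 0` for `j ≥ 2 i` is Murre's conjecture (D) for the given decomposition. -/
lemma low_iff {π : ℕ → C.A (X.prod X)} (hP : IsCK H X π) :
    LefSys.Low (C.gr X) (homT H X) (fun j => actC C X (π j)) ↔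
      ∀ (i : ℕ) (x : C.A X), x ∈ ckFil C π i 1 ↔ C.Deg i x ∧ H.cl x = 0 := by
  constructor
  · intro h i x
    rw [hP.mem_ckFil]
    constructor
    · rintro ⟨hx, h1⟩
      refine ⟨hx, ?_⟩
      have h2 := cl_act_proj hP (2 * i) hx
      rw [if_pos (by push_cast; ring), h1 _ (by omega), map_zero] at h2
      exact h2.symm
    · rintro ⟨hx, h1⟩
      exact ⟨hx, fun j hj => h i j (by omega) x hx h1⟩
  · intro h i j hj x hx hxI
    exact ((hP.mem_ckFil i 1 x).1 ((h i x).2 ⟨hx, hxI⟩)).2 j (by omega)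

/-- `p_j V^i = 0` for `j ≤ 2 i - 2` means `F^2 = 0`. -/
lemma high_iff {π : ℕ → C.A (X.prod X)} (hP : IsCK H X π) :
    LefSys.High (C.gr X) (fun j => actC C X (π j)) ↔ ∀ i : ℕ, ckFil C π i 2 = ⊥ := by
  constructor
  · intro h i
    rw [eq_bot_iff]
    intro x hx
    rw [Submodule.mem_bot]
    rw [hP.mem_ckFil] at hx
    have h1 := hP.sum_of_le (N := 2 * X.dim + 1) le_rfl
    rw [← act_dg C x, ← h1, act_sum]
    apply Finset.sum_eq_zero
    intro j _
    by_cases hj : 2 * i + 1 - 2 ≤ j
    · exact hx.2 j hj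
    · exact h i j (by omega) x hx.1
  · intro h i j hj x hx
    change C.act (π j) x = 0
    have h1 : C.act (π j) x ∈ ckFil C π i 2 := by
      rw [hP.mem_ckFil]
      refine ⟨act_mem0 C (hP.deg j) hx, fun m hm => ?_⟩
      rw [← C.act_comp, hP.comp_eq, if_neg (by omega)]
      exact C.act_zero x
    rw [h i] at h1
    exact (Submodule.mem_bot _).1 h1

theorem inj_iff_murreD {D : C.A X} (hD : C.Deg 1 D) {π : ℕ → C.A (X.prod X)} (hP : IsCK H X π)
    (hM : MotivicLefschetz C (C.mulCorr D) π) :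
    LefschetzInj H D ↔ ∀ (i : ℕ) (x : C.A X), x ∈ ckFil C π i 1 ↔ C.Deg i x ∧ H.cl x = 0 := by
  rw [lefInj_iff, (lefSys hD hP hM).inj_iff, low_iff hP]

theorem surj_iff_fil {D : C.A X} (hD : C.Deg 1 D) {π : ℕ → C.A (X.prod X)} (hP : IsCK H X π)
    (hM : MotivicLefschetz C (C.mulCorr D) π) :
    LefschetzSurj H D ↔ ∀ i : ℕ, ckFil C π i 2 = ⊥ := by
  rw [lefSurj_iff, (lefSys hD hP hM).surj_iff, high_iff hP]

/-- Both parts together. -/
theorem both_iff {D : C.A X} (hD : C.Deg 1 D) {π : ℕ → C.A (X.prod X)} (hP : IsCK H X π)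
    (hM : MotivicLefschetz C (C.mulCorr D) π) :
    (LefschetzInj H D ∧ LefschetzSurj H D) ↔
      ∀ (i : ℕ) (x : C.A X), C.Deg ((i : ℤ) + 1) x →
        (H.cl x = 0 ↔ C.act (π (2 * i + 1)) x = x) := by
  rw [lefInj_iff, lefSurj_iff, (lefSys hD hP hM).inj_iff, (lefSys hD hP hM).surj_iff]
  constructor
  · rintro ⟨h1, h2⟩ i x hx
    have hx' : C.Deg ((i + 1 : ℕ) : ℤ) x := by
      rw [show ((i + 1 : ℕ) : ℤ) = (i : ℤ) + 1 by push_cast; ring]
      exact hx
    constructor
    · intro h0
      have h3 := act_dg C x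
      rw [← hP.sum_of_le (N := 2 * X.dim + 1 + (2 * i + 2)) (by omega), act_sum,
        Finset.sum_eq_single (2 * i + 1)] at h3
      · exact h3
      · intro j _ hj
        rcases le_or_gt (2 * (i + 1)) j with h4 | h4
        · exact h1 (i + 1) j h4 x hx' h0
        · exact h2 (i + 1) j (by omega) x hx'
      · intro hj
        rw [Finset.mem_range] at hj
        omega
    · intro h0
      rw [← h0, cl_act_proj hP _ hx, if_neg (by omega)]
  · intro h
    constructor
    · intro i j hj x hx hxI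
      rcases Nat.eq_zero_or_pos i with hi | hi
      · subst hi
        have h1 : x = 0 := eq_zero_of_deg_zero (H := H) hx hxI
        rw [h1, map_zero]
      · have h1 : C.act (π (2 * (i - 1) + 1)) x = x := (h (i - 1) x (by
          rw [show ((i - 1 : ℕ) : ℤ) + 1 = i by omega]
          exact hx)).1 hxI
        change C.act (π j) x = 0
        rw [← h1, ← C.act_comp, hP.comp_eq, if_neg (by omega)]
        exact C.act_zero x
    · intro i j hj x hx
      have hi : 1 ≤ i := by omega
      have h2 : C.Deg (((i - 1 : ℕ) : ℤ) + 1) (C.act (π j) x) := by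
        rw [show ((i - 1 : ℕ) : ℤ) + 1 = i by omega]
        exact act_mem0 C (hP.deg j) hx
      have h3 : H.cl (C.act (π j) x) = 0 := by
        rw [cl_act_proj hP _ hx, if_neg (by omega)]
      have h1 := (h (i - 1) _ h2).1 h3
      change C.act (π j) x = 0
      rw [← h1, ← C.act_comp, hP.comp_eq, if_neg (by omega)]
      exact C.act_zero x

/-- The Hodge index statement. -/
theorem index_iff {D : C.A X} (hD : C.Deg 1 D) {π : ℕ → C.A (X.prod X)} (hP : IsCK H X π)
    (hM : MotivicLefschetz C (C.mulCorr D) π) (h : C.A X → C.A X → ℝ)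
    (h0 : ∀ (i : ℕ) (x : C.A X), C.Deg i x → H.cl x = 0 → h x 0 = 0) :
    HodgeIndex H D h ↔ (∀ (i : ℕ) (x : C.A X), x ∈ ckFil C π i 1 ↔ C.Deg i x ∧ H.cl x = 0) ∧
      ∀ i : ℕ, 2 * i + 2 ≤ X.dim + 1 → ∀ x : C.A X, C.Deg ((i : ℤ) + 1) x →
        C.act (π (2 * i + 1)) x = x → x ≠ 0 → D ^ (X.dim - 2 * i) * x = 0 →
          0 < (-1) ^ (i + 1) * h x (D ^ (X.dim - 1 - 2 * i) * x) := by
  have hcast : ∀ i : ℕ, ((i + 1 : ℕ) : ℤ) = (i : ℤ) + 1 := fun i => by push_cast; ring
  constructor
  · intro hI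
    refine ⟨(inj_iff_murreD hD hP hM).1 fun i hi x hx hxI hx0 => ?_, fun i hi x hx hxp hx1 hx0 => ?_⟩
    · by_contra hne
      have h1 := hI i hi x hx hxI hne (by
        rw [show X.dim + 2 - 2 * i = X.dim + 1 - 2 * i + 1 by omega, pow_succ', mul_assoc, hx0,
          mul_zero])
      rw [hx0, h0 i x hx hxI, mul_zero] at h1
      exact lt_irrefl _ h1
    · have h1 := hI (i + 1) (by omega) x (by rw [hcast]; exact hx) (by
        rw [← hxp, cl_act_proj hP _ hx, if_neg (by omega)]) hx1 (by
        rw [show X.dim + 2 - 2 * (i + 1) = X.dim - 2 * i by omega]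
        exact hx0)
      rwa [show X.dim + 1 - 2 * (i + 1) = X.dim - 1 - 2 * i by omega] at h1
  · rintro ⟨hM', hI⟩ i hi x hx hxI hx1 hx0
    rcases Nat.eq_zero_or_pos i with hi0 | hi0
    · subst hi0
      exact absurd (eq_zero_of_deg_zero (H := H) hx hxI) hx1
    · obtain ⟨i, rfl⟩ : ∃ m, i = m + 1 := ⟨i - 1, by omega⟩
      have hlow := (low_iff hP).2 hM'
      have h1 := (lefSys hD hP hM).prim_mem hlow (i := i + 1) hi hx hxI (by
        rw [actC_corD_pow]
        exact hx0)
      have h2 := hI i (by omega) x (by rw [← hcast]; exact hx) (by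
        rw [show 2 * (i + 1) - 1 = 2 * i + 1 by omega] at h1
        exact h1) hx1 (by
        rw [show X.dim - 2 * i = X.dim + 2 - 2 * (i + 1) by omega]
        exact hx0)
      rwa [show X.dim - 1 - 2 * i = X.dim + 1 - 2 * (i + 1) by omega] at h2

end Pool.Agent.HS37.BL
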