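import Pool.Agent.HS37.BL.Single

/-!
# `sl(2)`-triples of correspondences and the attached Chow-Kunneth decompositions
-/

open CategoryTheory AlgebraicGeometry

set_option autoImplicit false

universe u v w

namespace Pool.Agent.HS37.BL

open Pool.Agent.H914 Pool.Agent.H914.VarClass Pool.Agent.H914.VarClass.Obj Pool.Agent.W492.BB
  Pool.Agent.W550.Corr Pool.Agent.TH133 Pool.Agent.Y107

set_option linter.unusedSectionVars false

variable {k : Type u} [Field k] {𝒱 : VarClass k} {C : TheoryData.{u, v, 0} 𝒱 ℚ}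
  [hC : IsChowProj C] {X Y : 𝒱.Obj}

/-- The weight projectors. -/
noncomputable def wproj (h : Cor C X) (n : ℕ) : Cor C X := wp h (X.dim + 1) ((n : ℤ) - X.dim)

/-- An `sl(2)`-triple of self-correspondences of degrees `0`, `1`, `-1`. -/
structure CTriple (h e f : Cor C X) : Prop where
  t : Sl2 h e f
  hm : h ∈ crg C X 0
  em : e ∈ crg C X 1
  fm : f ∈ crg C X (-1)

namespace CTriple

variable {h e f : Cor C X} (T : CTriple h e f)

include T

lemma hE : e ^ (X.dim + 1) = 0 := crg_top (crg_pow T.em (X.dim + 1)) (by push_cast; omega)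

lemma hF : f ^ (X.dim + 1) = 0 := crg_bot (crg_pow T.fm (X.dim + 1)) (by push_cast; omega)

lemma wproj_mem (n : ℕ) : wproj h n ∈ cor0 C X := by
  have hhc : h ∈ cor0 C X := crg_zero_iff.1 T.hm
  unfold wproj wp
  split_ifs
  · exact (Algebra.adjoin_le (Set.singleton_subset_iff.2 hhc) :
      Algebra.adjoin ℚ {h} ≤ cor0 C X) (Polynomial.aeval_mem_adjoin_singleton ℚ h)
  · exact (cor0 C X).zero_mem

omit T in
lemma mem_wts (n : ℕ) : ((n : ℤ) - X.dim) ∈ wts (X.dim + 1) ↔ n ≤ 2 * X.dim := by
  unfold wts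
  rw [Finset.mem_Ioo]
  push_cast
  constructor
  · intro h; omega
  · intro h; constructor <;> omega

omit T in
lemma wproj_out {n : ℕ} (hn : 2 * X.dim < n) : wproj h n = 0 := by
  unfold wproj wp
  rw [if_neg]
  rw [mem_wts]
  omega

lemma wproj_mul (i j : ℕ) : wproj h i * wproj h j = if i = j then wproj h i else 0 := by
  unfold wproj
  rw [wp_mul T.t T.hE T.hF]
  by_cases hij : i = j
  · rw [if_pos (by omega), if_pos hij]
  · rw [if_neg (by omega), if_neg hij]

lemma wproj_sum : ∑ i ∈ Finset.range (2 * X.dim + 1), wproj h i = 1 := by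
  rw [← wp_sum T.t T.hE T.hF]
  refine Finset.sum_bij (fun (n : ℕ) _ => (n : ℤ) - X.dim) ?_ ?_ ?_ ?_
  · intro n hn
    rw [Finset.mem_range] at hn
    exact (mem_wts n).2 (by omega)
  · intro a _ b _ hab
    omega
  · intro j hj
    unfold wts at hj
    rw [Finset.mem_Ioo] at hj
    push_cast at hj
    refine ⟨(j + X.dim).toNat, ?_, ?_⟩
    · rw [Finset.mem_range]; omega
    · omega
  · intro n _; rfl

lemma h_wproj (n : ℕ) : h * wproj h n = (((n : ℤ) - X.dim : ℤ) : ℚ) • wproj h n :=
  h_wp T.t T.hE T.hF _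

/-- The weight projectors satisfy motivic hard Lefschetz. -/
theorem motivic : MotivicLefschetz C (X := X) e (wproj h) := by
  refine ⟨?_, ?_⟩
  · intro n
    change e * wproj h n = wproj h (n + 2) * e
    unfold wproj
    rw [e_wp T.t T.hE T.hF]
    congr 2
    push_cast
    ring
  · intro n hn
    obtain ⟨g, hg1, hg2, hg3⟩ := exists_lefschetz_inverse T.t T.hE T.hF (X.dim - n)
    set r := X.dim - n with hr
    have hLr : e ^ r ∈ crg C X r := by
      have := crg_pow T.em r
      rwa [mul_one] at this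
    have hn0 : wproj h n = wp h (X.dim + 1) (-(r : ℤ)) := by
      unfold wproj
      congr 1
      omega
    have hn1 : wproj h (2 * X.dim - n) = wp h (X.dim + 1) (r : ℤ) := by
      unfold wproj
      congr 1
      omega
    have hP0 : ∀ n, wproj h n ∈ crg C X 0 := fun n => crg_zero_iff.2 (T.wproj_mem n)
    let φ : Cor C X →ₗ[ℚ] Cor C X := LinearMap.mulRight ℚ (e ^ r * wproj h n)
    let ψ : Cor C X →ₗ[ℚ] Cor C X := LinearMap.mulLeft ℚ (e ^ r)
    have hφ : ∀ i, ∀ x ∈ crg C X i, φ x ∈ crg C X (i + r) := by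
      intro i x hx
      have := crg_mul hx (crg_mul hLr (hP0 n))
      rwa [add_zero] at this
    have hψ : ∀ i, ∀ x ∈ crg C X i, ψ x ∈ crg C X (i + r) := by
      intro i x hx
      have := crg_mul hLr hx
      rwa [add_comm] at this
    have k1 := cmpc_map φ r hφ (-r) g
    have k2 := cmpc_map ψ r hψ (-r) g
    have e1 : φ g = wproj h n := by
      change g * (e ^ r * wproj h n) = wproj h n
      rw [hn0, ← mul_assoc, hg1]
    have e2 : ψ g = wproj h (2 * X.dim - n) := by
      change e ^ r * g = _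
      rw [hn1, hg2]
    rw [e1, neg_add_cancel, cmpc_of_mem (hP0 n)] at k1
    rw [e2, neg_add_cancel, cmpc_of_mem (hP0 _)] at k2
    refine ⟨cmpc C X (-r) g, ?_, ?_, ?_⟩
    · have h9 := cmpc_mem (C := C) (-r : ℤ) g
      rw [mem_crg, show (X.dim : ℤ) + -(r : ℤ) = n by omega] at h9
      exact h9
    · rw [corPow_eq]
      exact k1.symm
    · rw [corPow_eq]
      have e3 : wproj h (2 * X.dim - n) * wproj h (2 * X.dim - n) = wproj h (2 * X.dim - n) := by
        rw [T.wproj_mul, if_pos rfl]
      have e4 : e ^ r * (cmpc C X (-r) g * wproj h (2 * X.dim - n)) = wproj h (2 * X.dim - n) := by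
        have k3 : wproj h (2 * X.dim - n) = e ^ r * cmpc C X (-r) g := k2
        rw [← mul_assoc, ← k3, e3]
      exact e4

/-- Self-duality. -/
lemma selfDual (hh : tpR C X h = -h) {n : ℕ} (hn : n ≤ 2 * X.dim) :
    tpR C X (wproj h n) = wproj h (2 * X.dim - n) := by
  unfold wproj
  rw [anti_wp T.t T.hE T.hF (tpR C X) tpR_mul tpR_one tpR_smul hh]
  congr 1
  omega

variable {K : Type w} [Field K] {H : WeilTheoryData.{u, v, w} C K} [hH : IsWeilProj H]

/-- The weight projectors form a Chow-Kunneth decomposition. -/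
theorem isCK (hact : ∀ (m : ℤ) (a : H.A X), a ∈ H.gr X m →
    actH C X H h a = ((m : K) - X.dim) • a) : IsCK H X (wproj h) := by
  have hne : ∀ (i : ℕ) (m : ℤ) (a : H.A X), a ∈ H.gr X m → m ≠ i →
      actH C X H (wproj h i) a = 0 := by
    intro i m a ha hmi
    have e1 : h * wproj h i = (((i : ℤ) - X.dim : ℤ) : Cor C X) * wproj h i := by
      rw [T.h_wproj, Algebra.smul_def, map_intCast]
    have e2 : wproj h i * h = h * wproj h i := h_wp_comm _
    have h2 := congrArg (fun y : Cor C X => actH C X H y a) e2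
    rw [e1] at h2
    simp only [map_mul, map_intCast, Module.End.mul_apply] at h2
    rw [hact m a ha, map_smul] at h2
    have e3 : ∀ (n : ℤ) (y : H.A X), (n : Module.End K (H.A X)) y = (n : K) • y := by
      intro n y
      rw [Module.End.intCast_apply, Int.cast_smul_eq_zsmul]
    rw [e3, ← sub_eq_zero, ← sub_smul, smul_eq_zero] at h2
    rcases h2 with h2 | h2
    · exfalso
      have h3 : ((m - i : ℤ) : K) = 0 := by
        rw [← h2]
        push_cast
        ring
      obtain ⟨n, hn⟩ := (m - i).eq_nat_or_neg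
      have hn0 : n ≠ 0 := by
        rintro rfl
        apply hmi
        rcases hn with hn | hn <;> omega
      have h4 : ((n : ℕ) : K) = 0 := by
        rcases hn with hn | hn
        · rw [hn, Int.cast_natCast] at h3
          exact h3
        · rw [hn, Int.cast_neg, Int.cast_natCast, neg_eq_zero] at h3
          exact h3
      exact charZero_coeff H X n hn0 h4
    · exact h2
  refine isCK_of T.wproj_mem (fun n hn => wproj_out hn) T.wproj_mul T.wproj_sum ?_
  intro i m a ha
  split_ifs with hmi
  · by_cases ha0 : a = 0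
    · rw [ha0, map_zero]
    have hm1 : m ≤ 2 * X.dim := by
      by_contra hcon
      rw [gr_top H (by omega)] at ha
      exact ha0 ((Submodule.mem_bot _).1 ha)
    have h3 : actH C X H (∑ n ∈ Finset.range (2 * X.dim + 1), wproj h n) a = a := by
      rw [T.wproj_sum, map_one]; rfl
    rw [map_sum, LinearMap.sum_apply, Finset.sum_eq_single i] at h3
    · exact h3
    · intro j _ hj
      refine hne j m a ha ?_
      intro h4
      apply hj
      omega
    · intro h4
      exfalso
      apply h4
      rw [Finset.mem_range]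
      omega
  · exact hne i m a ha hmi

end CTriple

variable {K : Type w} [Field K] {H : WeilTheoryData.{u, v, w} C K} [hH : IsWeilProj H]

/-- A symmetric solution of the equation gives a triple. -/
theorem exists_triple {L : Cor C X} (hL : L ∈ crg C X 1) (hsym : tpR C X L = L)
    (hHL : HardLefschetzCor H X (L : C.A (X.prod X))) (hS : InSquare C (X := X) L) :
    ∃ h f : Cor C X, CTriple h L f ∧ tpR C X h = -h ∧ ∀ (m : ℤ) (a : H.A X), a ∈ H.gr X m →
      actH C X H h a = ((m : K) - X.dim) • a := by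
  rw [inSquare_iff] at hS
  obtain ⟨z₀, hz₀, hz₀'⟩ := hS
  set z : Cor C X := -(z₀ + tpR C X z₀) with hz
  set h : Cor C X := L * z - z * L with hh
  have hzm : z ∈ crg C X (-1) := by
    refine Submodule.neg_mem _ (Submodule.add_mem _ hz₀ ?_)
    have : tp C (X := X) (Y := X) z₀ ∈ C.gr (X.prod X) ((X.dim : ℤ) + -1) := tp_mem C hz₀
    exact this
  have htz : tpR C X z = z := by rw [hz, map_neg, map_add, tpR_tpR, add_comm]
  have hth : tpR C X h = -h := by
    rw [hh, map_sub, tpR_mul, tpR_mul, htz, hsym]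
    noncomm_ring
  have hbr : ∀ x : Cor C X, tpR C X (L * x - x * L) = -(L * tpR C X x - tpR C X x * L) := by
    intro x
    rw [map_sub, tpR_mul, tpR_mul, hsym]
    noncomm_ring
  have h1 : L * (L * tpR C X z₀ - tpR C X z₀ * L) - (L * tpR C X z₀ - tpR C X z₀ * L) * L = L := by
    have h2 := congrArg (tpR C X) hz₀'
    rw [hbr, hsym] at h2
    have h3 : tpR C X ((L * z₀ - z₀ * L)) = -(L * tpR C X z₀ - tpR C X z₀ * L) := hbr z₀
    rw [h3] at h2
    calc L * (L * tpR C X z₀ - tpR C X z₀ * L) - (L * tpR C X z₀ - tpR C X z₀ * L) * L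
        = -(L * -(L * tpR C X z₀ - tpR C X z₀ * L) - -(L * tpR C X z₀ - tpR C X z₀ * L) * L) := by
          noncomm_ring
      _ = L := h2
  have he : h * L - L * h = 2 * L := by
    calc h * L - L * h
        = (L * (L * z₀ - z₀ * L) - (L * z₀ - z₀ * L) * L) +
          (L * (L * tpR C X z₀ - tpR C X z₀ * L) - (L * tpR C X z₀ - tpR C X z₀ * L) * L) := by
          rw [hh, hz]; noncomm_ring
      _ = 2 * L := by rw [hz₀', h1, two_mul]
  have hh0 : h ∈ crg C X 0 := by
    refine Submodule.sub_mem _ ?_ ?_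
    · have := crg_mul hL hzm
      rwa [show (1 : ℤ) + -1 = 0 by norm_num] at this
    · have := crg_mul hzm hL
      rwa [show (-1 : ℤ) + 1 = 0 by norm_num] at this
  have hE : L ^ (X.dim + 1) = 0 := crg_top (crg_pow hL (X.dim + 1)) (by push_cast; omega)
  obtain ⟨f, hf, t⟩ := morozov hE rfl he (crg C X (-1)) hzm (fun x hx => by
    refine Submodule.sub_mem _ ?_ ?_
    · have := crg_mul hh0 hx
      rwa [zero_add] at this
    · have := crg_mul hx hh0
      rwa [add_zero] at this)
  exact ⟨h, f, ⟨t, hh0, hL, hf⟩, hth, h_act (H := H) t.ef he hL hf hHL⟩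

end Pool.Agent.HS37.BL
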